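import Mathlib

namespace Pool.Agent.MFM

open Finset

set_option linter.unusedSectionVars false

variable {E : Type*} [DecidableEq E] [Fintype E]

/-- Weight of a set. -/
def wt (x : E → ℕ) (D : Finset E) : ℕ := ∑ e ∈ D, x e

/-- `D` meets every member of `F`. -/
def Cov (F : Finset (Finset E)) (D : Finset E) : Prop := ∀ A ∈ F, (A ∩ D).Nonempty

/-- Minimum weight of a cover (used only for families without the empty member). -/
noncomputable def cn (F : Finset (Finset E)) (x : E → ℕ) : ℕ :=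
  sInf {n | ∃ D, Cov F D ∧ wt x D = n}

/-- Indicator weight. -/
def ind (A : Finset E) : E → ℕ := fun e => if e ∈ A then 1 else 0

/-- Number of members of `P` containing `e`. -/
def tot (P : Multiset (Finset E)) (e : E) : ℕ := P.countP (fun A => e ∈ A)

theorem tot_zero (e : E) : tot (0 : Multiset (Finset E)) e = 0 := rfl

theorem tot_cons (A : Finset E) (P : Multiset (Finset E)) (e : E) :
    tot (A ::ₘ P) e = tot P e + ind A e := by
  unfold tot ind
  rw [Multiset.countP_cons]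

theorem tot_add (P Q : Multiset (Finset E)) (e : E) : tot (P + Q) e = tot P e + tot Q e := by
  unfold tot
  rw [Multiset.countP_add]

theorem tot_pos {P : Multiset (Finset E)} {e : E} (h : 0 < tot P e) : ∃ A ∈ P, e ∈ A := by
  unfold tot at h
  rw [Multiset.countP_pos] at h
  exact h

theorem tot_pos_of {P : Multiset (Finset E)} {e : E} {A : Finset E} (hA : A ∈ P) (he : e ∈ A) :
    0 < tot P e := by
  unfold tot
  rw [Multiset.countP_pos]
  exact ⟨A, hA, he⟩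

theorem wt_add (x y : E → ℕ) (D : Finset E) : wt (x + y) D = wt x D + wt y D := by
  unfold wt
  simp [Finset.sum_add_distrib]

theorem wt_mono {x y : E → ℕ} (h : x ≤ y) (D : Finset E) : wt x D ≤ wt y D :=
  Finset.sum_le_sum (fun e _ => h e)

theorem wt_ind (A D : Finset E) : wt (ind A) D = (A ∩ D).card := by
  unfold wt ind
  rw [Finset.sum_ite_mem, Finset.inter_comm]
  simp

theorem wt_single (e : E) (D : Finset E) : wt (ind {e}) D ≤ 1 := by
  rw [wt_ind]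
  exact (Finset.card_le_card Finset.inter_subset_left).trans (by simp)

theorem cn_le {F : Finset (Finset E)} {D : Finset E} (hD : Cov F D) (x : E → ℕ) :
    cn F x ≤ wt x D := Nat.sInf_le ⟨D, hD, rfl⟩

theorem exists_cov {F : Finset (Finset E)} (h : ∅ ∉ F) (x : E → ℕ) :
    ∃ D, Cov F D ∧ wt x D = cn F x := by
  have hne : {n | ∃ D, Cov F D ∧ wt x D = n}.Nonempty := by
    refine ⟨_, Finset.univ, ?_, rfl⟩
    intro A hA
    rw [Finset.inter_univ, Finset.nonempty_iff_ne_empty]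
    rintro rfl
    exact h hA
  exact Nat.sInf_mem hne

theorem le_cn {F : Finset (Finset E)} (h : ∅ ∉ F) {x : E → ℕ} {k : ℕ}
    (hk : ∀ D, Cov F D → k ≤ wt x D) : k ≤ cn F x := by
  obtain ⟨D, hD, hx⟩ := exists_cov h x
  rw [← hx]
  exact hk D hD

theorem cn_add {F : Finset (Finset E)} (h : ∅ ∉ F) (x y : E → ℕ) :
    cn F x + cn F y ≤ cn F (x + y) := by
  refine le_cn h (fun D hD => ?_)
  rw [wt_add]
  exact Nat.add_le_add (cn_le hD x) (cn_le hD y)

theorem cn_mono {F : Finset (Finset E)} (h : ∅ ∉ F) {x y : E → ℕ} (hxy : x ≤ y) :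
    cn F x ≤ cn F y :=
  le_cn h (fun D hD => (cn_le hD x).trans (wt_mono hxy D))

theorem cn_single {F : Finset (Finset E)} (h : ∅ ∉ F) (x : E → ℕ) (e : E) :
    cn F (x + ind {e}) ≤ cn F x + 1 := by
  obtain ⟨D, hD, hx⟩ := exists_cov h x
  refine (cn_le hD _).trans ?_
  rw [wt_add, hx]
  exact Nat.add_le_add_left (wt_single e D) _

theorem cov_union {F G : Finset (Finset E)} {D D' : Finset E} (hD : Cov F D) (hD' : Cov G D') :
    Cov (F ∪ G) (D ∪ D') := by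
  intro A hA
  rcases Finset.mem_union.mp hA with h | h
  · obtain ⟨e, he⟩ := hD A h
    exact ⟨e, by simp only [Finset.mem_inter, Finset.mem_union] at he ⊢; tauto⟩
  · obtain ⟨e, he⟩ := hD' A h
    exact ⟨e, by simp only [Finset.mem_inter, Finset.mem_union] at he ⊢; tauto⟩

theorem wt_union (x : E → ℕ) (D D' : Finset E) : wt x (D ∪ D') ≤ wt x D + wt x D' := by
  unfold wt
  rw [← Finset.sum_union_inter]
  exact Nat.le_add_right _ _

theorem cn_union {F G : Finset (Finset E)} (hF : ∅ ∉ F) (hG : ∅ ∉ G) (x : E → ℕ) :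
    cn (F ∪ G) x ≤ cn F x + cn G x := by
  obtain ⟨D, hD, hx⟩ := exists_cov hF x
  obtain ⟨D', hD', hx'⟩ := exists_cov hG x
  refine (cn_le (cov_union hD hD') _).trans ?_
  rw [← hx, ← hx']
  exact wt_union x D D'

theorem not_mem_union {F G : Finset (Finset E)} (hF : ∅ ∉ F) (hG : ∅ ∉ G) : ∅ ∉ F ∪ G := by
  simp [hF, hG]

theorem cn_left {F G : Finset (Finset E)} (hF : ∅ ∉ F) (hG : ∅ ∉ G) (x : E → ℕ) :
    cn F x ≤ cn (F ∪ G) x := by
  refine le_cn (not_mem_union hF hG) (fun D hD => cn_le (fun A hA => hD A ?_) x)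
  exact Finset.mem_union_left _ hA

theorem cn_right {F G : Finset (Finset E)} (hF : ∅ ∉ F) (hG : ∅ ∉ G) (x : E → ℕ) :
    cn G x ≤ cn (F ∪ G) x := by
  refine le_cn (not_mem_union hF hG) (fun D hD => cn_le (fun A hA => hD A ?_) x)
  exact Finset.mem_union_right _ hA

theorem wt_tot {F : Finset (Finset E)} {D : Finset E} (hD : Cov F D) (P : Multiset (Finset E))
    (hP : ∀ A ∈ P, A ∈ F) : Multiset.card P ≤ wt (tot P) D := by
  induction P using Multiset.induction_on with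
  | empty => simp
  | cons A P ih =>
    have h1 : tot (A ::ₘ P) = tot P + ind A := by
      funext e
      rw [tot_cons]
      rfl
    rw [h1, wt_add, wt_ind, Multiset.card_cons]
    have h2 := ih (fun B hB => hP B (Multiset.mem_cons_of_mem hB))
    have h3 : 0 < (A ∩ D).card := Finset.card_pos.mpr (hD A (hP A (Multiset.mem_cons_self A P)))
    omega

theorem card_le_cn {F : Finset (Finset E)} (h : ∅ ∉ F) (P : Multiset (Finset E))
    (hP : ∀ A ∈ P, A ∈ F) {x : E → ℕ} (hx : ∀ e, tot P e ≤ x e) : Multiset.card P ≤ cn F x :=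
  le_cn h (fun D hD => (wt_tot hD P hP).trans (wt_mono hx D))

theorem cn_ind {F : Finset (Finset E)} (h : ∅ ∉ F) {A : Finset E} (hA : A ∈ F) :
    1 ≤ cn F (ind A) := by
  have := card_le_cn h {A} (by intro B hB; rw [Multiset.mem_singleton] at hB; rw [hB]; exact hA)
    (x := ind A) (by
      intro e
      have h1 := tot_cons A 0 e
      rw [tot_zero] at h1
      rw [← Multiset.cons_zero A, h1]
      omega)
  simpa using this

/-- `P` members of `𝒜`, `Q` members of `ℬ`, packed in `x`. -/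
structure IsPk (𝒜 ℬ : Finset (Finset E)) (P Q : Multiset (Finset E)) (x : E → ℕ) : Prop where
  hP : ∀ A ∈ P, A ∈ 𝒜
  hQ : ∀ A ∈ Q, A ∈ ℬ
  hx : ∀ e, tot P e + tot Q e ≤ x e

/-- `a` members of `𝒜` and `b` members of `ℬ` can be packed in `x`. -/
def S (𝒜 ℬ : Finset (Finset E)) (a b : ℕ) (x : E → ℕ) : Prop :=
  ∃ P Q, IsPk 𝒜 ℬ P Q x ∧ Multiset.card P = a ∧ Multiset.card Q = b

variable {𝒜 ℬ : Finset (Finset E)}

theorem IsPk.symm {P Q : Multiset (Finset E)} {x : E → ℕ} (h : IsPk 𝒜 ℬ P Q x) :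
    IsPk ℬ 𝒜 Q P x :=
  ⟨h.hQ, h.hP, fun e => by rw [Nat.add_comm]; exact h.hx e⟩

theorem S.symm {a b : ℕ} {x : E → ℕ} (h : S 𝒜 ℬ a b x) : S ℬ 𝒜 b a x := by
  obtain ⟨P, Q, h, h1, h2⟩ := h
  exact ⟨Q, P, h.symm, h2, h1⟩

theorem IsPk.mono {P Q : Multiset (Finset E)} {x y : E → ℕ} (h : IsPk 𝒜 ℬ P Q x) (hxy : x ≤ y) :
    IsPk 𝒜 ℬ P Q y := ⟨h.hP, h.hQ, fun e => (h.hx e).trans (hxy e)⟩

theorem S.mono {a b : ℕ} {x y : E → ℕ} (h : S 𝒜 ℬ a b x) (hxy : x ≤ y) : S 𝒜 ℬ a b y := by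
  obtain ⟨P, Q, h, h1, h2⟩ := h
  exact ⟨P, Q, h.mono hxy, h1, h2⟩

theorem IsPk.add {P Q P' Q' : Multiset (Finset E)} {x y : E → ℕ} (h : IsPk 𝒜 ℬ P Q x)
    (h' : IsPk 𝒜 ℬ P' Q' y) : IsPk 𝒜 ℬ (P + P') (Q + Q') (x + y) := by
  refine ⟨?_, ?_, ?_⟩
  · intro A hA
    rcases Multiset.mem_add.mp hA with h1 | h1
    · exact h.hP A h1
    · exact h'.hP A h1
  · intro A hA
    rcases Multiset.mem_add.mp hA with h1 | h1
    · exact h.hQ A h1
    · exact h'.hQ A h1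
  · intro e
    rw [tot_add, tot_add]
    have := h.hx e
    have := h'.hx e
    simp only [Pi.add_apply]
    omega

theorem S.add {a b a' b' : ℕ} {x y : E → ℕ} (h : S 𝒜 ℬ a b x) (h' : S 𝒜 ℬ a' b' y) :
    S 𝒜 ℬ (a + a') (b + b') (x + y) := by
  obtain ⟨P, Q, h, h1, h2⟩ := h
  obtain ⟨P', Q', h', h1', h2'⟩ := h'
  exact ⟨P + P', Q + Q', h.add h', by rw [Multiset.card_add, h1, h1'],
    by rw [Multiset.card_add, h2, h2']⟩

theorem S_ind_left {A : Finset E} (hA : A ∈ 𝒜) : S 𝒜 ℬ 1 0 (ind A) := by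
  refine ⟨{A}, 0, ⟨?_, ?_, ?_⟩, by simp, by simp⟩
  · intro B hB
    rw [Multiset.mem_singleton] at hB
    rw [hB]
    exact hA
  · intro B hB
    exact absurd hB (Multiset.notMem_zero B)
  · intro e
    have h1 := tot_cons A 0 e
    rw [tot_zero] at h1
    rw [← Multiset.cons_zero A, h1, tot_zero]
    omega

theorem S_ind_right {A : Finset E} (hA : A ∈ ℬ) : S 𝒜 ℬ 0 1 (ind A) := (S_ind_left hA).symm

theorem IsPk.left_le (hA : ∅ ∉ 𝒜) {P Q : Multiset (Finset E)} {x : E → ℕ}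
    (h : IsPk 𝒜 ℬ P Q x) : Multiset.card P ≤ cn 𝒜 x :=
  card_le_cn hA P h.hP (fun e => (Nat.le_add_right _ _).trans (h.hx e))

theorem IsPk.right_le (hB : ∅ ∉ ℬ) {P Q : Multiset (Finset E)} {x : E → ℕ}
    (h : IsPk 𝒜 ℬ P Q x) : Multiset.card Q ≤ cn ℬ x := h.symm.left_le hB

theorem IsPk.sum_le (hA : ∅ ∉ 𝒜) (hB : ∅ ∉ ℬ) {P Q : Multiset (Finset E)} {x : E → ℕ}
    (h : IsPk 𝒜 ℬ P Q x) : Multiset.card P + Multiset.card Q ≤ cn (𝒜 ∪ ℬ) x := by
  rw [← Multiset.card_add]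
  refine card_le_cn (not_mem_union hA hB) (P + Q) ?_ ?_
  · intro A hA
    rcases Multiset.mem_add.mp hA with h1 | h1
    · exact Finset.mem_union_left _ (h.hP A h1)
    · exact Finset.mem_union_right _ (h.hQ A h1)
  · intro e
    rw [tot_add]
    exact h.hx e

theorem S.left_le (hA : ∅ ∉ 𝒜) {a b : ℕ} {x : E → ℕ} (h : S 𝒜 ℬ a b x) : a ≤ cn 𝒜 x := by
  obtain ⟨P, Q, h, rfl, rfl⟩ := h
  exact h.left_le hA

theorem S.right_le (hB : ∅ ∉ ℬ) {a b : ℕ} {x : E → ℕ} (h : S 𝒜 ℬ a b x) : b ≤ cn ℬ x := by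
  obtain ⟨P, Q, h, rfl, rfl⟩ := h
  exact h.right_le hB

theorem S.sum_le (hA : ∅ ∉ 𝒜) (hB : ∅ ∉ ℬ) {a b : ℕ} {x : E → ℕ} (h : S 𝒜 ℬ a b x) :
    a + b ≤ cn (𝒜 ∪ ℬ) x := by
  obtain ⟨P, Q, h, rfl, rfl⟩ := h
  exact h.sum_le hA hB

/-- Remove an `𝒜` member from a packing. -/
theorem IsPk.erase_left {A : Finset E} {P Q : Multiset (Finset E)} {x : E → ℕ}
    (h : IsPk 𝒜 ℬ (A ::ₘ P) Q x) : ∃ r, r + ind A = x ∧ IsPk 𝒜 ℬ P Q r := by
  have hle : ∀ e, ind A e ≤ x e := by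
    intro e
    have := h.hx e
    rw [tot_cons] at this
    omega
  refine ⟨fun e => x e - ind A e, ?_, ⟨?_, h.hQ, ?_⟩⟩
  · funext e
    have := hle e
    simp only [Pi.add_apply]
    omega
  · intro B hB
    exact h.hP B (Multiset.mem_cons_of_mem hB)
  · intro e
    have := h.hx e
    rw [tot_cons] at this
    show tot P e + tot Q e ≤ x e - ind A e
    omega

theorem IsPk.erase_right {A : Finset E} {P Q : Multiset (Finset E)} {x : E → ℕ}
    (h : IsPk 𝒜 ℬ P (A ::ₘ Q) x) : ∃ r, r + ind A = x ∧ IsPk 𝒜 ℬ P Q r := by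
  obtain ⟨r, h1, h2⟩ := h.symm.erase_left
  exact ⟨r, h1, h2.symm⟩

end Pool.Agent.MFM
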