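import Pool.Agent.MFM.LemX

namespace Pool.Agent.MFM

open Finset

set_option linter.unusedSectionVars false

variable {E : Type*} [DecidableEq E] [Fintype E]

/-- `M` is a member of a packing of size `p + q` with more than `p` members of `𝒜`. -/
def High (𝒜 ℬ : Finset (Finset E)) (w : E → ℕ) (p q : ℕ) (M : Finset E) : Prop :=
  ∃ P Q, IsPk 𝒜 ℬ P Q w ∧ Multiset.card P + Multiset.card Q = p + q ∧ p < Multiset.card P ∧
    (M ∈ P ∨ M ∈ Q)

/-- `M` is a member of a packing of size `p + q` with less than `p` members of `𝒜`. -/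
def Low (𝒜 ℬ : Finset (Finset E)) (w : E → ℕ) (p q : ℕ) (M : Finset E) : Prop :=
  ∃ P Q, IsPk 𝒜 ℬ P Q w ∧ Multiset.card P + Multiset.card Q = p + q ∧ Multiset.card P < p ∧
    (M ∈ P ∨ M ∈ Q)

variable {𝒜 ℬ : Finset (Finset E)} {w : E → ℕ} {p q : ℕ} {M N : Finset E}

theorem High.symm (h : High 𝒜 ℬ w p q M) : Low ℬ 𝒜 w q p M := by
  obtain ⟨P, Q, h1, h2, h3, h4⟩ := h
  exact ⟨Q, P, h1.symm, by omega, by omega, h4.symm⟩

theorem Low.symm (h : Low 𝒜 ℬ w p q M) : High ℬ 𝒜 w q p M := by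
  obtain ⟨P, Q, h1, h2, h3, h4⟩ := h
  exact ⟨Q, P, h1.symm, by omega, by omega, h4.symm⟩

theorem MinViol.p_pos (h : MinViol 𝒜 ℬ w p q) : 0 < p := by
  obtain ⟨i, j, h1, h2, h3⟩ := h.low
  omega

theorem MinViol.q_pos (h : MinViol 𝒜 ℬ w p q) : 0 < q := h.symm.p_pos

theorem mem_nonempty (hA : ∅ ∉ 𝒜) (hB : ∅ ∉ ℬ) (hM : M ∈ 𝒜 ∪ ℬ) : M.Nonempty := by
  rw [Finset.nonempty_iff_ne_empty]
  rintro rfl
  exact not_mem_union hA hB hM

/-- Remove one member from a packing of size `p + q`. -/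
theorem MinViol.remove (h : MinViol 𝒜 ℬ w p q) {P Q : Multiset (Finset E)}
    (hpk : IsPk 𝒜 ℬ P Q w) (hc : Multiset.card P + Multiset.card Q = p + q)
    (hM : M ∈ P ∨ M ∈ Q) :
    M ∈ 𝒜 ∪ ℬ ∧ ∃ r, r + ind M = w ∧ r ≠ w ∧ ind M ≠ w ∧ cn (𝒜 ∪ ℬ) r + 1 = p + q ∧
      cn (𝒜 ∪ ℬ) (ind M) = 1 ∧ Multiset.card P ≤ cn 𝒜 (ind M) + cn 𝒜 r ∧
      Multiset.card Q ≤ cn ℬ (ind M) + cn ℬ r := by
  have hU := not_mem_union h.hA h.hB
  have hp := h.p_pos
  have hq := h.q_pos
  have hs := h.sum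
  rcases hM with hM | hM
  · obtain ⟨P', hP'⟩ := Multiset.exists_cons_of_mem hM
    rw [hP'] at hpk hc
    rw [Multiset.card_cons] at hc
    obtain ⟨r, hr, hk⟩ := hpk.erase_left
    have hMA : M ∈ 𝒜 := hpk.hP M (Multiset.mem_cons_self M P')
    have hMU : M ∈ 𝒜 ∪ ℬ := Finset.mem_union_left _ hMA
    have h1 := hk.sum_le h.hA h.hB
    have h2 := cn_ind hU hMU
    have h3 := cn_add hU r (ind M)
    rw [hr] at h3
    have hne : M.Nonempty := mem_nonempty h.hA h.hB hMU
    refine ⟨hMU, r, hr, ne_of_add_ind hne hr, ?_, by omega, by omega, ?_, ?_⟩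
    · intro h4
      have h5 : cn (𝒜 ∪ ℬ) (ind M) = 1 := by omega
      rw [h4] at h5
      omega
    · rw [hP', Multiset.card_cons]
      have := hk.left_le h.hA
      have := cn_ind h.hA hMA
      omega
    · have := hk.right_le h.hB
      omega
  · obtain ⟨Q', hQ'⟩ := Multiset.exists_cons_of_mem hM
    rw [hQ'] at hpk hc
    rw [Multiset.card_cons] at hc
    obtain ⟨r, hr, hk⟩ := hpk.erase_right
    have hMB : M ∈ ℬ := hpk.hQ M (Multiset.mem_cons_self M Q')
    have hMU : M ∈ 𝒜 ∪ ℬ := Finset.mem_union_right _ hMB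
    have h1 := hk.sum_le h.hA h.hB
    have h2 := cn_ind hU hMU
    have h3 := cn_add hU r (ind M)
    rw [hr] at h3
    have hne : M.Nonempty := mem_nonempty h.hA h.hB hMU
    refine ⟨hMU, r, hr, ne_of_add_ind hne hr, ?_, by omega, by omega, ?_, ?_⟩
    · intro h4
      have h5 : cn (𝒜 ∪ ℬ) (ind M) = 1 := by omega
      rw [h4] at h5
      omega
    · have := hk.left_le h.hA
      omega
    · rw [hQ', Multiset.card_cons]
      have := hk.right_le h.hB
      have := cn_ind h.hB hMB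
      omega

theorem MinViol.highSplit (h : MinViol 𝒜 ℬ w p q) (hM : High 𝒜 ℬ w p q M) :
    M ∈ 𝒜 ∪ ℬ ∧ ∃ r, r + ind M = w ∧ r ≠ w ∧ ind M ≠ w ∧ cn (𝒜 ∪ ℬ) r + 1 = p + q ∧
      cn (𝒜 ∪ ℬ) (ind M) = 1 ∧ p + 1 ≤ cn 𝒜 (ind M) + cn 𝒜 r ∧
      cn ℬ (ind M) + cn ℬ r + 1 ≤ q := by
  obtain ⟨P, Q, h1, h2, h3, h4⟩ := hM
  obtain ⟨hMU, r, hr, hrw, hMw, hg, hg1, hP, hQ⟩ := h.remove h1 h2 h4
  refine ⟨hMU, r, hr, hrw, hMw, hg, hg1, by omega, ?_⟩
  have := h.dich hr hrw hMw (by omega)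
  omega

theorem MinViol.lowSplit (h : MinViol 𝒜 ℬ w p q) (hM : Low 𝒜 ℬ w p q M) :
    M ∈ 𝒜 ∪ ℬ ∧ ∃ r, r + ind M = w ∧ r ≠ w ∧ ind M ≠ w ∧ cn (𝒜 ∪ ℬ) r + 1 = p + q ∧
      cn (𝒜 ∪ ℬ) (ind M) = 1 ∧ cn 𝒜 (ind M) + cn 𝒜 r + 1 ≤ p ∧
      q + 1 ≤ cn ℬ (ind M) + cn ℬ r := by
  obtain ⟨hMU, r, hr, hrw, hMw, hg, hg1, hP, hQ⟩ := h.symm.highSplit hM.symm
  rw [Finset.union_comm] at hMU hg hg1
  exact ⟨hMU, r, hr, hrw, hMw, by omega, hg1, hQ, hP⟩

theorem ind_le_of {M : Finset E} {x : E → ℕ} (h : ∀ f ∈ M, 0 < x f) : ind M ≤ x := by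
  intro f
  show (if f ∈ M then 1 else 0) ≤ x f
  split_ifs with hf
  · exact h f hf
  · exact Nat.zero_le _

theorem ind_apply_mem {M : Finset E} {f : E} (h : f ∈ M) : ind M f = 1 := by
  simp [ind, h]

theorem ind_apply_not_mem {M : Finset E} {f : E} (h : f ∉ M) : ind M f = 0 := by
  simp [ind, h]

/-- High and low members that meet differ in at least two elements on the high side. -/
theorem MinViol.cor1 (h : MinViol 𝒜 ℬ w p q) (h3 : 3 ≤ p + q)
    (hM : High 𝒜 ℬ w p q M) (hN : Low 𝒜 ℬ w p q N) (hMN : (M ∩ N).Nonempty) :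
    2 ≤ (M \ N).card := by
  obtain ⟨hMU, rM, hrM, hrMw, hMw, hgM, hgM1, hM1, hM2⟩ := h.highSplit hM
  obtain ⟨hNU, rN, hrN, hrNw, hNw, hgN, hgN1, hN1, hN2⟩ := h.lowSplit hN
  have hU := not_mem_union h.hA h.hB
  by_contra hcon
  have hwM : ∀ f ∈ M, 0 < w f := by
    intro f hf
    rw [← hrM]
    simp only [Pi.add_apply, ind_apply_mem hf]
    omega
  have hwN : ∀ f ∈ N, 0 < w f := by
    intro f hf
    rw [← hrN]
    simp only [Pi.add_apply, ind_apply_mem hf]
    omega
  -- `y0 = w - (M ∪ N)`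
  obtain ⟨y0, hy0⟩ : ∃ y0, y0 + ind (M ∪ N) = w := by
    refine ⟨fun f => w f - ind (M ∪ N) f, ?_⟩
    funext f
    show w f - ind (M ∪ N) f + ind (M ∪ N) f = w f
    have : ind (M ∪ N) f ≤ w f := ind_le_of (by
      intro g hg
      rcases Finset.mem_union.mp hg with h1 | h1
      · exact hwM g h1
      · exact hwN g h1) f
    omega
  have hcard : (M \ N).card = 0 ∨ (M \ N).card = 1 := by omega
  rcases hcard with hc0 | hc1
  · -- `M ⊆ N`
    rw [Finset.card_eq_zero, Finset.sdiff_eq_empty_iff_subset] at hc0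
    have h1 : cn (𝒜 ∪ ℬ) (rN + ind M) < p + q ∨ rN + ind M = w := by
      by_cases h2 : rN + ind M = w
      · exact Or.inr h2
      · left
        refine h.exact ?_ h2
        rw [← hrN]
        intro f
        simp only [Pi.add_apply]
        have : ind M f ≤ ind N f := by
          by_cases hf : f ∈ M
          · rw [ind_apply_mem hf, ind_apply_mem (hc0 hf)]
          · rw [ind_apply_not_mem hf]
            exact Nat.zero_le _
        omega
    have h2 := cn_add hU rN (ind M)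
    rcases h1 with h1 | h1
    · omega
    · have h4 : rN = rM := by
        funext f
        have h5 := congrFun h1 f
        have h6 := congrFun hrM f
        simp only [Pi.add_apply] at h5 h6
        omega
      have h5 : ind M = ind N := by
        funext f
        have h5 := congrFun h1 f
        have h6 := congrFun hrN f
        simp only [Pi.add_apply] at h5 h6
        omega
      rw [h4, ← h5] at hN1
      omega
  · obtain ⟨e, he⟩ := Finset.card_eq_one.mp hc1
    have heM : e ∈ M := by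
      have : e ∈ M \ N := by rw [he]; exact Finset.mem_singleton_self e
      exact (Finset.mem_sdiff.mp this).1
    have heN : e ∉ N := by
      have : e ∈ M \ N := by rw [he]; exact Finset.mem_singleton_self e
      exact (Finset.mem_sdiff.mp this).2
    have heq : ∀ f, f ∈ M → f ∉ N → f = e := by
      intro f hf hfN
      have : f ∈ M \ N := Finset.mem_sdiff.mpr ⟨hf, hfN⟩
      rw [he] at this
      exact Finset.mem_singleton.mp this
    have i1 : ind (M ∩ N) + ind {e} = ind M := by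
      funext f
      simp only [Pi.add_apply, ind, Finset.mem_inter, Finset.mem_singleton]
      by_cases h1 : f ∈ M
      · by_cases h2 : f ∈ N
        · have : f ≠ e := by rintro rfl; exact heN h2
          simp [h1, h2, this]
        · simp [heq f h1 h2, heN, heM]
      · have : f ≠ e := by rintro rfl; exact h1 heM
        simp [h1, this]
    have i2 : ind (M ∩ N) + ind (N \ M) = ind N := by
      funext f
      simp only [Pi.add_apply, ind, Finset.mem_inter, Finset.mem_sdiff]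
      by_cases h1 : f ∈ M <;> by_cases h2 : f ∈ N <;> simp [h1, h2]
    have i3 : y0 + ind (N \ M) = rM := by
      funext f
      have h1 := congrFun hy0 f
      have h2 := congrFun hrM f
      simp only [Pi.add_apply, ind, Finset.mem_union, Finset.mem_sdiff] at h1 h2 ⊢
      by_cases h4 : f ∈ M <;> by_cases h5 : f ∈ N <;> simp [h4, h5] at h1 h2 ⊢ <;> omega
    have i4 : y0 + ind {e} = rN := by
      funext f
      have h1 := congrFun hy0 f
      have h2 := congrFun hrN f
      simp only [Pi.add_apply, ind, Finset.mem_union, Finset.mem_singleton] at h1 h2 ⊢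
      by_cases h4 : f ∈ M
      · by_cases h5 : f ∈ N
        · have : f ≠ e := by rintro rfl; exact heN h5
          simp [h4, h5, this] at h1 h2 ⊢
          omega
        · have : f = e := heq f h4 h5
          subst this
          simp [h4, h5] at h1 h2 ⊢
          omega
      · have : f ≠ e := by rintro rfl; exact h4 heM
        by_cases h5 : f ∈ N <;> simp [h4, h5, this] at h1 h2 ⊢ <;> omega
    have hX := h.lemX (x0 := ind (M ∩ N)) (y0 := y0) (R := ind (N \ M)) (e := e)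
      (by rw [i1, i3, ← hrM, add_comm]) (by rw [i1]; exact hMw) (by rw [i3]; exact hrMw)
      (by rw [i2]; exact hNw) (by rw [i4]; exact hrNw) (by rw [i1, i3]; omega)
      (by rw [i2, i4]; omega) (by rw [i1, i2]; omega) (by rw [i1, i3]; omega)
      (by rw [i2, i4]; omega)
    rw [i1] at hX
    obtain ⟨-, -, -, -, hp1, -, -, hb0, -⟩ := hX
    have hp : p = 1 := by omega
    have hMA : M ∈ 𝒜 := by
      rcases Finset.mem_union.mp hMU with h1 | h1
      · exact h1
      · have := cn_ind h.hB h1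
        omega
    obtain ⟨P, Q, k1, k2, k3, k4⟩ := hN
    have hP0 : P = 0 := by
      rw [← Multiset.card_eq_zero]
      omega
    subst hP0
    have hNQ : N ∈ Q := by
      rcases k4 with k4 | k4
      · exact absurd k4 (Multiset.notMem_zero N)
      · exact k4
    rw [Multiset.card_zero] at k2
    have key : ∀ N' ∈ Q, ∃ f ∈ M, f ∈ N' ∧ w f = 1 := by
      intro N' hN'
      have hl : Low 𝒜 ℬ w p q N' := ⟨0, Q, k1, by rw [Multiset.card_zero]; exact k2,
        by rw [Multiset.card_zero]; omega, Or.inr hN'⟩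
      obtain ⟨-, r, hr, -, -, -, -, hr1, -⟩ := h.lowSplit hl
      by_contra hno
      push Not at hno
      have h1 : ind M ≤ r := by
        refine ind_le_of (fun f hf => ?_)
        by_contra h2
        have h3 := congrFun hr f
        have h4 := hwM f hf
        simp only [Pi.add_apply] at h3
        have h5 : r f = 0 := by omega
        by_cases h6 : f ∈ N'
        · rw [ind_apply_mem h6, h5] at h3
          exact hno f hf h6 (by omega)
        · rw [ind_apply_not_mem h6, h5] at h3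
          omega
      have h2 := cn_mono h.hA h1
      have h3 := cn_ind h.hA hMA
      omega
    obtain ⟨Q', hQ'⟩ := Multiset.exists_cons_of_mem hNQ
    subst hQ'
    rw [Multiset.card_cons] at k2
    have hQ1 : Q' ≠ 0 := by
      rintro rfl
      rw [Multiset.card_zero] at k2
      omega
    obtain ⟨N2, hN2⟩ := Multiset.exists_mem_of_ne_zero hQ1
    obtain ⟨Q'', hQ''⟩ := Multiset.exists_cons_of_mem hN2
    subst hQ''
    rw [Multiset.card_cons] at k2
    have hQ2 : Q'' ≠ 0 := by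
      rintro rfl
      rw [Multiset.card_zero] at k2
      omega
    obtain ⟨N3, hN3⟩ := Multiset.exists_mem_of_ne_zero hQ2
    obtain ⟨Q3, hQ3⟩ := Multiset.exists_cons_of_mem hN3
    subst hQ3
    obtain ⟨f2, hf2M, hf2N, hf2w⟩ := key N2 (by simp)
    obtain ⟨f3, hf3M, hf3N, hf3w⟩ := key N3 (by simp)
    have g2 := k1.hx f2
    have g3 := k1.hx f3
    simp only [tot_cons, tot_zero] at g2 g3
    rw [ind_apply_mem hf2N] at g2
    rw [ind_apply_mem hf3N] at g3
    have n2 : f2 ∉ N := by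
      intro h1
      rw [ind_apply_mem h1] at g2
      omega
    have n3 : f3 ∉ N := by
      intro h1
      rw [ind_apply_mem h1] at g3
      omega
    have e2 := heq f2 hf2M n2
    have e3 := heq f3 hf3M n3
    rw [e2, ← e3] at g2
    rw [ind_apply_mem hf3N] at g2
    rw [e3, ← e2] at g2
    omega

theorem MinViol.cor1' (h : MinViol 𝒜 ℬ w p q) (h3 : 3 ≤ p + q)
    (hM : High 𝒜 ℬ w p q M) (hN : Low 𝒜 ℬ w p q N) (hMN : (M ∩ N).Nonempty) :
    2 ≤ (N \ M).card := by
  refine h.symm.cor1 (by omega) hN.symm hM.symm ?_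
  rw [Finset.inter_comm]
  exact hMN

/-- Packings of size `p + q` are exact. -/
theorem MinViol.pk_exact (h : MinViol 𝒜 ℬ w p q) {P Q : Multiset (Finset E)}
    (hpk : IsPk 𝒜 ℬ P Q w) (hc : Multiset.card P + Multiset.card Q = p + q) (e : E) :
    tot P e + tot Q e = w e := by
  have h1 : (fun e => tot P e + tot Q e) = w := by
    by_contra h2
    have h3 := h.exact (x := fun e => tot P e + tot Q e) hpk.hx h2
    have h4 : IsPk 𝒜 ℬ P Q (fun e => tot P e + tot Q e) := ⟨hpk.hP, hpk.hQ, fun e => le_rfl⟩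
    have := h4.sum_le h.hA h.hB
    omega
  exact congrFun h1 e

theorem MinViol.exists_low (h : MinViol 𝒜 ℬ w p q) {e : E} (he : 0 < w e) :
    ∃ N, Low 𝒜 ℬ w p q N ∧ e ∈ N := by
  obtain ⟨i, j, h1, h2, P, Q, h3, h4, h5⟩ := h.low
  have h6 := h.pk_exact h3 (by omega) e
  have h7 : 0 < tot P e ∨ 0 < tot Q e := by omega
  rcases h7 with h7 | h7
  · obtain ⟨N, hN, heN⟩ := tot_pos h7
    exact ⟨N, ⟨P, Q, h3, by omega, by omega, Or.inl hN⟩, heN⟩
  · obtain ⟨N, hN, heN⟩ := tot_pos h7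
    exact ⟨N, ⟨P, Q, h3, by omega, by omega, Or.inr hN⟩, heN⟩

theorem MinViol.exists_high (h : MinViol 𝒜 ℬ w p q) {e : E} (he : 0 < w e) :
    ∃ N, High 𝒜 ℬ w p q N ∧ e ∈ N := by
  obtain ⟨N, hN, he⟩ := h.symm.exists_low he
  exact ⟨N, hN.symm, he⟩

theorem MinViol.card_high (h : MinViol 𝒜 ℬ w p q) (h3 : 3 ≤ p + q)
    (hM : High 𝒜 ℬ w p q M) : 3 ≤ M.card := by
  obtain ⟨hMU, rM, hrM, -⟩ := h.highSplit hM
  obtain ⟨e, he⟩ := mem_nonempty h.hA h.hB hMU
  have hwe : 0 < w e := by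
    rw [← hrM]
    simp only [Pi.add_apply, ind_apply_mem he]
    omega
  obtain ⟨N, hN, heN⟩ := h.exists_low hwe
  have h1 := h.cor1 h3 hM hN ⟨e, Finset.mem_inter.mpr ⟨he, heN⟩⟩
  have h2 := Finset.card_sdiff_add_card_inter M N
  have h4 : 0 < (M ∩ N).card := Finset.card_pos.mpr ⟨e, Finset.mem_inter.mpr ⟨he, heN⟩⟩
  omega

theorem MinViol.card_low (h : MinViol 𝒜 ℬ w p q) (h3 : 3 ≤ p + q)
    (hM : Low 𝒜 ℬ w p q M) : 3 ≤ M.card := h.symm.card_high (by omega) hM.symm

theorem sum_tot (P : Multiset (Finset E)) {k : ℕ} (h : ∀ A ∈ P, k ≤ A.card) :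
    k * Multiset.card P ≤ ∑ e, tot P e := by
  induction P using Multiset.induction_on with
  | empty => simp
  | cons A P ih =>
    have h1 : ∑ e, tot (A ::ₘ P) e = (∑ e, tot P e) + A.card := by
      simp only [tot_cons]
      rw [Finset.sum_add_distrib]
      congr 1
      simp [ind]
    rw [h1, Multiset.card_cons, Nat.mul_add, Nat.mul_one]
    have h2 := ih (fun B hB => h B (Multiset.mem_cons_of_mem hB))
    have h3 := h A (Multiset.mem_cons_self A P)
    omega

/-- Size bound. -/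
theorem MinViol.bound (h : MinViol 𝒜 ℬ w p q) (h3 : 3 ≤ p + q) :
    3 * (p + q) ≤ ∑ e, w e := by
  obtain ⟨i, j, h1, h2, P, Q, hk, h5, h6⟩ := h.high
  have a1 : ∀ A ∈ P, 3 ≤ A.card := fun A hA =>
    h.card_high h3 ⟨P, Q, hk, by omega, by omega, Or.inl hA⟩
  have a2 : ∀ A ∈ Q, 3 ≤ A.card := fun A hA =>
    h.card_high h3 ⟨P, Q, hk, by omega, by omega, Or.inr hA⟩
  have b1 := sum_tot P a1
  have b2 := sum_tot Q a2
  have b3 : ∑ e, w e = ∑ e, tot P e + ∑ e, tot Q e := by
    rw [← Finset.sum_add_distrib]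
    exact Finset.sum_congr rfl (fun e _ => (h.pk_exact hk (by omega) e).symm)
  rw [b3]
  omega

end Pool.Agent.MFM
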