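import Pool.Agent.MFM.Three

namespace Pool.Agent.MFM

open Finset

set_option linter.unusedSectionVars false

variable {E : Type*} [DecidableEq E] [Fintype E]
variable {𝒜 ℬ : Finset (Finset E)} {w : E → ℕ} {l h g : ℕ} {M N : Finset E}

theorem sum_filter (P : Multiset (Finset E)) (p : E → Prop) [DecidablePred p] :
    (P.map (fun M => (M.filter p).card)).sum = ∑ e, if p e then tot P e else 0 := by
  induction P using Multiset.induction_on with
  | empty => simp [tot_zero]
  | cons A P ih =>
    rw [Multiset.map_cons, Multiset.sum_cons, ih]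
    have h1 : ∑ e, (if p e then tot (A ::ₘ P) e else 0) =
        ∑ e, (if p e then ind A e else 0) + ∑ e, (if p e then tot P e else 0) := by
      rw [← Finset.sum_add_distrib]
      refine Finset.sum_congr rfl (fun e _ => ?_)
      rw [tot_cons]
      split_ifs <;> omega
    rw [h1]
    congr 1
    rw [Finset.card_filter]
    have h2 : ∑ e, (if p e then ind A e else 0) = ∑ e ∈ A, (if p e then 1 else 0) := by
      rw [← Finset.sum_filter_add_sum_filter_not Finset.univ (fun e => e ∈ A)]
      have h3 : ∑ x ∈ Finset.univ.filter (fun e => ¬ e ∈ A), (if p x then ind A x else 0) = 0 := by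
        refine Finset.sum_eq_zero (fun x hx => ?_)
        rw [Finset.mem_filter] at hx
        rw [ind_apply_not_mem hx.2]
        simp
      rw [h3, Nat.add_zero, Finset.filter_mem_eq_inter, Finset.univ_inter]
      refine Finset.sum_congr rfl (fun x hx => ?_)
      rw [ind_apply_mem hx]
    rw [h2]

theorem sum_map_const (P : Multiset (Finset E)) (f : Finset E → ℕ) (c : ℕ)
    (h : ∀ M ∈ P, f M = c) : (P.map f).sum = Multiset.card P * c := by
  rw [Multiset.map_congr rfl h, Multiset.map_const', Multiset.sum_replicate, smul_eq_mul]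

theorem sum_map_le (P : Multiset (Finset E)) (f : Finset E → ℕ) (c : ℕ)
    (h : ∀ M ∈ P, f M ≤ c) : (P.map f).sum ≤ Multiset.card P * c := by
  have := Multiset.sum_le_card_nsmul (P.map f) c (by
    intro x hx
    rw [Multiset.mem_map] at hx
    obtain ⟨M, hM, rfl⟩ := hx
    exact h M hM)
  rw [Multiset.card_map, smul_eq_mul] at this
  exact this

/-- Data of a low packing `(P,Q)` with `l` members of `𝒜` and a high packing `(P',Q')` with `h`
members of `𝒜`. -/
structure Two (𝒜 ℬ : Finset (Finset E)) (w : E → ℕ) (l h g : ℕ)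
    (P Q P' Q' : Multiset (Finset E)) : Prop where
  H : FullViol 𝒜 ℬ w l h g
  hs : ∀ M ∈ 𝒜 ∪ ℬ, M.card ≤ 3
  h4 : 4 ≤ g
  pk : IsPk 𝒜 ℬ P Q w
  cP : Multiset.card P = l
  cQ : Multiset.card Q = g - l
  pk' : IsPk 𝒜 ℬ P' Q' w
  cP' : Multiset.card P' = h
  cQ' : Multiset.card Q' = g - h

variable {P Q P' Q' : Multiset (Finset E)}

theorem Two.symm (T : Two 𝒜 ℬ w l h g P Q P' Q') :
    Two ℬ 𝒜 w (g - h) (g - l) g Q' P' Q P := by
  have h1 := T.H.lh
  have h2 := T.H.hle
  refine ⟨T.H.symm, ?_, T.h4, T.pk'.symm, T.cQ', ?_, T.pk.symm, T.cQ, ?_⟩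
  · rw [Finset.union_comm]
    exact T.hs
  · rw [T.cP']
    omega
  · rw [T.cP]
    omega

theorem Two.ex (T : Two 𝒜 ℬ w l h g P Q P' Q') (e : E) : tot P e + tot Q e = w e := by
  have h1 := T.H.lh
  have h2 := T.H.hle
  exact T.H.min.pk_exact T.pk (by rw [T.cP, T.cQ]; omega) e

theorem Two.ex' (T : Two 𝒜 ℬ w l h g P Q P' Q') (e : E) : tot P' e + tot Q' e = w e := by
  have h1 := T.H.lh
  have h2 := T.H.hle
  exact T.H.min.pk_exact T.pk' (by rw [T.cP', T.cQ']; omega) e

theorem Two.hm (T : Two 𝒜 ℬ w l h g P Q P' Q') (hM : M ∈ P' ∨ M ∈ Q') : HM 𝒜 ℬ w h g M := by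
  have h1 := T.H.lh
  have h2 := T.H.hle
  exact ⟨P', Q', T.pk', by rw [T.cP', T.cQ']; omega, by rw [T.cP'], hM⟩

theorem Two.lm (T : Two 𝒜 ℬ w l h g P Q P' Q') (hM : M ∈ P ∨ M ∈ Q) : LM 𝒜 ℬ w l g M := by
  have h1 := T.H.lh
  have h2 := T.H.hle
  exact ⟨P, Q, T.pk, by rw [T.cP, T.cQ]; omega, by rw [T.cP], hM⟩

/-- Structure of a member of `P'`. -/
theorem Two.yc (T : Two 𝒜 ℬ w l h g P Q P' Q') (hM : M ∈ P') :
    h = l + 2 ∧ ∃ e ∈ M, 0 < tot P e ∧ tot Q e = 0 ∧
      ∀ f ∈ M, f ≠ e → tot P f = 0 ∧ 0 < tot Q f := by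
  have h1 := T.H.lh
  have h2 := T.H.hle
  exact T.H.yc T.hs T.h4 (T.hm (Or.inl hM)) (T.pk'.hP M hM) T.pk T.cP
    (by rw [T.cP, T.cQ]; omega)

/-- Structure of a member of `Q`. -/
theorem Two.yc' (T : Two 𝒜 ℬ w l h g P Q P' Q') (hN : N ∈ Q) :
    ∃ e ∈ N, 0 < tot Q' e ∧ tot P' e = 0 ∧
      ∀ f ∈ N, f ≠ e → tot Q' f = 0 ∧ 0 < tot P' f :=
  (T.symm.yc hN).2

theorem Two.pure (T : Two 𝒜 ℬ w l h g P Q P' Q') {e : E} (he : 0 < tot P' e) :
    tot P e = 0 ∨ tot Q e = 0 := by
  obtain ⟨M, hM, heM⟩ := tot_pos he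
  obtain ⟨-, e0, -, h1, h2, h3⟩ := T.yc hM
  by_cases h4 : e = e0
  · right
    rw [h4]
    exact h2
  · left
    exact (h3 e heM h4).1

theorem Two.pure' (T : Two 𝒜 ℬ w l h g P Q P' Q') {e : E} (he : 0 < tot Q e) :
    tot P' e = 0 ∨ tot Q' e = 0 := (T.symm.pure he).symm

theorem Two.filter_card (T : Two 𝒜 ℬ w l h g P Q P' Q') (hM : M ∈ P') :
    (M.filter (fun e => tot P e = 0)).card = 2 ∧ (M.filter (fun e => 0 < tot P e)).card = 1 := by
  have h3 := T.H.card3H T.hs (by have := T.h4; omega) (T.hm (Or.inl hM))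
  obtain ⟨-, e0, he0, h1, h2, h4⟩ := T.yc hM
  have e1 : M.filter (fun e => tot P e = 0) = M.erase e0 := by
    ext x
    rw [Finset.mem_filter, Finset.mem_erase]
    constructor
    · rintro ⟨g1, g2⟩
      refine ⟨?_, g1⟩
      rintro rfl
      omega
    · rintro ⟨g1, g2⟩
      exact ⟨g2, (h4 x g2 g1).1⟩
  have e2 : M.filter (fun e => 0 < tot P e) = {e0} := by
    ext x
    rw [Finset.mem_filter, Finset.mem_singleton]
    constructor
    · rintro ⟨g1, g2⟩
      by_contra hne
      have := (h4 x g1 hne).1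
      omega
    · rintro rfl
      exact ⟨he0, h1⟩
  rw [e1, e2, Finset.card_erase_of_mem he0, h3, Finset.card_singleton]
  exact ⟨rfl, rfl⟩

/-- Double counting. -/
theorem Two.count (T : Two 𝒜 ℬ w l h g P Q P' Q') : h = l + 2 ∧ g = 2 * l + 2 := by
  have h1 := T.H.lh
  have h2 := T.H.hle
  have hP'ne : P' ≠ 0 := by
    intro h0
    have := T.cP'
    rw [h0, Multiset.card_zero] at this
    omega
  obtain ⟨M0, hM0⟩ := Multiset.exists_mem_of_ne_zero hP'ne
  have hh := (T.yc hM0).1
  refine ⟨hh, ?_⟩
  have s1 := sum_map_const P' (fun M => (M.filter (fun e => tot P e = 0)).card) 2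
    (fun M hM => (T.filter_card hM).1)
  have s2 := sum_map_const Q (fun N => (N.filter (fun e => tot Q' e = 0)).card) 2
    (fun N hN => (T.symm.filter_card hN).1)
  rw [sum_filter] at s1 s2
  have s3 : ∑ e, (if tot P e = 0 then tot P' e else 0) =
      ∑ e, (if tot Q' e = 0 then tot Q e else 0) := by
    refine Finset.sum_congr rfl (fun e _ => ?_)
    have a1 := T.ex e
    have a2 := T.ex' e
    have a3 := T.pure (e := e)
    have a4 := T.pure' (e := e)
    split_ifs <;> omega
  rw [s3, s2, T.cQ, T.cP'] at s1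
  omega

theorem Two.no_six (T : Two 𝒜 ℬ w l h g P Q P' Q') : g = 4 := by
  obtain ⟨hh, hg⟩ := T.count
  have h1 := T.H.lh
  have h2 := T.H.hle
  have h4 := T.h4
  by_contra hne
  have h6 : 6 ≤ g := by omega
  have h3 : 3 ≤ g := by omega
  -- each member of `P` has at most one element of `P'`-type
  have claim : ∀ N ∈ P, (N.filter (fun e => 0 < tot P' e)).card ≤ 1 := by
    intro N hN
    rw [Finset.card_le_one]
    intro e he e' he'
    rw [Finset.mem_filter] at he he'
    by_contra hee
    obtain ⟨M, hM, heM⟩ := tot_pos he.2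
    obtain ⟨M', hM', heM'⟩ := tot_pos he'.2
    have hNL := T.lm (Or.inl hN)
    have hMH := T.hm (Or.inl hM)
    have hMH' := T.hm (Or.inl hM')
    have hMM' : M' ≠ M := by
      rintro rfl
      exact hee (T.H.inter_eq T.hs h3 hMH hNL heM he.1 heM' he'.1)
    have heM'2 : e ∉ M' := fun h5 => hee (T.H.inter_eq T.hs h3 hMH' hNL h5 he.1 heM' he'.1)
    have heM2 : e' ∉ M := fun h5 => hee (T.H.inter_eq T.hs h3 hMH hNL heM he.1 h5 he'.1)
    obtain ⟨P1, hP1⟩ := Multiset.exists_cons_of_mem hM
    have hM'1 : M' ∈ P1 := by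
      rw [hP1, Multiset.mem_cons] at hM'
      rcases hM' with h5 | h5
      · exact absurd h5 hMM'
      · exact h5
    obtain ⟨P2, hP2⟩ := Multiset.exists_cons_of_mem hM'1
    have htot : ∀ x, ind M x + ind M' x ≤ tot P' x := by
      intro x
      rw [hP1, hP2, tot_cons, tot_cons]
      omega
    have ptP : 0 < tot P e := tot_pos_of hN he.1
    have ptP' : 0 < tot P e' := tot_pos_of hN he'.1
    -- the structure of `M`, `M'`
    obtain ⟨-, e1, he1, p1, p2, p3⟩ := T.yc hM
    obtain ⟨-, e2, he2, q1, q2, q3⟩ := T.yc hM'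
    have ee1 : e = e1 := by
      by_contra h5
      have := (p3 e heM h5).1
      omega
    have ee2 : e' = e2 := by
      by_contra h5
      have := (q3 e' heM' h5).1
      omega
    subst ee1
    subst ee2
    have cM := T.H.card3H T.hs h3 hMH
    have cM' := T.H.card3H T.hs h3 hMH'
    obtain ⟨Q1, Q2, k1, k2, k3⟩ := demand 4
      (fun x => ind (M.erase e) x + ind (M'.erase e') x) Q (by
        rw [Finset.sum_add_distrib, sum_ind, sum_ind, Finset.card_erase_of_mem heM,
          Finset.card_erase_of_mem heM', cM, cM']) (by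
      intro x
      show ind (M.erase e) x + ind (M'.erase e') x ≤ tot Q x
      have a1 := T.ex x
      have a2 := T.ex' x
      have a3 := htot x
      by_cases hx : x ∈ M.erase e ∨ x ∈ M'.erase e'
      · have a4 : tot P x = 0 := by
          rcases hx with hx | hx
          · rw [Finset.mem_erase] at hx
            exact (p3 x hx.2 hx.1).1
          · rw [Finset.mem_erase] at hx
            exact (q3 x hx.2 hx.1).1
        have a5 : ind (M.erase e) x ≤ ind M x := by
          unfold ind
          by_cases h7 : x ∈ M.erase e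
          · rw [if_pos h7, if_pos (Finset.mem_of_mem_erase h7)]
          · rw [if_neg h7]
            exact Nat.zero_le _
        have a6 : ind (M'.erase e') x ≤ ind M' x := by
          unfold ind
          by_cases h7 : x ∈ M'.erase e'
          · rw [if_pos h7, if_pos (Finset.mem_of_mem_erase h7)]
          · rw [if_neg h7]
            exact Nat.zero_le _
        omega
      · push Not at hx
        rw [ind_apply_not_mem hx.1, ind_apply_not_mem hx.2]
        exact Nat.zero_le _)
    obtain ⟨P3, hP3⟩ := Multiset.exists_cons_of_mem hN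
    have hsub := T.H.sub_low (P1 := {N}) (P2 := P3) (Q1 := Q1) (Q2 := Q2)
      (x := fun x => ind M x + ind M' x) (by
        rw [k1, Multiset.singleton_add, ← hP3]
        exact T.pk) (by
        rw [k1, Multiset.singleton_add, ← hP3, T.cP, T.cQ]
        omega) (by
        rw [Multiset.singleton_add, ← hP3]
        exact T.cP) (by
        have a1 := T.cQ
        rw [← k1, Multiset.card_add] at a1
        have a2 := T.cP
        rw [hP3, Multiset.card_cons] at a2
        omega) (by
        intro x
        have b0 : tot {N} x = ind N x := by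
          rw [← Multiset.cons_zero N, tot_cons, tot_zero, Nat.zero_add]
        rw [b0]
        have b1 : ind (M.erase e) x + ind (M'.erase e') x ≤ tot Q1 x := k3 x
        show ind M x + ind M' x ≤ ind N x + tot Q1 x
        by_cases hx : x = e
        · rw [hx, ind_apply_mem heM, ind_apply_not_mem heM'2, ind_apply_mem he.1]
          omega
        · by_cases hx' : x = e'
          · rw [hx', ind_apply_mem heM', ind_apply_not_mem heM2, ind_apply_mem he'.1]
            omega
          · have b2 : ind (M.erase e) x = ind M x := by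
              unfold ind
              simp [Finset.mem_erase, hx]
            have b3 : ind (M'.erase e') x = ind M' x := by
              unfold ind
              simp [Finset.mem_erase, hx']
            rw [b2, b3] at b1
            omega)
    have h2le := card_le_cn T.H.hA {M, M'} (by
      intro A hA
      rw [Multiset.insert_eq_cons, Multiset.mem_cons, Multiset.mem_singleton] at hA
      rcases hA with rfl | rfl
      · exact T.pk'.hP A hM
      · exact T.pk'.hP A hM') (x := fun x => ind M x + ind M' x) (by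
      intro x
      rw [Multiset.insert_eq_cons, tot_cons, ← Multiset.cons_zero M', tot_cons, tot_zero]
      show 0 + ind M' x + ind M x ≤ ind M x + ind M' x
      omega)
    rw [Multiset.card_singleton] at hsub
    rw [Multiset.insert_eq_cons, Multiset.card_cons, Multiset.card_singleton] at h2le
    omega
  have s1 := sum_map_const P' (fun M => (M.filter (fun e => 0 < tot P e)).card) 1
    (fun M hM => (T.filter_card hM).2)
  have s2 := sum_map_le P (fun N => (N.filter (fun e => 0 < tot P' e)).card) 1 claim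
  rw [sum_filter] at s1 s2
  have s3 : ∑ e, (if 0 < tot P e then tot P' e else 0) ≤
      ∑ e, (if 0 < tot P' e then tot P e else 0) := by
    refine Finset.sum_le_sum (fun e _ => ?_)
    have a1 := T.ex e
    have a2 := T.ex' e
    have a3 := T.pure (e := e)
    split_ifs <;> omega
  rw [T.cP'] at s1
  rw [T.cP] at s2
  omega

end Pool.Agent.MFM
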