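import Pool.Agent.MFM.Basic

/-!
Clutters over a finite type `E`, covers, packings, the two optimal values, minors, the
max-flow min-cut property.
-/

namespace Pool.Agent.MFM

open Finset

variable {E : Type*} [DecidableEq E] [Fintype E]

/-- No member contains another one. -/
def IsClutter (C : Finset (Finset E)) : Prop := ∀ A ∈ C, ∀ B ∈ C, A ⊆ B → A = B

/-- `B` meets every member of `C`. -/
def IsCover (C : Finset (Finset E)) (B : Finset E) : Prop := ∀ A ∈ C, (A ∩ B).Nonempty

/-- Minimum weight of a cover (`⊤` if there is no cover). -/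
noncomputable def tau (C : Finset (Finset E)) (w : E → ℕ) : ℕ∞ :=
  ⨅ (B : Finset E) (_ : IsCover C B), ((∑ e ∈ B, w e : ℕ) : ℕ∞)

/-- `P` is a list of members of `C`, repetitions allowed, such that every `e` lies in at most
`w e` of them. -/
def IsPacking (C : Finset (Finset E)) (w : E → ℕ) (P : Multiset (Finset E)) : Prop :=
  (∀ A ∈ P, A ∈ C) ∧ ∀ e, P.countP (fun A => e ∈ A) ≤ w e

/-- Maximum size of a packing (`⊤` if there are arbitrarily large ones). -/
noncomputable def nu (C : Finset (Finset E)) (w : E → ℕ) : ℕ∞ :=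
  ⨆ (P : Multiset (Finset E)) (_ : IsPacking C w P), (Multiset.card P : ℕ∞)

/-- The max-flow min-cut property. -/
def MFMC (C : Finset (Finset E)) : Prop := ∀ w : E → ℕ, tau C w = nu C w

/-- The sets `A \ J` with `A ∈ C` disjoint from `I`. -/
def minorSets (C : Finset (Finset E)) (I J : Finset E) : Finset (Finset E) :=
  (C.filter (fun A => A ∩ I = ∅)).image (fun A => A \ J)

/-- The minor `C \ I / J`: the inclusion-minimal sets of `minorSets C I J`. -/
def minor (C : Finset (Finset E)) (I J : Finset E) : Finset (Finset E) :=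
  (minorSets C I J).filter (fun A => ∀ B ∈ minorSets C I J, B ⊆ A → B = A)

/-- `C` is not MFMC but all its proper minors are. -/
def MinNonMFMC (C : Finset (Finset E)) : Prop :=
  ¬ MFMC C ∧ ∀ I J : Finset E, Disjoint I J → (I ∪ J).Nonempty → MFMC (minor C I J)

end Pool.Agent.MFM
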