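import Pool.Agent.MFM.Four

namespace Pool.Agent.MFM

open Finset

set_option linter.unusedSectionVars false

variable {E : Type*} [DecidableEq E] [Fintype E]
variable {𝒜 ℬ : Finset (Finset E)} {w : E → ℕ} {l h g : ℕ} {M N : Finset E}
variable {P Q P' Q' : Multiset (Finset E)}

/-- Every `ℬ`-member meets every high member in an element of weight one (`g = 3`, `h = 3`). -/
theorem meetB (H : FullViol 𝒜 ℬ w l 3 3) (hM : HM 𝒜 ℬ w 3 3 M) {B : Finset E} (hB : B ∈ ℬ)
    (hBw : ∀ x ∈ B, 0 < w x) : ∃ x ∈ B, x ∈ M ∧ w x = 1 := by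
  obtain ⟨-, r, hr, -, -, -, -, -, hb⟩ := H.hSplit hM
  by_contra hno
  push Not at hno
  have h1 : ind B ≤ r := ind_le_sub hr hBw (fun x hx hxM => by
    have := hno x hx hxM
    have := hBw x hx
    omega)
  have h2 := (cn_ind H.hB hB).trans (cn_mono H.hB h1)
  omega

/-- Every `𝒜`-member meets a low member `N` with `cn 𝒜 (w - N) = 0`. -/
theorem meetA {r : E → ℕ} (hA : ∅ ∉ 𝒜) (hr : r + ind N = w) (h0 : cn 𝒜 r = 0) {A : Finset E}
    (hAm : A ∈ 𝒜) (hAw : ∀ x ∈ A, 0 < w x) : ∃ x ∈ A, x ∈ N ∧ w x = 1 := by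
  by_contra hno
  push Not at hno
  have h1 : ind A ≤ r := ind_le_sub hr hAw (fun x hx hxM => by
    have := hno x hx hxM
    have := hAw x hx
    omega)
  have h2 := (cn_ind hA hAm).trans (cn_mono hA h1)
  omega

theorem g3_core (H : FullViol 𝒜 ℬ w l 3 3) (hs : ∀ M ∈ 𝒜 ∪ ℬ, M.card ≤ 3)
    (pk : IsPk 𝒜 ℬ P Q w) (cP : Multiset.card P = l) (cQ : Multiset.card Q = 3 - l)
    {M1 M2 M3 : Finset E} (h1 : HM 𝒜 ℬ w 3 3 M1) (h2 : HM 𝒜 ℬ w 3 3 M2)
    (h3 : HM 𝒜 ℬ w 3 3 M3) (a1 : M1 ∈ 𝒜) (a2 : M2 ∈ 𝒜)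
    (d12 : ∀ x ∈ M1, x ∉ M2) (d13 : ∀ x ∈ M1, x ∉ M3) (d23 : ∀ x ∈ M2, x ∉ M3)
    (hcov : ∀ x, 0 < w x → x ∈ M1 ∨ x ∈ M2 ∨ x ∈ M3)
    (hpos : ∀ x, x ∈ M1 ∨ x ∈ M2 ∨ x ∈ M3 → 0 < w x)
    (hN : N ∈ Q)
    (V1 : ∀ A ∈ 𝒜, (∀ x ∈ A, 0 < w x) → ∀ f2 ∈ M2, f2 ∈ N → A ⊆ M1 ∪ {f2} →
      (∃ f1 ∈ A, f1 ∈ M1 ∧ f1 ∈ N) → M1 ⊆ A)
    (V2 : ∀ A ∈ 𝒜, (∀ x ∈ A, 0 < w x) → A ⊆ M1 ∪ M2 → ∃ x ∈ A, x ∈ N) : False := by
  have hle := H.hle
  have hlh := H.lh
  have hNL : LM 𝒜 ℬ w l 3 N := ⟨P, Q, pk, by omega, by omega, Or.inr hN⟩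
  have hNB : N ∈ ℬ := pk.hQ N hN
  have hex : ∀ x, tot P x + tot Q x = w x := H.min.pk_exact pk (by omega)
  have wN : ∀ x ∈ N, 0 < w x := by
    intro x hx
    have := tot_pos_of hN hx
    have := hex x
    omega
  obtain ⟨f1, hf1N, hf1M, -⟩ := meetB H h1 hNB wN
  obtain ⟨f2, hf2N, hf2M, -⟩ := meetB H h2 hNB wN
  obtain ⟨d, hdN, hdM, -⟩ := meetB H h3 hNB wN
  have u1 : ∀ x ∈ M1, x ∈ N → x = f1 := fun x hx hxN =>
    H.inter_eq hs le_rfl h1 hNL hx hxN hf1M hf1N
  have u2 : ∀ x ∈ M2, x ∈ N → x = f2 := fun x hx hxN =>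
    H.inter_eq hs le_rfl h2 hNL hx hxN hf2M hf2N
  have u3 : ∀ x ∈ M3, x ∈ N → x = d := fun x hx hxN =>
    H.inter_eq hs le_rfl h3 hNL hx hxN hdM hdN
  have hNel : ∀ x ∈ N, x = f1 ∨ x = f2 ∨ x = d := by
    intro x hx
    rcases hcov x (wN x hx) with h5 | h5 | h5
    · exact Or.inl (u1 x h5 hx)
    · exact Or.inr (Or.inl (u2 x h5 hx))
    · exact Or.inr (Or.inr (u3 x h5 hx))
  -- an element of `M3` outside `N`
  obtain ⟨z, hzM, hzd⟩ : ∃ z ∈ M3, z ≠ d := by
    by_contra hno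
    push Not at hno
    have h5 : M3 ⊆ {d} := fun x hx => Finset.mem_singleton.mpr (hno x hx)
    have h6 := Finset.card_le_card h5
    rw [Finset.card_singleton, H.card3H hs le_rfl h3] at h6
    omega
  have hwV : ∀ x ∈ M1 ∪ M2 ∪ N, 0 < w x := by
    intro x hx
    rw [Finset.mem_union, Finset.mem_union] at hx
    rcases hx with (hx | hx) | hx
    · exact hpos x (Or.inl hx)
    · exact hpos x (Or.inr (Or.inl hx))
    · exact wN x hx
  refine H.min.lemV (M1 := M1) (M2 := M2) (N := N) (f1 := f1) (f2 := f2) (d := d) (z := z)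
    a1 hNB a2 hwV (hpos z (Or.inr (Or.inr hzM))) ?_ hf1N hf1M u1 hf2N hf2M d12
    (fun h5 => d23 d h5 hdM) hNel ?_ ?_ ?_
  · rw [Finset.mem_union, Finset.mem_union]
    rintro ((h5 | h5) | h5)
    · exact d13 z h5 hzM
    · exact d23 z h5 hzM
    · exact hzd (u3 z hzM h5)
  · intro A hA hAsub hf1A
    refine V1 A hA ?_ f2 hf2M hf2N hAsub ⟨f1, hf1A, hf1M, hf1N⟩
    intro x hx
    have h5 := hAsub hx
    rw [Finset.mem_union, Finset.mem_singleton] at h5
    rcases h5 with h5 | h5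
    · exact hpos x (Or.inl h5)
    · rw [h5]
      exact hpos f2 (Or.inr (Or.inl hf2M))
  · intro A hA hAsub hf1A
    obtain ⟨x, hx, hxN⟩ := V2 A hA (by
      intro x hx
      have h5 := hAsub hx
      rw [Finset.mem_union] at h5
      rcases h5 with h5 | h5
      · exact hpos x (Or.inl h5)
      · exact hpos x (Or.inr (Or.inl h5))) hAsub
    have h5 := hAsub hx
    rw [Finset.mem_union] at h5
    rcases h5 with h5 | h5
    · rw [u1 x h5 hxN] at hx
      exact absurd hx hf1A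
    · rw [u2 x h5 hxN] at hx
      exact hx
  · intro B hB hBsub
    have wB : ∀ x ∈ B, 0 < w x := fun x hx => hwV x (hBsub hx)
    obtain ⟨x1, hx1, hx1M, -⟩ := meetB H h1 hB wB
    obtain ⟨x2, hx2, hx2M, -⟩ := meetB H h2 hB wB
    obtain ⟨x3, hx3, hx3M, -⟩ := meetB H h3 hB wB
    refine ⟨⟨x1, hx1, hx1M⟩, ⟨x2, hx2, hx2M⟩, ?_⟩
    have h5 := hBsub hx3
    rw [Finset.mem_union, Finset.mem_union] at h5
    rcases h5 with (h5 | h5) | h5
    · exact absurd hx3M (d13 x3 h5)
    · exact absurd hx3M (d23 x3 h5)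
    · rw [u3 x3 hx3M h5] at hx3
      exact hx3

theorem g3_h3 (H : FullViol 𝒜 ℬ w l 3 3) (hs : ∀ M ∈ 𝒜 ∪ ℬ, M.card ≤ 3) : False := by
  have hle := H.hle
  have hlh := H.lh
  obtain ⟨P, Q, pk, cP, cQ⟩ := H.low
  obtain ⟨P', Q', pk', cP', cQ'⟩ := H.high
  have hQ'0 : Q' = 0 := by
    rw [← Multiset.card_eq_zero, cQ']
  subst hQ'0
  have hex : ∀ x, tot P x + tot Q x = w x := H.min.pk_exact pk (by omega)
  have hex' : ∀ x, tot P' x = w x := by
    intro x
    have := H.min.pk_exact pk' (by omega) x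
    rw [tot_zero] at this
    omega
  have hHM : ∀ M ∈ P', HM 𝒜 ℬ w 3 3 M := fun M hM =>
    ⟨P', 0, pk', by omega, by omega, Or.inl hM⟩
  have hLM : ∀ N, N ∈ P ∨ N ∈ Q → LM 𝒜 ℬ w l 3 N := fun N hN =>
    ⟨P, Q, pk, by omega, by omega, hN⟩
  have wP' : ∀ M ∈ P', ∀ x ∈ M, 0 < w x := by
    intro M hM x hx
    have := tot_pos_of hM hx
    have := hex' x
    omega
  have wQ : ∀ N ∈ Q, ∀ x ∈ N, 0 < w x := by
    intro N hN x hx
    have := tot_pos_of hN hx
    have := hex x
    omega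
  -- `𝒜`-members meet members of `P`
  have meetP : ∀ N ∈ P, ∀ A ∈ 𝒜, (∀ x ∈ A, 0 < w x) → ∃ x ∈ A, x ∈ N ∧ w x = 1 := by
    intro N hN A hA hAw
    obtain ⟨-, r, hr, -, -, -, -, ha, -⟩ := H.lSplit (hLM N (Or.inl hN))
    have h1 := cn_ind H.hA (pk.hP N hN)
    have hl1 : 0 < l := by
      rw [← cP]
      exact Multiset.card_pos.mpr (by
        rintro rfl
        exact absurd hN (Multiset.notMem_zero N))
    exact meetA H.hA hr (by omega) hA hAw
  -- every pair meets in an element of weight one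
  have meet : ∀ M ∈ P', ∀ N, (N ∈ P ∨ N ∈ Q) → ∃ x ∈ M, x ∈ N ∧ w x = 1 := by
    intro M hM N hN
    rcases hN with hN | hN
    · exact meetP N hN M (pk'.hP M hM) (wP' M hM)
    · obtain ⟨x, h1, h2, h3⟩ := meetB H (hHM M hM) (pk.hQ N hN) (wQ N hN)
      exact ⟨x, h2, h1, h3⟩
  obtain ⟨N1, N2, N3, hL⟩ := Multiset.card_eq_three.mp (show Multiset.card (P + Q) = 3 by
    rw [Multiset.card_add]
    omega)
  have hLmem : ∀ N, N ∈ P + Q → N ∈ P ∨ N ∈ Q := fun N hN => Multiset.mem_add.mp hN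
  have hN1 : N1 ∈ P + Q := by rw [hL]; simp
  have hN2 : N2 ∈ P + Q := by rw [hL]; simp
  have hN3 : N3 ∈ P + Q := by rw [hL]; simp
  have totL : ∀ x, ind N1 x + ind N2 x + ind N3 x = w x := by
    intro x
    have h1 := hex x
    rw [← tot_add, hL] at h1
    rw [Multiset.insert_eq_cons, Multiset.insert_eq_cons, tot_cons, tot_cons,
      ← Multiset.cons_zero N3, tot_cons, tot_zero] at h1
    omega
  have w1 : ∀ M ∈ P', ∀ x ∈ M, w x = 1 := by
    intro M hM
    obtain ⟨x1, m1, n1, o1⟩ := meet M hM N1 (hLmem N1 hN1)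
    obtain ⟨x2, m2, n2, o2⟩ := meet M hM N2 (hLmem N2 hN2)
    obtain ⟨x3, m3, n3, o3⟩ := meet M hM N3 (hLmem N3 hN3)
    have t1 := totL x1
    have t2 := totL x2
    have t3 := totL x3
    rw [ind_apply_mem n1] at t1
    rw [ind_apply_mem n2] at t2
    rw [ind_apply_mem n3] at t3
    have e12 : x1 ≠ x2 := by
      intro h5
      rw [← h5] at n2
      rw [ind_apply_mem n2] at t1
      omega
    have e13 : x1 ≠ x3 := by
      intro h5
      rw [← h5] at n3
      rw [ind_apply_mem n3] at t1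
      omega
    have e23 : x2 ≠ x3 := by
      intro h5
      rw [← h5] at n3
      rw [ind_apply_mem n3] at t2
      omega
    have h6 : ({x1, x2, x3} : Finset E) = M := by
      refine Finset.eq_of_subset_of_card_le ?_ ?_
      · intro y hy
        simp only [Finset.mem_insert, Finset.mem_singleton] at hy
        rcases hy with rfl | rfl | rfl
        · exact m1
        · exact m2
        · exact m3
      · rw [H.card3H hs le_rfl (hHM M hM), Finset.card_insert_of_notMem, Finset.card_pair e23]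
        simp only [Finset.mem_insert, Finset.mem_singleton]
        rintro (h7 | h7)
        · exact e12 h7
        · exact e13 h7
    intro x hx
    rw [← h6] at hx
    simp only [Finset.mem_insert, Finset.mem_singleton] at hx
    rcases hx with rfl | rfl | rfl
    · exact o1
    · exact o2
    · exact o3
  have wone : ∀ x, 0 < w x → w x = 1 := by
    intro x hx
    obtain ⟨M, hM, hxM⟩ := tot_pos (P := P') (e := x) (by rw [hex']; exact hx)
    exact w1 M hM x hxM
  obtain ⟨M1, M2, M3, hP'⟩ := Multiset.card_eq_three.mp cP'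
  have totM : ∀ x, ind M1 x + ind M2 x + ind M3 x = w x := by
    intro x
    have h1 := hex' x
    rw [hP', Multiset.insert_eq_cons, Multiset.insert_eq_cons, tot_cons, tot_cons,
      ← Multiset.cons_zero M3, tot_cons, tot_zero] at h1
    omega
  have hM1 : M1 ∈ P' := by rw [hP']; simp
  have hM2 : M2 ∈ P' := by rw [hP']; simp
  have hM3 : M3 ∈ P' := by rw [hP']; simp
  have D12 : ∀ x ∈ M1, x ∉ M2 := by
    intro x hx hx'
    have h5 := totM x
    rw [ind_apply_mem hx, ind_apply_mem hx', wone x (wP' M1 hM1 x hx)] at h5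
    omega
  have D13 : ∀ x ∈ M1, x ∉ M3 := by
    intro x hx hx'
    have h5 := totM x
    rw [ind_apply_mem hx, ind_apply_mem hx', wone x (wP' M1 hM1 x hx)] at h5
    omega
  have D23 : ∀ x ∈ M2, x ∉ M3 := by
    intro x hx hx'
    have h5 := totM x
    rw [ind_apply_mem hx, ind_apply_mem hx', wone x (wP' M2 hM2 x hx)] at h5
    omega
  have hcov : ∀ x, 0 < w x → x ∈ M1 ∨ x ∈ M2 ∨ x ∈ M3 := by
    intro x hx
    by_contra hno
    push Not at hno
    have h5 := totM x
    rw [ind_apply_not_mem hno.1, ind_apply_not_mem hno.2.1, ind_apply_not_mem hno.2.2] at h5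
    omega
  have hpos : ∀ x, x ∈ M1 ∨ x ∈ M2 ∨ x ∈ M3 → 0 < w x := by
    rintro x (hx | hx | hx)
    · exact wP' M1 hM1 x hx
    · exact wP' M2 hM2 x hx
    · exact wP' M3 hM3 x hx
  -- an element in two members of `P + Q`
  have uniq : ∀ (N N' : Finset E) (x : E), N ∈ P + Q → N' ∈ P + Q → x ∈ N → x ∈ N' → N = N' := by
    intro N N' x hN hN' hx hx'
    by_contra hne
    have hN2' := hN'
    obtain ⟨L1, hL1⟩ := Multiset.exists_cons_of_mem hN
    rw [hL1, Multiset.mem_cons] at hN2'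
    rcases hN2' with h5 | h5
    · exact hne h5.symm
    · have h6 := tot_pos_of h5 hx'
      have h7 := hex x
      rw [← tot_add, hL1, tot_cons, ind_apply_mem hx] at h7
      have := wone x (by omega)
      omega
  have inL : ∀ x, 0 < w x → ∃ N ∈ P + Q, x ∈ N := by
    intro x hx
    exact tot_pos (P := P + Q) (e := x) (by rw [tot_add, hex]; exact hx)
  have interU : ∀ M ∈ P', ∀ N ∈ P + Q, ∀ x y, x ∈ M → x ∈ N → y ∈ M → y ∈ N → x = y := by
    intro M hM N hN x y h5 h6 h7 h8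
    exact H.inter_eq hs le_rfl (hHM M hM) (hLM N (hLmem N hN)) h5 h6 h7 h8
  have hl2 : l = 0 ∨ l = 1 := by omega
  rcases hl2 with hl | hl
  · -- `l = 0`
    have hP0 : P = 0 := by
      rw [← Multiset.card_eq_zero]
      omega
    have hQne : Q ≠ 0 := by
      intro h0
      rw [h0, Multiset.card_zero] at cQ
      omega
    obtain ⟨N, hN⟩ := Multiset.exists_mem_of_ne_zero hQne
    have hNL : N ∈ P + Q := Multiset.mem_add.mpr (Or.inr hN)
    have meetQ : ∀ N ∈ Q, ∀ A ∈ 𝒜, (∀ x ∈ A, 0 < w x) → ∃ x ∈ A, x ∈ N ∧ w x = 1 := by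
      intro N hN A hA hAw
      obtain ⟨-, r, hr, -, -, -, -, ha, -⟩ := H.lSplit (hLM N (Or.inr hN))
      exact meetA H.hA hr (by omega) hA hAw
    refine g3_core H hs pk cP cQ (hHM M1 hM1) (hHM M2 hM2) (hHM M3 hM3) (pk'.hP M1 hM1)
      (pk'.hP M2 hM2) D12 D13 D23 hcov hpos hN ?_ ?_
    · rintro A hA hAw f2 hf2M hf2N hAsub ⟨f1, hf1A, hf1M, hf1N⟩ x hx
      obtain ⟨N', hN', hxN'⟩ := inL x (wP' M1 hM1 x hx)
      have hN'Q : N' ∈ Q := by
        rcases hLmem N' hN' with h5 | h5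
        · rw [hP0] at h5
          exact absurd h5 (Multiset.notMem_zero N')
        · exact h5
      obtain ⟨y, hyA, hyN', -⟩ := meetQ N' hN'Q A hA hAw
      have h5 := hAsub hyA
      rw [Finset.mem_union, Finset.mem_singleton] at h5
      rcases h5 with h5 | h5
      · rw [interU M1 hM1 N' hN' x y hx hxN' h5 hyN']
        exact hyA
      · rw [h5] at hyN'
        have h6 := uniq N' N f2 hN' hNL hyN' hf2N
        rw [h6] at hxN'
        rw [interU M1 hM1 N hNL x f1 hx hxN' hf1M hf1N]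
        exact hf1A
    · intro A hA hAw _
      obtain ⟨x, h5, h6, -⟩ := meetQ N hN A hA hAw
      exact ⟨x, h5, h6⟩
  · -- `l = 1`
    obtain ⟨X, hX⟩ := Multiset.card_eq_one.mp (show Multiset.card P = 1 by omega)
    obtain ⟨Y, Z, hYZ⟩ := Multiset.card_eq_two.mp (show Multiset.card Q = 2 by omega)
    have hXP : X ∈ P := by rw [hX]; simp
    have hYQ : Y ∈ Q := by rw [hYZ]; simp
    have hZQ : Z ∈ Q := by rw [hYZ]; simp
    have hXL : X ∈ P + Q := Multiset.mem_add.mpr (Or.inl hXP)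
    have hYL : Y ∈ P + Q := Multiset.mem_add.mpr (Or.inr hYQ)
    have hZL : Z ∈ P + Q := Multiset.mem_add.mpr (Or.inr hZQ)
    have memL : ∀ N ∈ P + Q, N = X ∨ N = Y ∨ N = Z := by
      intro N hN
      rw [hX, hYZ, Multiset.mem_add, Multiset.mem_singleton, Multiset.insert_eq_cons,
        Multiset.mem_cons, Multiset.mem_singleton] at hN
      exact hN
    have totXYZ : ∀ x, ind X x + ind Y x + ind Z x = w x := by
      intro x
      have h5 := hex x
      rw [hX, hYZ, Multiset.insert_eq_cons, tot_cons, ← Multiset.cons_zero Z, tot_cons, tot_zero,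
        ← Multiset.cons_zero X, tot_cons, tot_zero] at h5
      omega
    have common : ∀ N ∈ Q, ind X + ind N ≤ w → ∃ k ∈ X, ∀ A ∈ 𝒜, (∀ x ∈ A, 0 < w x) →
        (∀ x ∈ A, x ∉ N) → k ∈ A := by
      intro N hN hXN
      obtain ⟨-, r, hr, -, -, -, -, ha, -⟩ := H.lSplit (hLM N (Or.inr hN))
      have hXr : ind X ≤ r := by
        intro x
        show ind X x ≤ r x
        have h5 := congrFun hr x
        have h6 : ind X x + ind N x ≤ w x := hXN x
        simp only [Pi.add_apply] at h5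
        omega
      obtain ⟨k, hk⟩ := one_cover H.hA (x := r) (by omega) (pk.hP X hXP) hXr
      exact ⟨k, hk X (pk.hP X hXP) hXr, fun A hA h5 h6 => hk A hA
        (ind_le_sub hr h5 (fun x hx hxN => absurd hxN (h6 x hx)))⟩
    obtain ⟨qY, hqYX, hqY⟩ := common Y hYQ (by
      intro x
      show ind X x + ind Y x ≤ w x
      have := totXYZ x
      omega)
    obtain ⟨qZ, hqZX, hqZ⟩ := common Z hZQ (by
      intro x
      show ind X x + ind Z x ≤ w x
      have := totXYZ x
      omega)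
    have core : ∀ M1 M2 M3 : Finset E, M1 ∈ P' → M2 ∈ P' → M3 ∈ P' → (∀ x ∈ M1, x ∉ M2) →
        (∀ x ∈ M1, x ∉ M3) → (∀ x ∈ M2, x ∉ M3) →
        (∀ x, 0 < w x → x ∈ M1 ∨ x ∈ M2 ∨ x ∈ M3) →
        (∀ x, x ∈ M1 ∨ x ∈ M2 ∨ x ∈ M3 → 0 < w x) → qZ ∉ M1 → qZ ∉ M2 → qY ∉ M1 → False := by
      intro M1 M2 M3 hM1 hM2 hM3 D12 D13 D23 hcov hpos z1 z2 y1
      refine g3_core H hs pk cP cQ (hHM M1 hM1) (hHM M2 hM2) (hHM M3 hM3) (pk'.hP M1 hM1)
        (pk'.hP M2 hM2) D12 D13 D23 hcov hpos hZQ ?_ ?_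
      · rintro A hA hAw f2 hf2M hf2N hAsub ⟨f1, hf1A, hf1M, hf1N⟩ x hx
        have hf2X : f2 ∉ X := by
          intro h5
          have h6 := totXYZ f2
          rw [ind_apply_mem h5, ind_apply_mem hf2N, wone f2 (hpos f2 (Or.inr (Or.inl hf2M)))] at h6
          omega
        have hf2Y : f2 ∉ Y := by
          intro h5
          have h6 := totXYZ f2
          rw [ind_apply_mem h5, ind_apply_mem hf2N, wone f2 (hpos f2 (Or.inr (Or.inl hf2M)))] at h6
          omega
        obtain ⟨N', hN', hxN'⟩ := inL x (wP' M1 hM1 x hx)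
        rcases memL N' hN' with h5 | h5 | h5
        · rw [h5] at hxN'
          obtain ⟨y, hyA, hyX, -⟩ := meetP X hXP A hA hAw
          have h6 := hAsub hyA
          rw [Finset.mem_union, Finset.mem_singleton] at h6
          rcases h6 with h6 | h6
          · rw [interU M1 hM1 X hXL x y hx hxN' h6 hyX]
            exact hyA
          · rw [h6] at hyX
            exact absurd hyX hf2X
        · rw [h5] at hxN'
          by_contra hxA
          have h7 := hqY A hA hAw (by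
            intro y hy hyY
            have h6 := hAsub hy
            rw [Finset.mem_union, Finset.mem_singleton] at h6
            rcases h6 with h6 | h6
            · rw [interU M1 hM1 Y hYL x y hx hxN' h6 hyY] at hxA
              exact hxA hy
            · rw [h6] at hyY
              exact hf2Y hyY)
          have h6 := hAsub h7
          rw [Finset.mem_union, Finset.mem_singleton] at h6
          rcases h6 with h6 | h6
          · exact y1 h6
          · rw [← h6] at hf2X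
            exact hf2X hqYX
        · rw [h5] at hxN'
          rw [interU M1 hM1 Z hZL x f1 hx hxN' hf1M hf1N]
          exact hf1A
      · intro A hA hAw hAsub
        by_contra hno
        push Not at hno
        have h7 := hqZ A hA hAw hno
        have h6 := hAsub h7
        rw [Finset.mem_union] at h6
        rcases h6 with h6 | h6
        · exact z1 h6
        · exact z2 h6
    by_cases zc1 : qZ ∈ M1
    · by_cases yc1 : qY ∈ M2
      · refine core M3 M2 M1 hM3 hM2 hM1 (fun x hx hx' => D23 x hx' hx)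
          (fun x hx hx' => D13 x hx' hx) (fun x hx hx' => D12 x hx' hx)
          (fun x hx => by have := hcov x hx; tauto) (fun x hx => hpos x (by tauto))
          (D13 qZ zc1) (D12 qZ zc1) (D23 qY yc1)
      · refine core M2 M3 M1 hM2 hM3 hM1 D23 (fun x hx hx' => D12 x hx' hx)
          (fun x hx hx' => D13 x hx' hx)
          (fun x hx => by have := hcov x hx; tauto) (fun x hx => hpos x (by tauto))
          (D12 qZ zc1) (D13 qZ zc1) yc1
    · by_cases zc2 : qZ ∈ M2
      · by_cases yc1 : qY ∈ M1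
        · refine core M3 M1 M2 hM3 hM1 hM2 (fun x hx hx' => D13 x hx' hx)
            (fun x hx hx' => D23 x hx' hx) D12
            (fun x hx => by have := hcov x hx; tauto) (fun x hx => hpos x (by tauto))
            (D23 qZ zc2) zc1 (D13 qY yc1)
        · refine core M1 M3 M2 hM1 hM3 hM2 D13 D12 (fun x hx hx' => D23 x hx' hx)
            (fun x hx => by have := hcov x hx; tauto) (fun x hx => hpos x (by tauto))
            zc1 (D23 qZ zc2) yc1
      · by_cases yc1 : qY ∈ M1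
        · exact core M2 M1 M3 hM2 hM1 hM3 (fun x hx hx' => D12 x hx' hx) D23 D13
            (fun x hx => by have := hcov x hx; tauto) (fun x hx => hpos x (by tauto))
            zc2 zc1 (D12 qY yc1)
        · exact core M1 M2 M3 hM1 hM2 hM3 D12 D13 D23 hcov hpos zc1 zc2 yc1

theorem g3_false (H : FullViol 𝒜 ℬ w l h 3) (hs : ∀ M ∈ 𝒜 ∪ ℬ, M.card ≤ 3) : False := by
  have hle := H.hle
  have hlh := H.lh
  by_cases hh : h = 3
  · subst hh
    exact g3_h3 H hs
  · have h2 : h = 2 := by omega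
    have l0 : l = 0 := by omega
    subst h2
    subst l0
    exact g3_h3 (l := 1) H.symm (by rw [Finset.union_comm]; exact hs)

/-- No gap with `g ≥ 3` if all members have at most three elements. -/
theorem FullViol.false3 (H : FullViol 𝒜 ℬ w l h g) (hs : ∀ M ∈ 𝒜 ∪ ℬ, M.card ≤ 3)
    (h3 : 3 ≤ g) : False := by
  rcases Nat.lt_or_ge g 4 with h4 | h4
  · have : g = 3 := by omega
    subst this
    exact g3_false H hs
  · obtain ⟨P, Q, pk, cP, cQ⟩ := H.low
    obtain ⟨P', Q', pk', cP', cQ'⟩ := H.high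
    exact Two.false (⟨H, hs, h4, pk, cP, cQ, pk', cP', cQ'⟩ : Two 𝒜 ℬ w l h g P Q P' Q')

end Pool.Agent.MFM
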