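import Pool.Agent.MFM.Main
import Pool.Agent.MFM.G3

namespace Pool.Agent.MFM

open Finset

set_option linter.unusedSectionVars false

variable {E : Type*} [DecidableEq E] [Fintype E]
variable {C : Finset (Finset E)} {u v : E}

/-- A violation of the cover-number description at the weight `x`. -/
def Viol (C : Finset (Finset E)) (u v : E) (x : E → ℕ) (a b : ℕ) : Prop :=
  x u = 0 ∧ x v = 0 ∧ a ≤ cn (part C u) x ∧ b ≤ cn (part C v) x ∧
    a + b ≤ cn (part C u ∪ part C v) x ∧ ¬ S (part C u) (part C v) a b x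

theorem exists_Viol (hmin : MinNonMFMC C) (hpair : Pair C u v) :
    ∅ ∉ part C u ∧ ∅ ∉ part C v ∧ ∃ x a b, Viol C u v x a b := by
  have h1 := hmin.1
  unfold MFMC at h1
  push Not at h1
  obtain ⟨W, hW⟩ := h1
  have hlt : nu C W < tau C W := lt_of_le_of_ne (nu_le_tau C W) (Ne.symm hW)
  obtain ⟨k, hk, hno⟩ := exists_viol hlt
  have hE1 := hpair.empty_left (con_of_min hmin v) hk hno
  have hE2 := hpair.symm.empty_left (con_of_min hmin u) hk hno
  refine ⟨hE1, hE2, ?_⟩
  have hU := not_mem_union hE1 hE2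
  obtain ⟨c1, c2, c3, c4⟩ := hpair.cov hk
  obtain ⟨D2, hD2, hx2⟩ := exists_cov hE2 (res W u v)
  obtain ⟨D3, hD3, hx3⟩ := exists_cov hE1 (res W u v)
  obtain ⟨D4, hD4, hx4⟩ := exists_cov hU (res W u v)
  have k2 := c2 D2 hD2
  have k3 := c3 D3 hD3
  have k4 := c4 D4 hD4
  rw [hx2] at k2
  rw [hx3] at k3
  rw [hx4] at k4
  have hab := cn_union hE1 hE2 (res W u v)
  set a := min (min (W u) (cn (part C u) (res W u v))) k with ha
  refine ⟨res W u v, a, k - a, res_u W u v, res_v W u v, by omega, by omega, by omega, ?_⟩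
  intro hS
  obtain ⟨P, hP, hc⟩ := hpair.packing_of_S (by omega) (by omega) hS
  exact hno ⟨P, hP, by omega⟩

theorem exists_last (p : ℕ → Prop) {a : ℕ} (h : ∃ i, i < a ∧ p i) :
    ∃ l, l < a ∧ p l ∧ ∀ i, l < i → i < a → ¬ p i := by
  classical
  obtain ⟨i, hi, hpi⟩ := h
  obtain ⟨l, hl, hmax⟩ := Finset.exists_max_image ((Finset.range a).filter p) id
    ⟨i, Finset.mem_filter.mpr ⟨Finset.mem_range.mpr hi, hpi⟩⟩
  rw [Finset.mem_filter, Finset.mem_range] at hl
  refine ⟨l, hl.1, hl.2, fun j hj1 hj2 hpj => ?_⟩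
  have := hmax j (Finset.mem_filter.mpr ⟨Finset.mem_range.mpr hj2, hpj⟩)
  simp only [id] at this
  omega

theorem exists_first (p : ℕ → Prop) {a : ℕ} (h : ∃ i, a < i ∧ p i) :
    ∃ l, a < l ∧ p l ∧ ∀ i, a < i → i < l → ¬ p i := by
  classical
  refine ⟨Nat.find h, (Nat.find_spec h).1, (Nat.find_spec h).2, fun i hi1 hi2 hpi => ?_⟩
  exact Nat.find_min h hi2 ⟨hi1, hpi⟩

theorem sum_lt_of_lt {x y : E → ℕ} (h : x ≤ y) (hne : x ≠ y) : ∑ e, x e < ∑ e, y e := by
  have h1 : ∃ e, x e ≠ y e := by
    by_contra h2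
    push Not at h2
    exact hne (funext h2)
  obtain ⟨e, he⟩ := h1
  exact Finset.sum_lt_sum (fun i _ => h i) ⟨e, Finset.mem_univ e, lt_of_le_of_ne (h e) he⟩

/-- There is a full minimal violation. -/
theorem exists_full (hmin : MinNonMFMC C) (hpair : Pair C u v) :
    ∃ w a l h g, FullViol (part C u) (part C v) w l h g ∧ l < a ∧ a < h ∧
      w u = 0 ∧ w v = 0 := by
  classical
  obtain ⟨hE1, hE2, x0, a0, b0, hx0⟩ := exists_Viol hmin hpair
  have hU := not_mem_union hE1 hE2
  have hex : ∃ n, ∃ x a b, ∑ e, x e = n ∧ Viol C u v x a b := ⟨_, x0, a0, b0, rfl, hx0⟩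
  obtain ⟨w, a, b, hsum, hwu, hwv, h1, h2, h3, h4⟩ := Nat.find_spec hex
  have hminw : ∀ x, x ≤ w → x ≠ w → ∀ a b, a ≤ cn (part C u) x → b ≤ cn (part C v) x →
      a + b ≤ cn (part C u ∪ part C v) x → S (part C u) (part C v) a b x := by
    intro x hx hne a b g1 g2 g3
    by_contra hS
    have g4 := sum_lt_of_lt hx hne
    rw [hsum] at g4
    refine Nat.find_min hex g4 ⟨x, a, b, rfl, ?_, ?_, g1, g2, g3, hS⟩
    · have : x u ≤ w u := hx u
      omega
    · have : x v ≤ w v := hx v
      omega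
  have ct : ∀ a k, k ≤ a + cn (part C v) w → k ≤ cn (part C u ∪ part C v) w →
      ∃ i j, i ≤ a ∧ i + j = k ∧ S (part C u) (part C v) i j w := by
    intro a k g1 g2
    refine hpair.contract (con_of_min hmin v) hwu (fun D hD => ?_) (fun D hD => ?_)
    · have := cn_le hD w
      omega
    · have := cn_le hD w
      omega
  have ct' : ∀ b k, k ≤ b + cn (part C u) w → k ≤ cn (part C u ∪ part C v) w →
      ∃ i j, j ≤ b ∧ i + j = k ∧ S (part C u) (part C v) i j w := by
    intro b k g1 g2
    refine hpair.contract' (con_of_min hmin u) hwv (fun D hD => ?_) (fun D hD => ?_)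
    · have := cn_le hD w
      omega
    · have := cn_le hD w
      omega
  have ha : a < cn (part C u) w := by
    by_contra hcon
    obtain ⟨i, j, g1, g2, g3⟩ := ct' b (a + b) (by omega) h3
    have g4 := g3.left_le hE1
    have e1 : i = a := by omega
    have e2 : j = b := by omega
    rw [e1, e2] at g3
    exact h4 g3
  have hb : b < cn (part C v) w := by
    by_contra hcon
    obtain ⟨i, j, g1, g2, g3⟩ := ct a (a + b) (by omega) h3
    have g4 := g3.right_le hE2
    have e1 : i = a := by omega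
    have e2 : j = b := by omega
    rw [e1, e2] at g3
    exact h4 g3
  have hg : a + b = cn (part C u ∪ part C v) w := by
    by_contra hcon
    have hne0 : (0 : E → ℕ) ≠ w := by
      intro h0
      rw [← h0, cn_zero hE1] at ha
      omega
    obtain ⟨e, y, -, hy⟩ := exists_lt (w := w) (x := 0) (by intro e; simp) hne0
    have s1 := cn_single hE1 y e
    have s2 := cn_single hE2 y e
    have s3 := cn_single hU y e
    rw [hy] at s1 s2 s3
    have hyw := le_of_add hy
    have hyne : y ≠ w := ne_of_add_ind (Finset.singleton_nonempty e) hy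
    exact h4 ((hminw y hyw hyne a b (by omega) (by omega) (by omega)).mono hyw)
  set g := cn (part C u ∪ part C v) w with hgdef
  obtain ⟨i1, j1, q1, q2, q3⟩ := ct a g (by omega) le_rfl
  obtain ⟨i2, j2, r1, r2, r3⟩ := ct' b g (by omega) le_rfl
  have hi1 : i1 < a := by
    rcases Nat.lt_or_ge i1 a with g1 | g1
    · exact g1
    · exfalso
      have e1 : i1 = a := by omega
      have e2 : j1 = b := by omega
      rw [e1, e2] at q3
      exact h4 q3
  have hi2 : a < i2 := by
    rcases Nat.lt_or_ge a i2 with g1 | g1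
    · exact g1
    · exfalso
      have e1 : i2 = a := by omega
      have e2 : j2 = b := by omega
      rw [e1, e2] at r3
      exact h4 r3
  obtain ⟨l, hl1, ⟨hl2, hl3⟩, hl4⟩ := exists_last
    (fun i => i ≤ g ∧ S (part C u) (part C v) i (g - i) w) (a := a) ⟨i1, hi1, by omega, by
      have e1 : g - i1 = j1 := by omega
      rw [e1]
      exact q3⟩
  obtain ⟨h, hh1, ⟨hh2, hh3⟩, hh4⟩ := exists_first
    (fun i => i ≤ g ∧ S (part C u) (part C v) i (g - i) w) (a := a) ⟨i2, hi2, by omega, by
      have e1 : g - i2 = j2 := by omega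
      rw [e1]
      exact r3⟩
  refine ⟨w, a, l, h, g, ⟨hE1, hE2, hminw, rfl, by omega, hh2, hl3, hh3, ?_⟩, hl1, hh1,
    hwu, hwv⟩
  intro i hi1' hi2' hS
  rcases Nat.lt_trichotomy i a with g1 | g1 | g1
  · exact hl4 i hi1' g1 ⟨by omega, hS⟩
  · have e2 : g - i = b := by omega
    rw [e2, g1] at hS
    exact h4 hS
  · exact hh4 i g1 hi2' ⟨by omega, hS⟩

/-- `g = 2` gives the conclusion of Q1. -/
theorem q1_of_two (hmin : MinNonMFMC C) (hpair : Pair C u v) {w : E → ℕ} {l h : ℕ}
    (H : FullViol (part C u) (part C v) w l h 2) (hwu : w u = 0) (hwv : w v = 0) :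
    tau C 1 = 2 ∧ nu C 1 < 2 := by
  have hlh := H.lh
  have hle := H.hle
  have hl : l = 0 := by omega
  have hh : h = 2 := by omega
  have hnS := H.gap 1 (by omega) (by omega)
  have hα : 1 ≤ cn (part C u) w := by
    have := H.high.left_le H.hA
    omega
  have hβ : 1 ≤ cn (part C v) w := by
    have := H.low.right_le H.hB
    omega
  have hk : ∀ B, IsCover C B → 2 ≤ wt (glue 1 1 w u v) B := by
    refine hpair.cov_of ?_ ?_ ?_ ?_
    · rw [glue_u, glue_v _ _ _ hpair.ne]
    · intro D hD
      rw [glue_u, res_glue 1 1 w hwu hwv]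
      have := cn_le hD w
      omega
    · intro D hD
      rw [glue_v _ _ _ hpair.ne, res_glue 1 1 w hwu hwv]
      have := cn_le hD w
      omega
    · intro D hD
      rw [res_glue 1 1 w hwu hwv]
      have h1 := cn_le hD w
      rw [H.hg] at h1
      exact h1
  have hno : ¬ ∃ P, IsPacking C (glue 1 1 w u v) P ∧ Multiset.card P = 2 := by
    rintro ⟨P, hP, hc⟩
    obtain ⟨i, j, hi, hj, hij, hS⟩ := hpair.S_of_packing hP
    rw [glue_u] at hi
    rw [glue_v _ _ _ hpair.ne] at hj
    rw [res_glue 1 1 w hwu hwv] at hS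
    have e1 : i = 1 := by omega
    have e2 : j = 1 := by omega
    rw [e1, e2] at hS
    exact hnS hS
  have hone : glue 1 1 w u v = 1 := by
    funext e
    have h1 := pos_of_min (fun e => del_of_min hmin e) hk hno e
    have h2 := lt_of_min (fun e => con_of_min hmin e) hk hno e
    show glue 1 1 w u v e = 1
    omega
  rw [hone] at hk hno
  constructor
  · refine le_antisymm ?_ ?_
    · have h1 : IsCover C {u, v} := by
        intro A hA
        rcases hpair.h A hA with h1 | h1
        · exact ⟨u, by simp [h1.1]⟩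
        · exact ⟨v, by simp [h1.2]⟩
      refine (tau_le h1).trans ?_
      have h2 : wt (1 : E → ℕ) {u, v} = 2 := by
        unfold wt
        rw [Finset.sum_pair hpair.ne]
        rfl
      rw [h2]
      rfl
    · exact le_tau hk
  · exact nu_lt hno

theorem part_card {k : ℕ} (hC : ∀ A ∈ C, A.card ≤ k + 1) : ∀ A ∈ part C u, A.card ≤ k := by
  intro A hA
  rw [mem_part] at hA
  have := hC _ hA.2
  rw [Finset.card_insert_of_notMem hA.1] at this
  omega

/-- Q1 for clutters whose members have at most four elements. -/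
theorem q1_card_four (hmin : MinNonMFMC C) (hpair : Pair C u v) (hC : ∀ A ∈ C, A.card ≤ 4) :
    tau C 1 = 2 ∧ nu C 1 < 2 := by
  obtain ⟨w, a, l, h, g, H, ha1, ha2, hwu, hwv⟩ := exists_full hmin hpair
  have hle := H.hle
  by_cases hg : g = 2
  · subst hg
    exact q1_of_two hmin hpair H hwu hwv
  · exfalso
    refine H.false3 ?_ (by omega)
    intro M hM
    rcases Finset.mem_union.mp hM with h1 | h1
    · exact part_card hC M h1
    · exact part_card hC M h1

end Pool.Agent.MFM
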