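import Pool.Agent.MFM.LemV

namespace Pool.Agent.MFM

open Finset

set_option linter.unusedSectionVars false

variable {E : Type*} [DecidableEq E] [Fintype E]
variable {𝒜 ℬ : Finset (Finset E)} {w : E → ℕ} {l h g : ℕ} {M N : Finset E}
variable {P Q P' Q' : Multiset (Finset E)}

/-- `A` avoids `N`, `A ≤ w`, then `A ≤ w - N`. -/
theorem ind_le_sub {A N : Finset E} {r : E → ℕ} (hr : r + ind N = w) (hA : ∀ x ∈ A, 0 < w x)
    (hAN : ∀ x ∈ A, x ∈ N → 2 ≤ w x) : ind A ≤ r := by
  refine ind_le_of (fun x hx => ?_)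
  have h1 := congrFun hr x
  simp only [Pi.add_apply] at h1
  by_cases hxN : x ∈ N
  · rw [ind_apply_mem hxN] at h1
    have := hAN x hx hxN
    omega
  · rw [ind_apply_not_mem hxN] at h1
    have := hA x hx
    omega

theorem Two.wpos (T : Two 𝒜 ℬ w l h g P Q P' Q') (hM : M ∈ P ∨ M ∈ Q ∨ M ∈ P' ∨ M ∈ Q') :
    ∀ x ∈ M, 0 < w x := by
  intro x hx
  have h1 := T.ex x
  have h2 := T.ex' x
  rcases hM with hM | hM | hM | hM
  · have := tot_pos_of hM hx
    omega
  · have := tot_pos_of hM hx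
    omega
  · have := tot_pos_of hM hx
    omega
  · have := tot_pos_of hM hx
    omega

/-- The common element of the `𝒜`-members below `w - N`, for `g = 4`. -/
theorem Two.common (T : Two 𝒜 ℬ w l h g P Q P' Q') (hg : g = 4) (hN : N ∈ Q) :
    ∃ k, (∀ A ∈ 𝒜, (∀ x ∈ A, 0 < w x) → (∀ x ∈ A, x ∈ N → 2 ≤ w x) → k ∈ A) ∧
      0 < tot P k ∧ tot P k ≤ 1 := by
  obtain ⟨hh, hl⟩ := T.count
  have hP1 : Multiset.card P = 1 := by
    rw [T.cP]
    omega
  obtain ⟨N0, hN0⟩ := Multiset.card_eq_one.mp hP1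
  obtain ⟨Q1, hQ1⟩ := Multiset.exists_cons_of_mem hN
  obtain ⟨-, r, hr, -⟩ := T.H.lSplit (T.lm (Or.inr hN))
  have hex := T.ex
  have hr1 : ∀ e, r e ≤ tot P e + tot Q1 e := by
    intro e
    have h1 := hex e
    have h2 := congrFun hr e
    rw [hQ1, tot_cons] at h1
    simp only [Pi.add_apply] at h2
    omega
  have hsub := T.H.sub_low (P1 := P) (P2 := 0) (Q1 := Q1) (Q2 := {N}) (x := r) (by
    rw [add_zero, Multiset.add_comm, Multiset.singleton_add, ← hQ1]
    exact T.pk) (by
    rw [add_zero, Multiset.add_comm Q1, Multiset.singleton_add, ← hQ1, T.cP, T.cQ]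
    omega) (by rw [add_zero]; exact T.cP) (by simp) hr1
  rw [hP1] at hsub
  have hN0P : N0 ∈ P := by
    rw [hN0]
    exact Multiset.mem_singleton_self N0
  have hN0A : N0 ∈ 𝒜 := T.pk.hP N0 hN0P
  have hN0r : ind N0 ≤ r := by
    intro x
    show ind N0 x ≤ r x
    have h1 := hex x
    have h2 := congrFun hr x
    rw [hQ1, tot_cons, hN0, ← Multiset.cons_zero N0, tot_cons, tot_zero] at h1
    simp only [Pi.add_apply] at h2
    omega
  obtain ⟨k, hk⟩ := one_cover T.H.hA hsub hN0A hN0r
  have hkN0 := hk N0 hN0A hN0r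
  refine ⟨k, fun A hA h1 h2 => hk A hA (ind_le_sub hr h1 h2), tot_pos_of hN0P hkN0, ?_⟩
  exact (Multiset.countP_le_card _ _).trans (by rw [hP1])

/-- Weights are one on high `𝒜`-members. -/
theorem Two.w_one (T : Two 𝒜 ℬ w l h g P Q P' Q') (hg : g = 4) (hM : M ∈ P') :
    ∀ x ∈ M, w x = 1 := by
  intro x hx
  have h3 : 3 ≤ g := by omega
  obtain ⟨hh, hl⟩ := T.count
  have hP1 : Multiset.card P = 1 := by
    rw [T.cP]
    omega
  obtain ⟨-, c, hc, p1, p2, p3⟩ := T.yc hM
  have hwc : ∀ k, 0 < tot P k → tot Q k = 0 → w k = 1 := by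
    intro k hk1 hk2
    have h1 := T.ex k
    have h2 : tot P k ≤ 1 := (Multiset.countP_le_card _ _).trans (by rw [hP1])
    omega
  by_cases hxc : x = c
  · rw [hxc]
    exact hwc c p1 p2
  · by_contra hne
    have hw0 := T.wpos (Or.inr (Or.inr (Or.inl hM))) x hx
    have q1 := p3 x hx hxc
    have q2 := T.pure' q1.2
    have q3 := tot_pos_of hM hx
    have e1 := T.ex x
    have e2 := T.ex' x
    obtain ⟨P1, hP1'⟩ := Multiset.exists_cons_of_mem hM
    have q4 : 0 < tot P1 x := by
      rw [hP1', tot_cons, ind_apply_mem hx] at e2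
      rw [hP1', tot_cons, ind_apply_mem hx] at q2
      omega
    obtain ⟨M', hM', hxM'⟩ := tot_pos q4
    have hM'P : M' ∈ P' := by
      rw [hP1']
      exact Multiset.mem_cons_of_mem hM'
    obtain ⟨P2, hP2⟩ := Multiset.exists_cons_of_mem hM'
    obtain ⟨N, hN, hxN⟩ := tot_pos q1.2
    obtain ⟨k, hk, hkP, -⟩ := T.common hg hN
    have hNL := T.lm (Or.inr hN)
    have kM := hk M (T.pk'.hP M hM) (T.wpos (Or.inr (Or.inr (Or.inl hM)))) (by
      intro y hy hyN
      have := T.H.inter_eq T.hs h3 (T.hm (Or.inl hM)) hNL hy hyN hx hxN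
      rw [this]
      omega)
    have kM' := hk M' (T.pk'.hP M' hM'P) (T.wpos (Or.inr (Or.inr (Or.inl hM'P)))) (by
      intro y hy hyN
      have := T.H.inter_eq T.hs h3 (T.hm (Or.inl hM'P)) hNL hy hyN hxM' hxN
      rw [this]
      omega)
    have hkc : k = c := by
      by_contra h5
      have := (p3 k kM h5).1
      omega
    have hwk := hwc k hkP (by rw [hkc]; exact p2)
    have e3 := T.ex' k
    rw [hP1', hP2, tot_cons, tot_cons, ind_apply_mem kM, ind_apply_mem kM'] at e3
    omega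

/-- Two members of `P'` meeting in an element are equal. -/
theorem Two.disj (T : Two 𝒜 ℬ w l h g P Q P' Q') (hg : g = 4) {M' : Finset E} (hM : M ∈ P')
    (hM' : M' ∈ P') {x : E} (hx : x ∈ M) (hx' : x ∈ M') : M = M' := by
  by_contra hne
  obtain ⟨P1, hP1⟩ := Multiset.exists_cons_of_mem hM
  have hM'1 : M' ∈ P1 := by
    rw [hP1, Multiset.mem_cons] at hM'
    rcases hM' with h5 | h5
    · exact absurd h5.symm hne
    · exact h5
  obtain ⟨P2, hP2⟩ := Multiset.exists_cons_of_mem hM'1
  have h1 := T.w_one hg hM x hx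
  have h2 := T.ex' x
  rw [hP1, hP2, tot_cons, tot_cons, ind_apply_mem hx, ind_apply_mem hx'] at h2
  omega

/-- For `N ∈ Q` some member of `P'` is disjoint from `N`. -/
theorem Two.exists_disj (T : Two 𝒜 ℬ w l h g P Q P' Q') (hg : g = 4) (hN : N ∈ Q) :
    ∃ M ∈ P', ∀ x ∈ M, x ∉ N := by
  obtain ⟨hh, hl⟩ := T.count
  have h3 : 3 ≤ g := by omega
  by_contra hno
  push Not at hno
  have s1 : Multiset.card P' * 1 ≤ (P'.map (fun M => (M.filter (fun e => e ∈ N)).card)).sum := by
    have := Multiset.card_nsmul_le_sum (s := P'.map (fun M => (M.filter (fun e => e ∈ N)).card))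
      (a := 1) (by
        intro y hy
        rw [Multiset.mem_map] at hy
        obtain ⟨M, hM, rfl⟩ := hy
        obtain ⟨x, hx, hxN⟩ := hno M hM
        have : 0 < (M.filter (fun e => e ∈ N)).card :=
          Finset.card_pos.mpr ⟨x, Finset.mem_filter.mpr ⟨hx, hxN⟩⟩
        omega)
    rw [Multiset.card_map, smul_eq_mul] at this
    exact this
  rw [sum_filter, T.cP'] at s1
  obtain ⟨d, hd, d1, d2, d3⟩ := T.yc' hN
  have hc := T.H.card3L T.hs h3 (T.lm (Or.inr hN))
  have hle : ∑ e, (if e ∈ N then tot P' e else 0) ≤ ∑ e, ind (N.erase d) e := by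
    refine Finset.sum_le_sum (fun e _ => ?_)
    by_cases he : e ∈ N
    · rw [if_pos he]
      by_cases hed : e = d
      · rw [hed, d2]
        exact Nat.zero_le _
      · rw [ind_apply_mem (Finset.mem_erase.mpr ⟨hed, he⟩)]
        have h1 := T.symm.w_one hg hN e he
        have h2 := T.ex' e
        omega
    · rw [if_neg he]
      exact Nat.zero_le _
  rw [sum_ind, Finset.card_erase_of_mem hd, hc] at hle
  omega

theorem Two.false (T : Two 𝒜 ℬ w l h g P Q P' Q') : False := by
  have hg := T.no_six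
  have h3 : 3 ≤ g := by omega
  obtain ⟨hh, hl⟩ := T.count
  have hQne : Q ≠ 0 := by
    intro h0
    have := T.cQ
    rw [h0, Multiset.card_zero] at this
    omega
  obtain ⟨N3, hN3⟩ := Multiset.exists_mem_of_ne_zero hQne
  obtain ⟨d, hd, d1, d2, d3⟩ := T.yc' hN3
  have hN3c := T.H.card3L T.hs h3 (T.lm (Or.inr hN3))
  -- the two other elements of `N3`
  obtain ⟨f1, f2, hf12, hN3e⟩ := Finset.card_eq_two.mp (show (N3.erase d).card = 2 by
    rw [Finset.card_erase_of_mem hd, hN3c])
  have hf1 : f1 ∈ N3 ∧ f1 ≠ d := by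
    have : f1 ∈ N3.erase d := by rw [hN3e]; simp
    rw [Finset.mem_erase] at this
    exact ⟨this.2, this.1⟩
  have hf2 : f2 ∈ N3 ∧ f2 ≠ d := by
    have : f2 ∈ N3.erase d := by rw [hN3e]; simp
    rw [Finset.mem_erase] at this
    exact ⟨this.2, this.1⟩
  have hN3el : ∀ x ∈ N3, x = f1 ∨ x = f2 ∨ x = d := by
    intro x hx
    by_cases hxd : x = d
    · exact Or.inr (Or.inr hxd)
    · have : x ∈ N3.erase d := Finset.mem_erase.mpr ⟨hxd, hx⟩
      rw [hN3e, Finset.mem_insert, Finset.mem_singleton] at this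
      tauto
  obtain ⟨M1, hM1, hf1M⟩ := tot_pos (d3 f1 hf1.1 hf1.2).2
  obtain ⟨M2, hM2, hf2M⟩ := tot_pos (d3 f2 hf2.1 hf2.2).2
  have hN3L := T.lm (Or.inr hN3)
  have hM12 : M1 ≠ M2 := by
    rintro rfl
    exact hf12 (T.H.inter_eq T.hs h3 (T.hm (Or.inl hM1)) hN3L hf1M hf1.1 hf2M hf2.1)
  have hdisj : ∀ x ∈ M1, x ∉ M2 := fun x hx hx' => hM12 (T.disj hg hM1 hM2 hx hx')
  have hdP : ∀ M ∈ P', d ∉ M := by
    intro M hM hdM
    have := tot_pos_of hM hdM
    omega
  -- `M3`, `N1`, `N2`
  obtain ⟨M3, hM3, hM3N⟩ := T.exists_disj hg hN3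
  obtain ⟨N1, hN1, hN1M⟩ := T.symm.exists_disj hg hM1
  obtain ⟨N2, hN2, hN2M⟩ := T.symm.exists_disj hg hM2
  have hM31 : M3 ≠ M1 := by
    rintro rfl
    exact hM3N f1 hf1M hf1.1
  have hM32 : M3 ≠ M2 := by
    rintro rfl
    exact hM3N f2 hf2M hf2.1
  have hN13 : N1 ≠ N3 := by
    rintro rfl
    exact hN1M f1 hf1.1 hf1M
  have hN23 : N2 ≠ N3 := by
    rintro rfl
    exact hN2M f2 hf2.1 hf2M
  have disjQ : ∀ {N N' : Finset E}, N ∈ Q → N' ∈ Q → N ≠ N' → ∀ x ∈ N, x ∉ N' :=
    fun hN hN' hne x hx hx' => hne (T.symm.disj hg hN hN' hx hx')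
  have wM1 := T.wpos (M := M1) (Or.inr (Or.inr (Or.inl hM1)))
  have wM2 := T.wpos (M := M2) (Or.inr (Or.inr (Or.inl hM2)))
  have wM3 := T.wpos (M := M3) (Or.inr (Or.inr (Or.inl hM3)))
  have wN1 := T.wpos (M := N1) (Or.inr (Or.inl hN1))
  have wN2 := T.wpos (M := N2) (Or.inr (Or.inl hN2))
  have wN3 := T.wpos (M := N3) (Or.inr (Or.inl hN3))
  have hwV : ∀ x ∈ M1 ∪ M2 ∪ N3, 0 < w x := by
    intro x hx
    rw [Finset.mem_union, Finset.mem_union] at hx
    rcases hx with (hx | hx) | hx
    · exact wM1 x hx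
    · exact wM2 x hx
    · exact wN3 x hx
  obtain ⟨-, c1, hc1, p1, p2, p3⟩ := T.yc hM1
  obtain ⟨-, c2, hc2, q1, q2, q3⟩ := T.yc hM2
  have totQ : ∀ {N : Finset E} {x : E}, N ∈ Q → tot Q x = 0 → x ∉ N := by
    intro N x hN h0 hx
    have := tot_pos_of hN hx
    omega
  obtain ⟨k1, hk1, hk1P, -⟩ := T.common hg hN1
  obtain ⟨k2, hk2, hk2P, -⟩ := T.common hg hN2
  obtain ⟨k3, hk3, hk3P, -⟩ := T.common hg hN3
  have hk1c : k1 = c1 := by
    by_contra h5
    have h6 := hk1 M1 (T.pk'.hP M1 hM1) wM1 (fun x hx hxN => absurd hx (hN1M x hxN))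
    have := (p3 k1 h6 h5).1
    omega
  have hk2c : k2 = c2 := by
    by_contra h5
    have h6 := hk2 M2 (T.pk'.hP M2 hM2) wM2 (fun x hx hxN => absurd hx (hN2M x hxN))
    have := (q3 k2 h6 h5).1
    omega
  have hk3M : k3 ∈ M3 := hk3 M3 (T.pk'.hP M3 hM3) wM3 (fun x hx hxN => absurd hxN (hM3N x hx))
  -- the dual common elements
  obtain ⟨e1, he1, he1Q, -⟩ := T.symm.common hg hM1
  obtain ⟨e2, he2, he2Q, -⟩ := T.symm.common hg hM2
  have he1N : e1 ∈ N1 := he1 N1 (T.pk.hQ N1 hN1) wN1 (fun x hx hxM => absurd hxM (hN1M x hx))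
  have he2N : e2 ∈ N2 := he2 N2 (T.pk.hQ N2 hN2) wN2 (fun x hx hxM => absurd hxM (hN2M x hx))
  have hQ'nP : ∀ {M : Finset E} {x : E} {N : Finset E}, N ∈ Q → x ∈ N → 0 < tot Q' x → M ∈ P' →
      x ∉ M := by
    intro M x N hN hx h5 hM hxM
    have h6 := tot_pos_of hM hxM
    have h7 := T.symm.w_one hg hN x hx
    have h8 := T.ex' x
    omega
  obtain ⟨z, hz⟩ : M3.Nonempty := by
    rw [← Finset.card_pos, T.H.card3H T.hs h3 (T.hm (Or.inl hM3))]
    omega
  have hM3U : ∀ x ∈ M3, x ∉ M1 ∧ x ∉ M2 := fun x hx =>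
    ⟨fun h5 => hM31 (T.disj hg hM3 hM1 hx h5), fun h5 => hM32 (T.disj hg hM3 hM2 hx h5)⟩
  have hM1c := T.H.card3H T.hs h3 (T.hm (Or.inl hM1))
  refine T.H.min.lemV (M1 := M1) (M2 := M2) (N := N3) (f1 := f1) (f2 := f2) (d := d) (z := z)
    (T.pk'.hP M1 hM1) (T.pk.hQ N3 hN3) (T.pk'.hP M2 hM2) hwV (wM3 z hz) ?_ hf1.1 hf1M ?_ hf2.1 hf2M
    hdisj (hdP M2 hM2) hN3el ?_ ?_ ?_
  · rw [Finset.mem_union, Finset.mem_union]
    rintro ((h5 | h5) | h5)
    · exact (hM3U z hz).1 h5
    · exact (hM3U z hz).2 h5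
    · exact hM3N z hz h5
  · intro x hx hxN
    exact T.H.inter_eq T.hs h3 (T.hm (Or.inl hM1)) hN3L hx hxN hf1M hf1.1
  · -- V1
    intro A hA hAsub hf1A
    have wA : ∀ x ∈ A, 0 < w x := by
      intro x hx
      have h5 := hAsub hx
      rw [Finset.mem_union, Finset.mem_singleton] at h5
      rcases h5 with h5 | h5
      · exact wM1 x h5
      · rw [h5]
        exact wM2 f2 hf2M
    have hc1A : c1 ∈ A := by
      rw [← hk1c]
      refine hk1 A hA wA (fun x hx hxN => ?_)
      exfalso
      have h5 := hAsub hx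
      rw [Finset.mem_union, Finset.mem_singleton] at h5
      rcases h5 with h5 | h5
      · exact hN1M x hxN h5
      · rw [h5] at hxN
        exact disjQ hN1 hN3 hN13 f2 hxN hf2.1
    intro x hx
    by_contra hxA
    have hxc : x ≠ c1 := by
      rintro rfl
      exact hxA hc1A
    have hxf : x ≠ f1 := by
      rintro rfl
      exact hxA hf1A
    have hcf : c1 ≠ f1 := by
      rintro rfl
      have := totQ hN3 p2
      exact this hf1.1
    -- `M1 = {c1, f1, x}`
    have hM1el : ∀ y ∈ M1, y = c1 ∨ y = f1 ∨ y = x := by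
      have h6 : ({c1, f1, x} : Finset E) = M1 := by
        refine Finset.eq_of_subset_of_card_le ?_ ?_
        · intro y hy
          simp only [Finset.mem_insert, Finset.mem_singleton] at hy
          rcases hy with rfl | rfl | rfl
          · exact hc1
          · exact hf1M
          · exact hx
        · rw [hM1c, Finset.card_insert_of_notMem, Finset.card_pair (Ne.symm hxf)]
          simp only [Finset.mem_insert, Finset.mem_singleton]
          rintro (h7 | h7)
          · exact hcf h7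
          · exact hxc h7.symm
      intro y hy
      rw [← h6] at hy
      simpa only [Finset.mem_insert, Finset.mem_singleton] using hy
    have hc2A : c2 ∈ A := by
      rw [← hk2c]
      refine hk2 A hA wA (fun y hy hyN => ?_)
      exfalso
      have h5 := hAsub hy
      rw [Finset.mem_union, Finset.mem_singleton] at h5
      rcases h5 with h5 | h5
      · rcases hM1el y h5 with h6 | h6 | h6
        · rw [h6] at hyN
          exact totQ hN2 p2 hyN
        · rw [h6] at hyN
          exact disjQ hN2 hN3 hN23 f1 hyN hf1.1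
        · rw [h6] at hy
          exact hxA hy
      · rw [h5] at hyN
        exact disjQ hN2 hN3 hN23 f2 hyN hf2.1
    have h5 := hAsub hc2A
    rw [Finset.mem_union, Finset.mem_singleton] at h5
    rcases h5 with h5 | h5
    · exact hdisj c2 h5 hc2
    · rw [h5] at q2
      exact totQ hN3 q2 hf2.1
  · -- V2
    intro A hA hAsub hf1A
    by_contra hf2A
    have h5 := hk3 A hA (by
      intro x hx
      exact hwV x (Finset.mem_union_left _ (hAsub hx))) (by
      intro x hx hxN
      exfalso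
      rcases hN3el x hxN with h6 | h6 | h6
      · rw [h6] at hx
        exact hf1A hx
      · rw [h6] at hx
        exact hf2A hx
      · have h7 := hAsub hx
        rw [h6, Finset.mem_union] at h7
        rcases h7 with h7 | h7
        · exact hdP M1 hM1 h7
        · exact hdP M2 hM2 h7)
    have h6 := hAsub h5
    rw [Finset.mem_union] at h6
    rcases h6 with h6 | h6
    · exact (hM3U k3 hk3M).1 h6
    · exact (hM3U k3 hk3M).2 h6
  · -- V3
    intro B hB hBsub
    have wB : ∀ x ∈ B, 0 < w x := fun x hx => hwV x (hBsub hx)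
    refine ⟨?_, ?_, ?_⟩
    · by_contra hno
      push Not at hno
      have h5 := he1 B hB wB (fun x hx hxM => absurd hxM (hno x hx))
      have h6 := hBsub h5
      rw [Finset.mem_union, Finset.mem_union] at h6
      rcases h6 with (h6 | h6) | h6
      · exact hQ'nP hN1 he1N he1Q hM1 h6
      · exact hQ'nP hN1 he1N he1Q hM2 h6
      · exact disjQ hN1 hN3 hN13 e1 he1N h6
    · by_contra hno
      push Not at hno
      have h5 := he2 B hB wB (fun x hx hxM => absurd hxM (hno x hx))
      have h6 := hBsub h5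
      rw [Finset.mem_union, Finset.mem_union] at h6
      rcases h6 with (h6 | h6) | h6
      · exact hQ'nP hN2 he2N he2Q hM1 h6
      · exact hQ'nP hN2 he2N he2Q hM2 h6
      · exact disjQ hN2 hN3 hN23 e2 he2N h6
    · by_contra hdB
      -- `B ⊆ M1 ∪ M2`
      obtain ⟨P1, hP1⟩ := Multiset.exists_cons_of_mem hM1
      have hM2P1 : M2 ∈ P1 := by
        have h5 := hM2
        rw [hP1, Multiset.mem_cons] at h5
        rcases h5 with h5 | h5
        · exact absurd h5.symm hM12
        · exact h5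
      obtain ⟨P2, hP2⟩ := Multiset.exists_cons_of_mem hM2P1
      have hP'eq : ({M1, M2} : Multiset (Finset E)) + P2 = P' := by
        rw [hP1, hP2, Multiset.insert_eq_cons, Multiset.cons_add, Multiset.singleton_add]
      have h5 := T.symm.H.sub_low (P1 := 0) (P2 := Q') (Q1 := {M1, M2}) (Q2 := P2) (x := ind B)
        (by rw [zero_add, hP'eq]; exact T.pk'.symm) (by
          rw [zero_add, hP'eq, T.cP', T.cQ']
          omega) (by rw [zero_add]; exact T.cQ') (by
          rw [T.cQ']
          omega) (by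
          intro x
          rw [tot_zero, Multiset.insert_eq_cons, tot_cons, ← Multiset.cons_zero M2, tot_cons,
            tot_zero]
          by_cases hx : x ∈ B
          · have h6 := hBsub hx
            rw [Finset.mem_union, Finset.mem_union] at h6
            have h7 : x ∈ M1 ∨ x ∈ M2 := by
              rcases h6 with (h6 | h6) | h6
              · exact Or.inl h6
              · exact Or.inr h6
              · rcases hN3el x h6 with h7 | h7 | h7
                · rw [h7]
                  exact Or.inl hf1M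
                · rw [h7]
                  exact Or.inr hf2M
                · rw [h7] at hx
                  exact absurd hx hdB
            rw [ind_apply_mem hx]
            rcases h7 with h7 | h7
            · rw [ind_apply_mem h7]
              omega
            · rw [ind_apply_mem h7]
              omega
          · rw [ind_apply_not_mem hx]
            exact Nat.zero_le _)
      rw [Multiset.card_zero] at h5
      have := cn_ind T.H.hB hB
      omega

end Pool.Agent.MFM
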