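import Pool.Agent.MFM.Cor

namespace Pool.Agent.MFM

open Finset

set_option linter.unusedSectionVars false

variable {E : Type*} [DecidableEq E] [Fintype E]

/-- A minimal weight `w` at which the description of `S` by cover numbers fails, with the gap
`l < i < h` in the numbers of `𝒜`-members of optimal packings. -/
structure FullViol (𝒜 ℬ : Finset (Finset E)) (w : E → ℕ) (l h g : ℕ) : Prop where
  hA : ∅ ∉ 𝒜
  hB : ∅ ∉ ℬ
  pent : ∀ x, x ≤ w → x ≠ w → ∀ a b, a ≤ cn 𝒜 x → b ≤ cn ℬ x → a + b ≤ cn (𝒜 ∪ ℬ) x →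
    S 𝒜 ℬ a b x
  hg : cn (𝒜 ∪ ℬ) w = g
  lh : l + 2 ≤ h
  hle : h ≤ g
  low : S 𝒜 ℬ l (g - l) w
  high : S 𝒜 ℬ h (g - h) w
  gap : ∀ i, l < i → i < h → ¬ S 𝒜 ℬ i (g - i) w

variable {𝒜 ℬ : Finset (Finset E)} {w : E → ℕ} {l h g : ℕ} {M N : Finset E}

theorem FullViol.symm (H : FullViol 𝒜 ℬ w l h g) : FullViol ℬ 𝒜 w (g - h) (g - l) g := by
  have h1 := H.lh
  have h2 := H.hle
  refine ⟨H.hB, H.hA, ?_, by rw [Finset.union_comm]; exact H.hg, by omega, by omega, ?_, ?_, ?_⟩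
  · intro x hx hne a b ha hb hab
    rw [Finset.union_comm] at hab
    exact (H.pent x hx hne b a hb ha (by omega)).symm
  · have e1 : g - (g - h) = h := by omega
    rw [e1]
    exact H.high.symm
  · have e1 : g - (g - l) = l := by omega
    rw [e1]
    exact H.low.symm
  · intro i hi1 hi2 hS
    refine H.gap (g - i) (by omega) (by omega) ?_
    have e1 : g - (g - i) = i := by omega
    rw [e1]
    exact hS.symm

theorem FullViol.toMin (H : FullViol 𝒜 ℬ w l h g) {p : ℕ} (hp1 : l < p) (hp2 : p < h) :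
    MinViol 𝒜 ℬ w p (g - p) := by
  have h1 := H.lh
  have h2 := H.hle
  refine ⟨H.hA, H.hB, ?_, H.gap p hp1 hp2, by rw [H.hg]; omega, ?_, ?_,
    ⟨h, g - h, hp2, by omega, H.high⟩, ⟨l, g - l, hp1, by omega, H.low⟩⟩
  · intro x hx hne a b _ _ h3 h4 h5
    exact H.pent x hx hne a b h3 h4 h5
  · have := H.high.left_le H.hA
    omega
  · have := H.low.right_le H.hB
    omega

theorem FullViol.min (H : FullViol 𝒜 ℬ w l h g) : MinViol 𝒜 ℬ w (l + 1) (g - (l + 1)) :=
  H.toMin (by omega) (by have := H.lh; omega)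

/-- Dichotomy for tight splits, full form. -/
theorem FullViol.dich (H : FullViol 𝒜 ℬ w l h g) {x y : E → ℕ} (hxy : x + y = w)
    (hx : x ≠ w) (hy : y ≠ w) (ht : g ≤ cn (𝒜 ∪ ℬ) x + cn (𝒜 ∪ ℬ) y) :
    (h ≤ cn 𝒜 x + cn 𝒜 y ∧ cn ℬ x + cn ℬ y + h ≤ g) ∨
    (cn 𝒜 x + cn 𝒜 y ≤ l ∧ g ≤ cn ℬ x + cn ℬ y + l) := by
  have h1 := H.lh
  have h2 := H.hle
  have hU := not_mem_union H.hA H.hB
  have hs := cn_add hU x y
  rw [hxy, H.hg] at hs
  have d1 := (H.toMin (p := l + 1) (by omega) (by omega)).dich hxy hx hy (by omega)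
  have d2 := (H.toMin (p := h - 1) (by omega) (by omega)).dich hxy hx hy (by omega)
  have u1 := cn_union H.hA H.hB x
  have u2 := cn_union H.hA H.hB y
  by_cases hf1 : cn 𝒜 x + cn 𝒜 y ≤ l
  · right
    omega
  · by_cases hf2 : h ≤ cn 𝒜 x + cn 𝒜 y
    · left
      omega
    · exfalso
      have d3 := (H.toMin (p := cn 𝒜 x + cn 𝒜 y) (by omega) (by omega)).dich hxy hx hy
        (by omega)
      omega

/-- `M` is a member of a packing of size `g` with at least `h` members of `𝒜`. -/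
def HM (𝒜 ℬ : Finset (Finset E)) (w : E → ℕ) (h g : ℕ) (M : Finset E) : Prop :=
  ∃ P Q, IsPk 𝒜 ℬ P Q w ∧ Multiset.card P + Multiset.card Q = g ∧ h ≤ Multiset.card P ∧
    (M ∈ P ∨ M ∈ Q)

/-- `M` is a member of a packing of size `g` with at most `l` members of `𝒜`. -/
def LM (𝒜 ℬ : Finset (Finset E)) (w : E → ℕ) (l g : ℕ) (M : Finset E) : Prop :=
  ∃ P Q, IsPk 𝒜 ℬ P Q w ∧ Multiset.card P + Multiset.card Q = g ∧ Multiset.card P ≤ l ∧
    (M ∈ P ∨ M ∈ Q)

theorem LM.symm (hM : LM 𝒜 ℬ w l g M) : HM ℬ 𝒜 w (g - l) g M := by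
  obtain ⟨P, Q, h1, h2, h3, h4⟩ := hM
  exact ⟨Q, P, h1.symm, by omega, by omega, h4.symm⟩

theorem HM.symm (hM : HM 𝒜 ℬ w h g M) : LM ℬ 𝒜 w (g - h) g M := by
  obtain ⟨P, Q, h1, h2, h3, h4⟩ := hM
  exact ⟨Q, P, h1.symm, by omega, by omega, h4.symm⟩

theorem HM.toHigh (H : FullViol 𝒜 ℬ w l h g) (hM : HM 𝒜 ℬ w h g M) :
    High 𝒜 ℬ w (l + 1) (g - (l + 1)) M := by
  have h1 := H.lh
  have h2 := H.hle
  obtain ⟨P, Q, k1, k2, k3, k4⟩ := hM
  exact ⟨P, Q, k1, by omega, by omega, k4⟩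

theorem LM.toLow (H : FullViol 𝒜 ℬ w l h g) (hM : LM 𝒜 ℬ w l g M) :
    Low 𝒜 ℬ w (l + 1) (g - (l + 1)) M := by
  have h1 := H.lh
  have h2 := H.hle
  obtain ⟨P, Q, k1, k2, k3, k4⟩ := hM
  exact ⟨P, Q, k1, by omega, by omega, k4⟩

theorem FullViol.hSplit (H : FullViol 𝒜 ℬ w l h g) (hM : HM 𝒜 ℬ w h g M) :
    M ∈ 𝒜 ∪ ℬ ∧ ∃ r, r + ind M = w ∧ r ≠ w ∧ ind M ≠ w ∧ cn (𝒜 ∪ ℬ) r + 1 = g ∧
      cn (𝒜 ∪ ℬ) (ind M) = 1 ∧ h ≤ cn 𝒜 (ind M) + cn 𝒜 r ∧
      cn ℬ (ind M) + cn ℬ r + h ≤ g := by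
  have h1 := H.lh
  have h2 := H.hle
  obtain ⟨hMU, r, hr, hrw, hMw, hg, hg1, hP, hQ⟩ := H.min.highSplit (hM.toHigh H)
  refine ⟨hMU, r, hr, hrw, hMw, by omega, hg1, ?_⟩
  have := H.dich hr hrw hMw (by omega)
  omega

theorem FullViol.lSplit (H : FullViol 𝒜 ℬ w l h g) (hM : LM 𝒜 ℬ w l g M) :
    M ∈ 𝒜 ∪ ℬ ∧ ∃ r, r + ind M = w ∧ r ≠ w ∧ ind M ≠ w ∧ cn (𝒜 ∪ ℬ) r + 1 = g ∧
      cn (𝒜 ∪ ℬ) (ind M) = 1 ∧ cn 𝒜 (ind M) + cn 𝒜 r ≤ l ∧
      g ≤ cn ℬ (ind M) + cn ℬ r + l := by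
  have h1 := H.lh
  have h2 := H.hle
  obtain ⟨hMU, r, hr, hrw, hMw, hg, hg1, hP, hQ⟩ := H.min.lowSplit (hM.toLow H)
  refine ⟨hMU, r, hr, hrw, hMw, by omega, hg1, ?_⟩
  have := H.dich hr hrw hMw (by omega)
  omega

/-- Sub-collections of a low packing with exactly `l` members of `𝒜`. -/
theorem FullViol.sub_low (H : FullViol 𝒜 ℬ w l h g) {P1 P2 Q1 Q2 : Multiset (Finset E)}
    (hpk : IsPk 𝒜 ℬ (P1 + P2) (Q1 + Q2) w)
    (hc : Multiset.card (P1 + P2) + Multiset.card (Q1 + Q2) = g)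
    (hl : Multiset.card (P1 + P2) = l) (hprop : 1 ≤ Multiset.card P2 + Multiset.card Q2)
    {x : E → ℕ} (hx : ∀ e, x e ≤ tot P1 e + tot Q1 e) : cn 𝒜 x ≤ Multiset.card P1 := by
  have h1 := H.lh
  have h2 := H.hle
  have hU := not_mem_union H.hA H.hB
  have hle : cn 𝒜 x ≤ cn 𝒜 (fun e => tot P1 e + tot Q1 e) := cn_mono H.hA hx
  refine hle.trans ?_
  rw [Multiset.card_add, Multiset.card_add] at hc
  rw [Multiset.card_add] at hl
  by_cases h0 : Multiset.card P1 + Multiset.card Q1 = 0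
  · have e1 : P1 = 0 := by
      rw [← Multiset.card_eq_zero]
      omega
    have e2 : Q1 = 0 := by
      rw [← Multiset.card_eq_zero]
      omega
    subst e1
    subst e2
    obtain ⟨D, hD, hx'⟩ := exists_cov H.hA (fun e => tot (0 : Multiset (Finset E)) e +
      tot (0 : Multiset (Finset E)) e)
    rw [← hx', Multiset.card_zero]
    unfold wt
    simp [tot_zero]
  · set X : E → ℕ := fun e => tot P1 e + tot Q1 e with hX
    set Y : E → ℕ := fun e => tot P2 e + tot Q2 e with hY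
    have hpX : IsPk 𝒜 ℬ P1 Q1 X :=
      ⟨fun A hA => hpk.hP A (Multiset.mem_add.mpr (Or.inl hA)),
        fun A hA => hpk.hQ A (Multiset.mem_add.mpr (Or.inl hA)), fun e => le_rfl⟩
    have hpY : IsPk 𝒜 ℬ P2 Q2 Y :=
      ⟨fun A hA => hpk.hP A (Multiset.mem_add.mpr (Or.inr hA)),
        fun A hA => hpk.hQ A (Multiset.mem_add.mpr (Or.inr hA)), fun e => le_rfl⟩
    have hXY : X + Y = w := by
      funext e
      have := H.min.pk_exact hpk (by
        rw [Multiset.card_add, Multiset.card_add]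
        omega) e
      rw [tot_add, tot_add] at this
      show (tot P1 e + tot Q1 e) + (tot P2 e + tot Q2 e) = w e
      omega
    have a1 := hpX.sum_le H.hA H.hB
    have a2 := hpY.sum_le H.hA H.hB
    have a3 := hpX.left_le H.hA
    have a4 := hpY.left_le H.hA
    have a5 := hpX.right_le H.hB
    have a6 := hpY.right_le H.hB
    have a7 := cn_add hU X Y
    rw [hXY, H.hg] at a7
    have hXw : X ≠ w := by
      intro h3
      rw [h3, H.hg] at a7
      omega
    have hYw : Y ≠ w := by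
      intro h3
      rw [h3, H.hg] at a7
      omega
    have := H.dich hXY hXw hYw (by omega)
    omega

/-- Demand lemma. -/
theorem demand (n : ℕ) : ∀ (d : E → ℕ) (Q : Multiset (Finset E)), ∑ e, d e = n →
    (∀ e, d e ≤ tot Q e) → ∃ Q1 Q2, Q1 + Q2 = Q ∧ Multiset.card Q1 ≤ n ∧
      ∀ e, d e ≤ tot Q1 e := by
  induction n with
  | zero =>
    intro d Q hd hle
    refine ⟨0, Q, by simp, by simp, fun e => ?_⟩
    have : d e = 0 := by
      have h1 := Finset.single_le_sum (f := d) (fun i _ => Nat.zero_le _) (Finset.mem_univ e)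
      omega
    omega
  | succ n ih =>
    intro d Q hd hle
    have hex : ∃ e, 0 < d e := by
      by_contra hno
      push Not at hno
      have : ∑ e, d e = 0 := Finset.sum_eq_zero (fun e _ => by have := hno e; omega)
      omega
    obtain ⟨e, he⟩ := hex
    obtain ⟨Q1, Q2, h1, h2, h3⟩ := ih (Function.update d e (d e - 1)) Q (by
      have h4 : ∑ f, d f = ∑ f, Function.update d e (d e - 1) f + 1 := by
        have h5 : ∑ x ∈ Finset.univ.erase e, Function.update d e (d e - 1) x =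
            ∑ x ∈ Finset.univ.erase e, d x := by
          refine Finset.sum_congr rfl (fun x hx => ?_)
          rw [Function.update_of_ne (Finset.ne_of_mem_erase hx)]
        have h6 := Finset.add_sum_erase Finset.univ d (Finset.mem_univ e)
        have h7 := Finset.add_sum_erase Finset.univ (Function.update d e (d e - 1))
          (Finset.mem_univ e)
        rw [h5, Function.update_self] at h7
        omega
      omega) (by
      intro f
      by_cases hf : f = e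
      · subst hf
        rw [Function.update_self]
        have := hle f
        omega
      · rw [Function.update_of_ne hf]
        exact hle f)
    by_cases hq : d e ≤ tot Q1 e
    · refine ⟨Q1, Q2, h1, by omega, fun f => ?_⟩
      by_cases hf : f = e
      · subst hf
        exact hq
      · have := h3 f
        rw [Function.update_of_ne hf] at this
        exact this
    · have h6 := h3 e
      rw [Function.update_self] at h6
      have h7 := hle e
      rw [← h1, tot_add] at h7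
      obtain ⟨B, hB, heB⟩ := tot_pos (P := Q2) (e := e) (by omega)
      obtain ⟨Q3, hQ3⟩ := Multiset.exists_cons_of_mem hB
      refine ⟨B ::ₘ Q1, Q3, ?_, ?_, fun f => ?_⟩
      · rw [← h1, hQ3, Multiset.cons_add, Multiset.add_cons]
      · rw [Multiset.card_cons]
        omega
      · rw [tot_cons]
        by_cases hf : f = e
        · subst hf
          rw [ind_apply_mem heB]
          omega
        · have := h3 f
          rw [Function.update_of_ne hf] at this
          omega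

theorem sum_ind (A : Finset E) : ∑ e, ind A e = A.card := by
  simp [ind]

end Pool.Agent.MFM
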