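import Pool.Agent.MFM.Count

namespace Pool.Agent.MFM

open Finset

set_option linter.unusedSectionVars false

variable {E : Type*} [DecidableEq E] [Fintype E]
variable {𝒜 ℬ : Finset (Finset E)} {w : E → ℕ} {p q : ℕ} {M N : Finset E}

theorem S11 {x : E → ℕ} (h : S 𝒜 ℬ 1 1 x) :
    ∃ A ∈ 𝒜, ∃ B ∈ ℬ, ∀ e, ind A e + ind B e ≤ x e := by
  obtain ⟨P, Q, hpk, hP, hQ⟩ := h
  obtain ⟨A, rfl⟩ := Multiset.card_eq_one.mp hP
  obtain ⟨B, rfl⟩ := Multiset.card_eq_one.mp hQ
  refine ⟨A, hpk.hP A (Multiset.mem_singleton_self A), B, hpk.hQ B (Multiset.mem_singleton_self B),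
    fun e => ?_⟩
  have := hpk.hx e
  rw [← Multiset.cons_zero A, ← Multiset.cons_zero B, tot_cons, tot_cons, tot_zero] at this
  omega

/-- If the cover number is at most one, all members below `x` have a common element. -/
theorem one_cover {F : Finset (Finset E)} (hF : ∅ ∉ F) {x : E → ℕ} (hx : cn F x ≤ 1)
    {A0 : Finset E} (hA0 : A0 ∈ F) (hA0x : ind A0 ≤ x) :
    ∃ k, ∀ A ∈ F, ind A ≤ x → k ∈ A := by
  obtain ⟨D, hD, hwt⟩ := exists_cov hF x
  have pos : ∀ (A : Finset E), ind A ≤ x → ∀ e ∈ A, 0 < x e := by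
    intro A hA e he
    have h1 : ind A e ≤ x e := hA e
    rw [ind_apply_mem he] at h1
    omega
  obtain ⟨k, hk⟩ := hD A0 hA0
  rw [Finset.mem_inter] at hk
  refine ⟨k, fun A hA hAx => ?_⟩
  obtain ⟨k', hk'⟩ := hD A hA
  rw [Finset.mem_inter] at hk'
  by_cases hkk : k' = k
  · rw [← hkk]
    exact hk'.1
  · exfalso
    have h1 : x k + x k' ≤ wt x D := by
      have h2 : ({k, k'} : Finset E) ⊆ D := by
        intro y hy
        rw [Finset.mem_insert, Finset.mem_singleton] at hy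
        rcases hy with rfl | rfl
        · exact hk.2
        · exact hk'.2
      have h3 : wt x {k, k'} = x k + x k' := by
        unfold wt
        rw [Finset.sum_pair (Ne.symm hkk)]
      rw [← h3]
      exact Finset.sum_le_sum_of_subset h2
    have h4 := pos A0 hA0x k hk.1
    have h5 := pos A hAx k' hk'.1
    omega

/-- `ind V ≤ w`. -/
theorem ind_le_w {V : Finset E} (h : ∀ x ∈ V, 0 < w x) : ind V ≤ w := ind_le_of h

theorem MinViol.lemV (m : MinViol 𝒜 ℬ w p q) {M1 M2 N : Finset E} {f1 f2 d z : E}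
    (hM1 : M1 ∈ 𝒜) (hN : N ∈ ℬ)
    (hM2U : M2 ∈ 𝒜) (hw : ∀ x ∈ M1 ∪ M2 ∪ N, 0 < w x) (hz : 0 < w z) (hzV : z ∉ M1 ∪ M2 ∪ N)
    (hf1N : f1 ∈ N) (hf1M : f1 ∈ M1) (hf1 : ∀ x ∈ M1, x ∈ N → x = f1) (hf2N : f2 ∈ N)
    (hf2M : f2 ∈ M2)
    (hdisj : ∀ x ∈ M1, x ∉ M2) (hd2 : d ∉ M2)
    (hNel : ∀ x ∈ N, x = f1 ∨ x = f2 ∨ x = d)
    (V1 : ∀ A ∈ 𝒜, A ⊆ M1 ∪ {f2} → f1 ∈ A → M1 ⊆ A)
    (V2 : ∀ A ∈ 𝒜, A ⊆ M1 ∪ M2 → f1 ∉ A → f2 ∈ A)
    (V3 : ∀ B ∈ ℬ, B ⊆ M1 ∪ M2 ∪ N → (∃ x ∈ B, x ∈ M1) ∧ (∃ x ∈ B, x ∈ M2) ∧ d ∈ B) :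
    False := by
  classical
  have hp := m.p_pos
  have hq := m.q_pos
  have hU := not_mem_union m.hA m.hB
  set NC : Finset E → Prop := fun V => ∀ e, ∃ G ∈ 𝒜 ∪ ℬ, G ⊆ V ∧ e ∉ G with hNC
  have hne : ((M2.powerset).filter (fun S => NC (M1 ∪ N ∪ S))).Nonempty := by
    refine ⟨M2, Finset.mem_filter.mpr ⟨Finset.mem_powerset_self M2, ?_⟩⟩
    intro e
    by_cases he : e ∈ M1
    · refine ⟨M2, Finset.mem_union_left _ hM2U, ?_, hdisj e he⟩
      exact Finset.subset_union_right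
    · refine ⟨M1, Finset.mem_union_left _ hM1, ?_, he⟩
      intro x hx
      exact Finset.mem_union_left _ (Finset.mem_union_left _ hx)
  obtain ⟨S0, hS0, hmin⟩ := Finset.exists_min_image _ Finset.card hne
  rw [Finset.mem_filter, Finset.mem_powerset] at hS0
  obtain ⟨hS0M, hS0NC⟩ := hS0
  set V := M1 ∪ N ∪ S0 with hV
  have hVsub : V ⊆ M1 ∪ M2 ∪ N := by
    intro x hx
    rw [hV, Finset.mem_union, Finset.mem_union] at hx
    rw [Finset.mem_union, Finset.mem_union]
    rcases hx with (hx | hx) | hx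
    · exact Or.inl (Or.inl hx)
    · exact Or.inr hx
    · exact Or.inl (Or.inr (hS0M hx))
  have hVw : ind V ≤ w := ind_le_w (fun x hx => hw x (hVsub hx))
  have hVne : ind V ≠ w := by
    intro h1
    have h2 := congrFun h1 z
    rw [ind_apply_not_mem (fun h3 => hzV (hVsub h3))] at h2
    omega
  have hsubV : ∀ G : Finset E, G ⊆ V → ind G ≤ ind V := by
    intro G hG x
    show ind G x ≤ ind V x
    by_cases hx : x ∈ G
    · rw [ind_apply_mem hx, ind_apply_mem (hG hx)]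
    · rw [ind_apply_not_mem hx]
      exact Nat.zero_le _
  have hM1V : M1 ⊆ V := fun x hx => Finset.mem_union_left _ (Finset.mem_union_left _ hx)
  have hNV : N ⊆ V := fun x hx => Finset.mem_union_left _ (Finset.mem_union_right _ hx)
  have c1 : 1 ≤ cn 𝒜 (ind V) := (cn_ind m.hA hM1).trans (cn_mono m.hA (hsubV M1 hM1V))
  have c2 : 1 ≤ cn ℬ (ind V) := (cn_ind m.hB hN).trans (cn_mono m.hB (hsubV N hNV))
  have c3 : 2 ≤ cn (𝒜 ∪ ℬ) (ind V) := by
    refine le_cn hU (fun D hD => ?_)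
    rw [wt_ind]
    by_contra hcon
    have h1 : (V ∩ D).card ≤ 1 := by omega
    have h2 : ∃ e, V ∩ D ⊆ {e} := by
      rcases Nat.lt_or_ge (V ∩ D).card 1 with h3 | h3
      · refine ⟨f1, ?_⟩
        have h4 : V ∩ D = ∅ := by
          rw [← Finset.card_eq_zero]
          omega
        rw [h4]
        exact Finset.empty_subset _
      · obtain ⟨e, he⟩ := Finset.card_eq_one.mp (le_antisymm h1 h3)
        exact ⟨e, by rw [he]⟩
    obtain ⟨e, he⟩ := h2
    obtain ⟨G, hG, hGV, heG⟩ := hS0NC e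
    obtain ⟨x, hx⟩ := hD G hG
    rw [Finset.mem_inter] at hx
    have h5 := he (Finset.mem_inter.mpr ⟨hGV hx.1, hx.2⟩)
    rw [Finset.mem_singleton] at h5
    rw [h5] at hx
    exact heG hx.1
  obtain ⟨A, hA, B, hB, hAB⟩ := S11 (m.pent (ind V) hVw hVne 1 1 hp hq c1 c2 (by omega))
  have hAV : A ⊆ V := by
    intro x hx
    by_contra h1
    have h2 := hAB x
    rw [ind_apply_mem hx, ind_apply_not_mem h1] at h2
    omega
  have hBV : B ⊆ V := by
    intro x hx
    by_contra h1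
    have h2 := hAB x
    rw [ind_apply_mem hx, ind_apply_not_mem h1] at h2
    omega
  have hABd : ∀ x ∈ A, x ∉ B := by
    intro x hx hx'
    have h2 := hAB x
    rw [ind_apply_mem hx, ind_apply_mem hx', ind_apply_mem (hAV hx)] at h2
    omega
  have kap : ∀ s ∈ S0, ∀ G ∈ 𝒜 ∪ ℬ, G ⊆ V → s ∉ G → f1 ∈ G := by
    intro s hs G hG hGV hsG
    have h1 : ¬ NC (M1 ∪ N ∪ S0.erase s) := by
      intro h2
      have h3 := hmin (S0.erase s) (Finset.mem_filter.mpr ⟨Finset.mem_powerset.mpr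
        ((Finset.erase_subset s S0).trans hS0M), h2⟩)
      have h4 := Finset.card_erase_lt_of_mem hs
      omega
    rw [hNC] at h1
    push Not at h1
    obtain ⟨k, hk⟩ := h1
    have hk1 := hk M1 (Finset.mem_union_left _ hM1) (fun x hx =>
      Finset.mem_union_left _ (Finset.mem_union_left _ hx))
    have hk2 := hk N (Finset.mem_union_right _ hN) (fun x hx =>
      Finset.mem_union_left _ (Finset.mem_union_right _ hx))
    have hkf := hf1 k hk1 hk2
    rw [← hkf]
    refine hk G hG (fun x hx => ?_)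
    have h5 := hGV hx
    rw [hV, Finset.mem_union] at h5
    rw [Finset.mem_union]
    rcases h5 with h5 | h5
    · exact Or.inl h5
    · right
      refine Finset.mem_erase.mpr ⟨?_, h5⟩
      rintro rfl
      exact hsG hx
  obtain ⟨⟨x1, hx1B, hx1M⟩, ⟨x2, hx2B, hx2M⟩, hdB⟩ := V3 B hB (hBV.trans hVsub)
  have hdA : d ∉ A := fun h1 => hABd d h1 hdB
  by_cases hfA : f1 ∈ A
  · have hfB : f1 ∉ B := hABd f1 hfA
    have hSB : ∀ s ∈ S0, s ∈ B := by
      intro s hs
      by_contra h1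
      exact hfB (kap s hs B (Finset.mem_union_right _ hB) hBV h1)
    have hAsub : A ⊆ M1 ∪ {f2} := by
      intro x hx
      have h1 := hAV hx
      rw [hV, Finset.mem_union, Finset.mem_union] at h1
      rw [Finset.mem_union, Finset.mem_singleton]
      rcases h1 with (h1 | h1) | h1
      · exact Or.inl h1
      · rcases hNel x h1 with rfl | rfl | rfl
        · exact Or.inl hf1M
        · exact Or.inr rfl
        · exact absurd hx hdA
      · exact absurd (hSB x h1) (hABd x hx)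
    exact hABd x1 (V1 A hA hAsub hfA hx1M) hx1B
  · have hSA : ∀ s ∈ S0, s ∈ A := by
      intro s hs
      by_contra h1
      exact hfA (kap s hs A (Finset.mem_union_left _ hA) hAV h1)
    have hAsub : A ⊆ M1 ∪ M2 := by
      intro x hx
      have h1 := hAV hx
      rw [hV, Finset.mem_union, Finset.mem_union] at h1
      rw [Finset.mem_union]
      rcases h1 with (h1 | h1) | h1
      · exact Or.inl h1
      · rcases hNel x h1 with rfl | rfl | rfl
        · exact Or.inl hf1M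
        · exact Or.inr hf2M
        · exact absurd hx hdA
      · exact Or.inr (hS0M h1)
    have hf2A := V2 A hA hAsub hfA
    have h1 := hBV hx2B
    rw [hV, Finset.mem_union, Finset.mem_union] at h1
    rcases h1 with (h1 | h1) | h1
    · exact hdisj x2 h1 hx2M
    · rcases hNel x2 h1 with rfl | rfl | rfl
      · exact hdisj x2 hf1M hx2M
      · exact hABd x2 hf2A hx2B
      · exact hd2 hx2M
    · exact hABd x2 (hSA x2 h1) hx2B

end Pool.Agent.MFM
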