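import Pool.Agent.MFM.Viol

namespace Pool.Agent.MFM

open Finset

set_option linter.unusedSectionVars false

variable {E : Type*} [DecidableEq E] [Fintype E]

variable {𝒜 ℬ : Finset (Finset E)} {w : E → ℕ} {p q : ℕ}

/-- In a packing of `y0 + ind {e}` with more `ℬ`-members than fit in `y0`, some `ℬ`-member
contains `e` and the other members lie in `y0`. -/
theorem IsPk.split_right (hB : ∅ ∉ ℬ) {P Q : Multiset (Finset E)} {y0 : E → ℕ} {e : E}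
    (h : IsPk 𝒜 ℬ P Q (y0 + ind {e})) (hc : cn ℬ y0 < Multiset.card Q) :
    ∃ B Q', Q = B ::ₘ Q' ∧ e ∈ B ∧ IsPk 𝒜 ℬ P Q' y0 := by
  have h1 : ∃ B ∈ Q, e ∈ B := by
    by_contra hno
    push Not at hno
    have h2 : tot Q e = 0 := by
      by_contra h3
      obtain ⟨A, hA, heA⟩ := tot_pos (Nat.pos_of_ne_zero h3)
      exact hno A hA heA
    have h3 := card_le_cn hB Q h.hQ (x := y0) (by
      intro f
      by_cases hf : f = e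
      · rw [hf, h2]
        exact Nat.zero_le _
      · have h4 := h.hx f
        simp only [Pi.add_apply, ind, Finset.mem_singleton, hf, if_false] at h4
        omega)
    omega
  obtain ⟨B, hBQ, heB⟩ := h1
  obtain ⟨Q', hQ'⟩ := Multiset.exists_cons_of_mem hBQ
  refine ⟨B, Q', hQ', heB, ?_⟩
  rw [hQ'] at h
  refine ⟨h.hP, fun A hA => h.hQ A (Multiset.mem_cons_of_mem hA), ?_⟩
  intro f
  have h4 := h.hx f
  rw [tot_cons] at h4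
  by_cases hf : f = e
  · subst hf
    simp only [Pi.add_apply, ind, Finset.mem_singleton, heB, if_true] at h4
    omega
  · simp only [Pi.add_apply, ind, Finset.mem_singleton, hf, if_false] at h4
    omega

/-- Exchange lemma, first half. -/
theorem MinViol.lemXa (h : MinViol 𝒜 ℬ w p q) {x0 y0 R : E → ℕ} {e : E}
    (hw : x0 + ind {e} + (y0 + R) = w)
    (hx : x0 + ind {e} ≠ w) (hy : y0 + R ≠ w) (hx' : x0 + R ≠ w) (hy' : y0 + ind {e} ≠ w)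
    (t1 : cn (𝒜 ∪ ℬ) (x0 + ind {e}) + cn (𝒜 ∪ ℬ) (y0 + R) = p + q)
    (t2 : cn (𝒜 ∪ ℬ) (x0 + R) + cn (𝒜 ∪ ℬ) (y0 + ind {e}) = p + q)
    (hc : cn (𝒜 ∪ ℬ) (x0 + ind {e}) = cn (𝒜 ∪ ℬ) (x0 + R))
    (H : p + 1 ≤ cn 𝒜 (x0 + ind {e}) + cn 𝒜 (y0 + R))
    (L : cn 𝒜 (x0 + R) + cn 𝒜 (y0 + ind {e}) + 1 ≤ p) :
    cn 𝒜 y0 = 0 ∧ cn 𝒜 (x0 + ind {e}) = cn 𝒜 x0 + 1 ∧ cn ℬ (x0 + ind {e}) = cn ℬ x0 ∧
    cn ℬ (y0 + ind {e}) = cn ℬ y0 + 1 ∧ cn 𝒜 (y0 + ind {e}) = cn 𝒜 y0 ∧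
    cn 𝒜 x0 + cn 𝒜 y0 + 1 = p ∧ cn ℬ x0 + cn ℬ y0 + 1 = q ∧
    cn (𝒜 ∪ ℬ) (x0 + ind {e}) = cn 𝒜 x0 + cn ℬ x0 + 1 ∧
    cn (𝒜 ∪ ℬ) (y0 + ind {e}) = cn 𝒜 y0 + cn ℬ y0 + 1 ∧
    cn ℬ (y0 + R) = cn ℬ y0 ∧ cn 𝒜 (x0 + R) = cn 𝒜 x0 := by
  have hw' : x0 + R + (y0 + ind {e}) = w := by
    rw [← hw]
    funext f
    simp only [Pi.add_apply]
    omega
  have hU := not_mem_union h.hA h.hB
  have d1 := h.dich hw hx hy t1
  have d2 := h.dich hw' hx' hy' t2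
  have s1 := cn_single hU x0 e
  have s2 := cn_single hU y0 e
  have s3 := cn_single h.hA x0 e
  have s4 := cn_single h.hB y0 e
  have u1 := cn_union h.hA h.hB x0
  have u2 := cn_union h.hA h.hB y0
  have u3 := cn_union h.hA h.hB (x0 + ind {e})
  have u4 := cn_union h.hA h.hB (y0 + ind {e})
  have m1 : cn 𝒜 x0 ≤ cn 𝒜 (x0 + R) := cn_mono h.hA (fun f => by simp)
  have m2 : cn 𝒜 y0 ≤ cn 𝒜 (y0 + ind {e}) := cn_mono h.hA (fun f => by simp)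
  have m3 : cn ℬ x0 ≤ cn ℬ (x0 + ind {e}) := cn_mono h.hB (fun f => by simp)
  have m4 : cn ℬ y0 ≤ cn ℬ (y0 + R) := cn_mono h.hB (fun f => by simp)
  have u5 := cn_union h.hA h.hB (x0 + R)
  have E1 : cn 𝒜 (x0 + ind {e}) = cn 𝒜 x0 + 1 := by omega
  have E2 : cn ℬ (x0 + ind {e}) = cn ℬ x0 := by omega
  have E3 : cn ℬ (y0 + ind {e}) = cn ℬ y0 + 1 := by omega
  have E4 : cn 𝒜 (y0 + ind {e}) = cn 𝒜 y0 := by omega
  have E5 : cn 𝒜 x0 + cn 𝒜 y0 + 1 = p := by omega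
  have E6 : cn ℬ x0 + cn ℬ y0 + 1 = q := by omega
  have E7 : cn (𝒜 ∪ ℬ) (x0 + ind {e}) = cn 𝒜 x0 + cn ℬ x0 + 1 := by omega
  have E8 : cn (𝒜 ∪ ℬ) (y0 + ind {e}) = cn 𝒜 y0 + cn ℬ y0 + 1 := by omega
  refine ⟨?_, E1, E2, E3, E4, E5, E6, E7, E8, by omega, by omega⟩
  by_contra hk
  have hy'le : y0 + ind {e} ≤ w := le_of_add (y := x0 + R) (by rw [← hw', add_comm])
  obtain ⟨P, Q, hpk, hPc, hQc⟩ := h.pent (y0 + ind {e}) hy'le hy' (cn 𝒜 y0) (cn ℬ y0 + 1)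
    (by omega) (by omega) (by omega) (by omega) (by omega)
  obtain ⟨B, Q', hQ', heB, hpk'⟩ := hpk.split_right h.hB (by omega)
  have hPpos : P ≠ 0 := by
    intro h0
    rw [h0] at hPc
    simp at hPc
    omega
  obtain ⟨A1, hA1⟩ := Multiset.exists_mem_of_ne_zero hPpos
  obtain ⟨P', hP'⟩ := Multiset.exists_cons_of_mem hA1
  rw [hP'] at hpk hpk' hPc
  rw [Multiset.card_cons] at hPc
  obtain ⟨r2, hr2, hk2⟩ := hpk'.erase_left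
  obtain ⟨r3, hr3, hk3⟩ := hpk.erase_left
  have hA1mem : A1 ∈ 𝒜 := hpk.hP A1 (Multiset.mem_cons_self A1 P')
  have hr23 : r3 = r2 + ind {e} := by
    funext f
    have h1 := congrFun hr2 f
    have h2 := congrFun hr3 f
    simp only [Pi.add_apply] at h1 h2 ⊢
    omega
  have hQ'c : Multiset.card Q' = cn ℬ y0 := by
    rw [hQ', Multiset.card_cons] at hQc
    omega
  -- the weight `w - A1`
  set v := x0 + ind {e} + (r2 + R) with hv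
  have hvw : v + ind A1 = w := by
    rw [hv, ← hw, ← hr2]
    funext f
    simp only [Pi.add_apply]
    omega
  have hv' : v = x0 + R + r3 := by
    rw [hv, hr23]
    funext f
    simp only [Pi.add_apply]
    omega
  have hne1 : A1.Nonempty := by
    rw [Finset.nonempty_iff_ne_empty]
    rintro rfl
    exact h.hA hA1mem
  have hvne : v ≠ w := ne_of_add_ind hne1 hvw
  have a1 := hk2.left_le h.hA
  have a2 := hk3.right_le h.hB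
  have a3 := hk3.sum_le h.hA h.hB
  have b1 : cn 𝒜 (x0 + ind {e}) + cn 𝒜 r2 ≤ cn 𝒜 v := by
    refine (cn_add h.hA _ _).trans (cn_mono h.hA ?_)
    rw [hv]
    intro f
    simp only [Pi.add_apply]
    omega
  have b2 : cn ℬ (x0 + R) + cn ℬ r3 ≤ cn ℬ v := by
    rw [hv']
    exact cn_add h.hB _ _
  have b3 : cn (𝒜 ∪ ℬ) (x0 + R) + cn (𝒜 ∪ ℬ) r3 ≤ cn (𝒜 ∪ ℬ) v := by
    rw [hv']
    exact cn_add hU _ _
  have hS := h.pent v (le_of_add hvw) hvne (p - 1) q (by omega) le_rfl (by omega) (by omega)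
    (by omega)
  have hS2 := hS.add (S_ind_left (ℬ := ℬ) hA1mem)
  rw [hvw] at hS2
  have e1 : p - 1 + 1 = p := by omega
  rw [e1, Nat.add_zero] at hS2
  exact h.nS hS2

/-- Exchange lemma. -/
theorem MinViol.lemX (h : MinViol 𝒜 ℬ w p q) {x0 y0 R : E → ℕ} {e : E}
    (hw : x0 + ind {e} + (y0 + R) = w)
    (hx : x0 + ind {e} ≠ w) (hy : y0 + R ≠ w) (hx' : x0 + R ≠ w) (hy' : y0 + ind {e} ≠ w)
    (t1 : cn (𝒜 ∪ ℬ) (x0 + ind {e}) + cn (𝒜 ∪ ℬ) (y0 + R) = p + q)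
    (t2 : cn (𝒜 ∪ ℬ) (x0 + R) + cn (𝒜 ∪ ℬ) (y0 + ind {e}) = p + q)
    (hc : cn (𝒜 ∪ ℬ) (x0 + ind {e}) = cn (𝒜 ∪ ℬ) (x0 + R))
    (H : p + 1 ≤ cn 𝒜 (x0 + ind {e}) + cn 𝒜 (y0 + R))
    (L : cn 𝒜 (x0 + R) + cn 𝒜 (y0 + ind {e}) + 1 ≤ p) :
    cn 𝒜 y0 = 0 ∧ cn ℬ x0 = 0 ∧ cn 𝒜 x0 + 1 = p ∧ cn ℬ y0 + 1 = q ∧
    cn (𝒜 ∪ ℬ) (x0 + ind {e}) = p ∧ cn (𝒜 ∪ ℬ) (y0 + R) = q ∧
    cn 𝒜 (x0 + ind {e}) = p ∧ cn ℬ (x0 + ind {e}) = 0 ∧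
    cn 𝒜 (y0 + ind {e}) = 0 ∧ cn ℬ (y0 + ind {e}) = q ∧
    cn ℬ (y0 + R) + 1 = q ∧ cn 𝒜 (x0 + R) + 1 = p := by
  have hw' : x0 + R + (y0 + ind {e}) = w := by
    rw [← hw]
    funext f
    simp only [Pi.add_apply]
    omega
  obtain ⟨k0, E1, E2, E3, E4, E5, E6, E7, E8, E9, E10⟩ :=
    h.lemXa hw hx hy hx' hy' t1 t2 hc H L
  have d1 := h.dich hw hx hy t1
  have d2 := h.dich hw' hx' hy' t2
  have hwY : y0 + ind {e} + (x0 + R) = w := by rw [← hw', add_comm]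
  have c1 : cn (ℬ ∪ 𝒜) (y0 + ind {e}) + cn (ℬ ∪ 𝒜) (x0 + R) = q + p := by
    rw [Finset.union_comm ℬ 𝒜]
    omega
  have c2 : cn (ℬ ∪ 𝒜) (y0 + R) + cn (ℬ ∪ 𝒜) (x0 + ind {e}) = q + p := by
    rw [Finset.union_comm ℬ 𝒜]
    omega
  have c3 : cn (ℬ ∪ 𝒜) (y0 + ind {e}) = cn (ℬ ∪ 𝒜) (y0 + R) := by
    rw [Finset.union_comm ℬ 𝒜]
    omega
  obtain ⟨j0, -⟩ := h.symm.lemXa hwY hy' hx' hy hx c1 c2 c3 (by omega) (by omega)
  exact ⟨k0, j0, by omega, by omega, by omega, by omega, by omega, by omega, by omega, by omega,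
    by omega, by omega⟩

end Pool.Agent.MFM
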