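import Pool.Agent.MFM.PairLem
import Pool.Agent.MFM.Cor

namespace Pool.Agent.MFM

open Finset

set_option linter.unusedSectionVars false

variable {E : Type*} [DecidableEq E] [Fintype E]
variable {C : Finset (Finset E)} {u v : E}

theorem Cov.mono_union_left {F G : Finset (Finset E)} {D : Finset E} (h : Cov (F ∪ G) D) :
    Cov F D := fun A hA => h A (Finset.mem_union_left _ hA)

theorem Cov.mono_union_right {F G : Finset (Finset E)} {D : Finset E} (h : Cov (F ∪ G) D) :
    Cov G D := fun A hA => h A (Finset.mem_union_right _ hA)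

/-- The weight with prescribed values at `u` and `v`. -/
def glue (a b : ℕ) (x : E → ℕ) (u v : E) : E → ℕ :=
  fun e => if e = u then a else if e = v then b else x e

theorem glue_u (a b : ℕ) (x : E → ℕ) (u v : E) : glue a b x u v u = a := by simp [glue]

theorem glue_v (a b : ℕ) (x : E → ℕ) {u v : E} (h : u ≠ v) : glue a b x u v v = b := by
  simp [glue, h.symm]

theorem res_glue (a b : ℕ) (x : E → ℕ) {u v : E} (hu : x u = 0) (hv : x v = 0) :
    res (glue a b x u v) u v = x := by
  funext e
  unfold res glue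
  by_cases h1 : e = u
  · simp [h1, hu]
  · by_cases h2 : e = v
    · simp [h2, hv]
    · simp [h1, h2]

theorem le_res_u {W x : E → ℕ} {u v : E} (hx : x ≤ res W u v) : x u = 0 := by
  have h1 : x u ≤ res W u v u := hx u
  rw [res_u] at h1
  omega

theorem le_res_v {W x : E → ℕ} {u v : E} (hx : x ≤ res W u v) : x v = 0 := by
  have h1 : x v ≤ res W u v v := hx v
  rw [res_v] at h1
  omega

theorem packing_mono {W W' : E → ℕ} (h : W' ≤ W) {P : Multiset (Finset E)}
    (hP : IsPacking C W' P) : IsPacking C W P :=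
  ⟨hP.1, fun e => (hP.2 e).trans (h e)⟩

/-- The empty set is in neither part. -/
theorem Pair.empty_left (h : Pair C u v) (hCv : MFMC (minor C ∅ {v})) {W : E → ℕ} {k : ℕ}
    (hk : ∀ B, IsCover C B → k ≤ wt W B)
    (hno : ¬ ∃ P, IsPacking C W P ∧ Multiset.card P = k) : ∅ ∉ part C u := by
  intro hE
  obtain ⟨c1, c2, c3, c4⟩ := h.cov hk
  obtain ⟨i, j, hi, hij, P, Q, hpk, hP, hQ⟩ := h.contract hCv (res_u W u v) c2 c4
  -- `m` copies of `∅` and `k - m` members of `part C v`
  set m := min (W u) k with hm
  obtain ⟨Q', hQ', hQc⟩ := exists_le_card Q (k := k - m) (by omega)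
  have hS : S (part C u) (part C v) m (k - m) (res W u v) := by
    refine ⟨Multiset.replicate m ∅, Q', ⟨?_, ?_, ?_⟩, by simp, hQc⟩
    · intro A hA
      rw [Multiset.eq_of_mem_replicate hA]
      exact hE
    · intro A hA
      exact hpk.hQ A (Multiset.mem_of_le hQ' hA)
    · intro e
      have h1 : tot (Multiset.replicate m (∅ : Finset E)) e = 0 := by
        unfold tot
        rw [Multiset.countP_eq_zero]
        intro A hA
        rw [Multiset.eq_of_mem_replicate hA]
        exact Finset.notMem_empty e
      have h2 : tot Q' e ≤ tot Q e := Multiset.countP_le_of_le _ hQ'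
      have h3 := hpk.hx e
      omega
  obtain ⟨P2, hP2, hc2⟩ := h.packing_of_S (W := W) (by omega) (by omega) hS
  exact hno ⟨P2, hP2, by omega⟩

theorem Pair.contract' (h : Pair C u v) (hM : MFMC (minor C ∅ {u})) {x : E → ℕ} (hv : x v = 0)
    {b k : ℕ} (h1 : ∀ D, Cov (part C u) D → k ≤ b + wt x D)
    (h2 : ∀ D, Cov (part C u ∪ part C v) D → k ≤ wt x D) :
    ∃ i j, j ≤ b ∧ i + j = k ∧ S (part C u) (part C v) i j x := by
  obtain ⟨j, i, h3, h4, h5⟩ := h.symm.contract hM hv h1 (by
    intro D hD
    rw [Finset.union_comm] at hD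
    exact h2 D hD)
  exact ⟨i, j, h3, by omega, h5.symm⟩

theorem cn_zero {F : Finset (Finset E)} (h : ∅ ∉ F) : cn F 0 = 0 := by
  obtain ⟨D, hD, hx⟩ := exists_cov h (0 : E → ℕ)
  rw [← hx]
  simp [wt]

/-- A componentwise minimal violating weight gives a minimal violation. -/
theorem Pair.minViol (h : Pair C u v) (hCu : MFMC (minor C ∅ {u})) (hCv : MFMC (minor C ∅ {v}))
    {W : E → ℕ} {k : ℕ} (hk : ∀ B, IsCover C B → k ≤ wt W B)
    (hno : ¬ ∃ P, IsPacking C W P ∧ Multiset.card P = k)
    (hmin : ∀ W' ≤ W, W' ≠ W → ∀ k', (∀ B, IsCover C B → k' ≤ wt W' B) →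
      ∃ P, IsPacking C W' P ∧ Multiset.card P = k') :
    W u + W v = k ∧ MinViol (part C u) (part C v) (res W u v) (W u) (W v) := by
  have hE1 := h.empty_left hCv hk hno
  have hE2 := h.symm.empty_left hCu hk hno
  have hU := not_mem_union hE1 hE2
  obtain ⟨c1, c2, c3, c4⟩ := h.cov hk
  obtain ⟨D2, hD2, hx2⟩ := exists_cov hE2 (res W u v)
  obtain ⟨D3, hD3, hx3⟩ := exists_cov hE1 (res W u v)
  obtain ⟨D4, hD4, hx4⟩ := exists_cov hU (res W u v)
  have k2 := c2 D2 hD2
  have k3 := c3 D3 hD3
  have k4 := c4 D4 hD4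
  rw [hx2] at k2
  rw [hx3] at k3
  rw [hx4] at k4
  have hab := cn_union hE1 hE2 (res W u v)
  -- minimality at the level of `S`
  have hS : ∀ (x : E → ℕ) (a b : ℕ), x ≤ res W u v → a ≤ W u → b ≤ W v →
      glue a b x u v ≠ W → a ≤ cn (part C u) x → b ≤ cn (part C v) x →
      a + b ≤ cn (part C u ∪ part C v) x → S (part C u) (part C v) a b x := by
    intro x a b hx ha hb hne h1 h2 h3
    have hxu : x u = 0 := le_res_u hx
    have hxv : x v = 0 := le_res_v hx
    have hle : glue a b x u v ≤ W := by
      intro e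
      unfold glue
      by_cases e1 : e = u
      · rw [if_pos e1, e1]
        exact ha
      · by_cases e2 : e = v
        · rw [if_neg e1, if_pos e2, e2]
          exact hb
        · rw [if_neg e1, if_neg e2, ← res_of W e1 e2]
          exact hx e
    obtain ⟨P, hP, hPc⟩ := hmin _ hle hne (a + b) (by
      refine h.cov_of ?_ ?_ ?_ ?_
      · rw [glue_u, glue_v _ _ _ h.ne]
      · intro D hD
        rw [glue_u, res_glue a b x hxu hxv]
        have := cn_le hD x
        omega
      · intro D hD
        rw [glue_v _ _ _ h.ne, res_glue a b x hxu hxv]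
        have := cn_le hD x
        omega
      · intro D hD
        rw [res_glue a b x hxu hxv]
        have := cn_le hD x
        omega)
    obtain ⟨i, j, hi, hj, hij, hSij⟩ := h.S_of_packing hP
    rw [glue_u] at hi
    rw [glue_v _ _ _ h.ne] at hj
    rw [res_glue a b x hxu hxv] at hSij
    have e1 : i = a := by omega
    have e2 : j = b := by omega
    rw [e1, e2] at hSij
    exact hSij
  have hglue : glue (W u) (W v) (res W u v) u v = W := by
    funext e
    unfold glue
    by_cases e1 : e = u
    · rw [if_pos e1, e1]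
    · by_cases e2 : e = v
      · rw [if_neg e1, if_pos e2, e2]
      · rw [if_neg e1, if_neg e2, res_of W e1 e2]
  have hnoS : ∀ i j, i ≤ W u → j ≤ W v → i + j = k →
      ¬ S (part C u) (part C v) i j (res W u v) := by
    intro i j hi hj hij hSij
    obtain ⟨P, hP, hc⟩ := h.packing_of_S hi hj hSij
    exact hno ⟨P, hP, by omega⟩
  -- `W u + W v = k`, `W u ≤ α`, `W v ≤ β`
  have hpq : W u + W v = k ∧ W u ≤ cn (part C u) (res W u v) ∧
      W v ≤ cn (part C v) (res W u v) := by
    set a := min (min (W u) (cn (part C u) (res W u v))) k with ha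
    set b := k - a with hb
    by_cases hne : glue a b (res W u v) u v = W
    · have e1 : a = W u := by
        have := congrFun hne u
        rw [glue_u] at this
        exact this
      have e2 : b = W v := by
        have := congrFun hne v
        rw [glue_v _ _ _ h.ne] at this
        exact this
      exact ⟨by omega, by omega, by omega⟩
    · exfalso
      have := hS (res W u v) a b le_rfl (by omega) (by omega) hne (by omega) (by omega)
        (by omega)
      exact hnoS _ _ (by omega) (by omega) (by omega) this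
  obtain ⟨hsum, hpa, hqb⟩ := hpq
  obtain ⟨i1, j1, hi1, hij1, hS1⟩ := h.contract hCv (res_u W u v) c2 c4
  obtain ⟨i2, j2, hj2, hij2, hS2⟩ := h.contract' hCu (res_v W u v) c3 c4
  have hnS : ¬ S (part C u) (part C v) (W u) (W v) (res W u v) :=
    hnoS _ _ le_rfl le_rfl hsum
  have hlow : i1 < W u := by
    rcases Nat.lt_or_ge i1 (W u) with h1 | h1
    · exact h1
    · exfalso
      have e1 : i1 = W u := by omega
      have e2 : j1 = W v := by omega
      rw [e1, e2] at hS1
      exact hnS hS1
  have hhigh : W u < i2 := by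
    rcases Nat.lt_or_ge (W u) i2 with h1 | h1
    · exact h1
    · exfalso
      have e1 : i2 = W u := by omega
      have e2 : j2 = W v := by omega
      rw [e1, e2] at hS2
      exact hnS hS2
  have hpa' : W u < cn (part C u) (res W u v) := by
    have := hS2.left_le hE1
    omega
  have hqb' : W v < cn (part C v) (res W u v) := by
    have := hS1.right_le hE2
    omega
  refine ⟨hsum, hE1, hE2, ?_, hnS, ?_, hpa', hqb', ⟨i2, j2, hhigh, by omega, hS2⟩,
    ⟨i1, j1, hlow, by omega, hS1⟩⟩
  · intro x hx hne a b ha hb h1 h2 h3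
    refine hS x a b hx ha hb ?_ h1 h2 h3
    intro h4
    apply hne
    have hxu : x u = 0 := le_res_u hx
    have hxv : x v = 0 := le_res_v hx
    rw [← res_glue a b x hxu hxv, h4]
  · by_contra hcon
    have hlt : k + 1 ≤ cn (part C u ∪ part C v) (res W u v) := by omega
    have hne0 : (0 : E → ℕ) ≠ res W u v := by
      intro h0
      rw [← h0, cn_zero hU] at hlt
      omega
    obtain ⟨e, y, -, hy⟩ := exists_lt (w := res W u v) (x := 0) (by intro e; simp) hne0
    have s1 := cn_single hE1 y e
    have s2 := cn_single hE2 y e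
    have s3 := cn_single hU y e
    rw [hy] at s1 s2 s3
    have hyw := le_of_add hy
    have hyne : y ≠ res W u v := ne_of_add_ind (Finset.singleton_nonempty e) hy
    have := hS y (W u) (W v) hyw le_rfl le_rfl (by
      intro h4
      apply hyne
      have hyu : y u = 0 := le_res_u hyw
      have hyv : y v = 0 := le_res_v hyw
      rw [← res_glue (W u) (W v) y hyu hyv, h4]) (by omega) (by omega) (by omega)
    exact hnS (this.mono hyw)

/-- Deletion minors: every element has positive weight. -/
theorem pos_of_min {W : E → ℕ} {k : ℕ} (hdel : ∀ e, MFMC (minor C {e} ∅))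
    (hk : ∀ B, IsCover C B → k ≤ wt W B)
    (hno : ¬ ∃ P, IsPacking C W P ∧ Multiset.card P = k) (e : E) : 0 < W e := by
  by_contra he
  have he0 : W e = 0 := by omega
  obtain ⟨P, hP, hc⟩ := mfmc_packing (hdel e) (w := W) (k := k) (by
    intro D hD
    have h1 := hk (insert e D) (by
      intro A hA
      by_cases heA : e ∈ A
      · exact ⟨e, by simp [heA]⟩
      · have h2 : A ∈ minorSets C {e} ∅ := by
          unfold minorSets
          rw [Finset.mem_image]
          refine ⟨A, Finset.mem_filter.mpr ⟨hA, ?_⟩, by simp⟩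
          rw [Finset.inter_singleton_of_notMem heA]
        obtain ⟨f, hf⟩ := cover_minorSets hD h2
        rw [Finset.mem_inter] at hf
        exact ⟨f, Finset.mem_inter.mpr ⟨hf.1, Finset.mem_insert_of_mem hf.2⟩⟩)
    refine h1.trans ?_
    unfold wt
    by_cases heD : e ∈ D
    · rw [Finset.insert_eq_of_mem heD]
    · rw [Finset.sum_insert heD, he0, Nat.zero_add])
  refine hno ⟨P, ⟨fun A hA => ?_, hP.2⟩, hc⟩
  have h1 := hP.1 A hA
  unfold minor at h1
  rw [Finset.mem_filter] at h1
  have h2 := h1.1
  unfold minorSets at h2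
  rw [Finset.mem_image] at h2
  obtain ⟨B, hB, rfl⟩ := h2
  rw [Finset.sdiff_empty]
  exact (Finset.mem_filter.mp hB).1

/-- Contraction minors: every element has weight less than `k`. -/
theorem lt_of_min {W : E → ℕ} {k : ℕ} (hcon : ∀ e, MFMC (minor C ∅ {e}))
    (hk : ∀ B, IsCover C B → k ≤ wt W B)
    (hno : ¬ ∃ P, IsPacking C W P ∧ Multiset.card P = k) (e : E) : W e < k := by
  by_contra he
  push Not at he
  obtain ⟨P, hP, hc⟩ := mfmc_packing (hcon e) (w := W) (k := k) (by
    intro D hD
    have h1 := hk (D.erase e) (by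
      intro A hA
      have h2 : A \ {e} ∈ minorSets C ∅ {e} := by
        unfold minorSets
        rw [Finset.mem_image]
        exact ⟨A, Finset.mem_filter.mpr ⟨hA, by simp⟩, rfl⟩
      obtain ⟨f, hf⟩ := cover_minorSets hD h2
      rw [Finset.mem_inter, Finset.mem_sdiff, Finset.mem_singleton] at hf
      exact ⟨f, Finset.mem_inter.mpr ⟨hf.1.1, Finset.mem_erase.mpr ⟨hf.1.2, hf.2⟩⟩⟩)
    refine h1.trans ?_
    unfold wt
    exact Finset.sum_le_sum_of_subset (Finset.erase_subset e D))
  -- choose preimages
  have hpre : ∀ M ∈ P, ∃ A ∈ C, A \ {e} = M := by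
    intro M hM
    have h1 := hP.1 M hM
    unfold minor at h1
    rw [Finset.mem_filter] at h1
    have h2 := h1.1
    unfold minorSets at h2
    rw [Finset.mem_image] at h2
    obtain ⟨B, hB, hBM⟩ := h2
    exact ⟨B, (Finset.mem_filter.mp hB).1, hBM⟩
  classical
  let g : Finset E → Finset E := fun M =>
    if hM : ∃ A ∈ C, A \ {e} = M then hM.choose else ∅
  have hg : ∀ M ∈ P, g M ∈ C ∧ g M \ {e} = M := by
    intro M hM
    have h1 := hpre M hM
    have h2 : g M = h1.choose := by
      show (if hM : ∃ A ∈ C, A \ {e} = M then hM.choose else ∅) = _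
      rw [dif_pos h1]
    rw [h2]
    exact h1.choose_spec
  refine hno ⟨P.map g, ⟨?_, ?_⟩, by rw [Multiset.card_map, hc]⟩
  · intro A hA
    rw [Multiset.mem_map] at hA
    obtain ⟨M, hM, rfl⟩ := hA
    exact (hg M hM).1
  · intro f
    by_cases hf : f = e
    · subst hf
      refine (Multiset.countP_le_card _ _).trans ?_
      rw [Multiset.card_map, hc]
      exact he
    · refine le_trans (le_of_eq ?_) (hP.2 f)
      rw [Multiset.countP_map, ← Multiset.countP_eq_card_filter]
      refine Multiset.countP_congr rfl (fun M hM => ?_)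
      have h1 := (hg M hM).2
      refine propext ⟨fun h2 => ?_, fun h2 => ?_⟩
      · rw [← h1, Finset.mem_sdiff, Finset.mem_singleton]
        exact ⟨h2, hf⟩
      · rw [← h1, Finset.mem_sdiff] at h2
        exact h2.1

theorem del_of_min (hmin : MinNonMFMC C) (e : E) : MFMC (minor C {e} ∅) :=
  hmin.2 {e} ∅ (Finset.disjoint_empty_right _) (by simp)

theorem con_of_min (hmin : MinNonMFMC C) (e : E) : MFMC (minor C ∅ {e}) :=
  hmin.2 ∅ {e} (Finset.disjoint_empty_left _) (by simp)

/-- The size bound for counterexamples to Q1. -/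
theorem size_bound (hmin : MinNonMFMC C) (hpair : Pair C u v) {W : E → ℕ}
    (hW : nu C W < tau C W) (hWmin : ∀ W' ≤ W, W' ≠ W → nu C W' = tau C W') :
    (W = 1 ∧ tau C W = 2) ∨
    (3 ≤ tau C W ∧ 4 * tau C W ≤ ((∑ e, W e : ℕ) : ℕ∞)) := by
  obtain ⟨k, hk, hno⟩ := exists_viol hW
  have hmin' : ∀ W' ≤ W, W' ≠ W → ∀ k', (∀ B, IsCover C B → k' ≤ wt W' B) →
      ∃ P, IsPacking C W' P ∧ Multiset.card P = k' := by
    intro W' h1 h2 k' hk'
    refine exists_packing ?_
    rw [hWmin W' h1 h2]
    exact le_tau hk'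
  obtain ⟨hsum, hV⟩ := hpair.minViol (con_of_min hmin u) (con_of_min hmin v) hk hno hmin'
  have htau : tau C W = (k : ℕ) := by
    refine le_antisymm ?_ (le_tau hk)
    have h1 : IsCover C {u, v} := by
      intro A hA
      rcases hpair.h A hA with h1 | h1
      · exact ⟨u, by simp [h1.1]⟩
      · exact ⟨v, by simp [h1.2]⟩
    refine (tau_le h1).trans ?_
    have h2 : wt W {u, v} = k := by
      unfold wt
      rw [Finset.sum_pair hpair.ne, hsum]
    rw [h2]
  have hp := hV.p_pos
  have hq := hV.q_pos
  rcases Nat.lt_or_ge k 3 with hk3 | hk3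
  · left
    have hk2 : k = 2 := by omega
    refine ⟨?_, by rw [htau, hk2]; rfl⟩
    funext e
    have h1 := pos_of_min (fun e => del_of_min hmin e) hk hno e
    have h2 := lt_of_min (fun e => con_of_min hmin e) hk hno e
    show W e = 1
    omega
  · right
    have hb := hV.bound (by omega)
    have h1 : ∑ e, W e = W u + W v + ∑ e, res W u v e := by
      have := wt_eq W hpair.ne Finset.univ
      unfold wt at this
      simpa using this
    rw [htau]
    constructor
    · exact_mod_cast hk3
    · have h2 : 4 * k ≤ ∑ e, W e := by omega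
      exact_mod_cast h2

end Pool.Agent.MFM
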