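import Pool.Agent.MFM.Red

namespace Pool.Agent.MFM

open Finset

set_option linter.unusedSectionVars false

variable {E : Type*} [DecidableEq E] [Fintype E]

/-- `{u,v}` is a complementary pair. -/
structure Pair (C : Finset (Finset E)) (u v : E) : Prop where
  ne : u ≠ v
  h : ∀ A ∈ C, (u ∈ A ∧ v ∉ A) ∨ (u ∉ A ∧ v ∈ A)

theorem Pair.symm {C : Finset (Finset E)} {u v : E} (h : Pair C u v) : Pair C v u :=
  ⟨h.ne.symm, fun A hA => by have := h.h A hA; tauto⟩

theorem pair_of_card {C : Finset (Finset E)} {u v : E} (huv : u ≠ v)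
    (h : ∀ A ∈ C, (A ∩ {u, v}).card = 1) : Pair C u v := by
  refine ⟨huv, fun A hA => ?_⟩
  have h1 := h A hA
  by_cases hu : u ∈ A <;> by_cases hv : v ∈ A
  · exfalso
    have h2 : A ∩ {u, v} = {u, v} := by
      rw [Finset.inter_eq_right]
      intro x hx
      rw [Finset.mem_insert, Finset.mem_singleton] at hx
      rcases hx with rfl | rfl
      · exact hu
      · exact hv
    rw [h2, Finset.card_pair huv] at h1
    omega
  · exact Or.inl ⟨hu, hv⟩
  · exact Or.inr ⟨hu, hv⟩
  · exfalso
    have h2 : A ∩ {u, v} = ∅ := by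
      rw [Finset.eq_empty_iff_forall_notMem]
      intro x hx
      rw [Finset.mem_inter, Finset.mem_insert, Finset.mem_singleton] at hx
      rcases hx with ⟨hx1, rfl | rfl⟩
      · exact hu hx1
      · exact hv hx1
    rw [h2, Finset.card_empty] at h1
    omega

/-- The weight `W` with the values at `u`, `v` replaced by `0`. -/
def res (W : E → ℕ) (u v : E) : E → ℕ := fun e => if e = u ∨ e = v then 0 else W e

theorem res_u (W : E → ℕ) (u v : E) : res W u v u = 0 := by simp [res]

theorem res_v (W : E → ℕ) (u v : E) : res W u v v = 0 := by simp [res]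

theorem res_of (W : E → ℕ) {u v e : E} (h1 : e ≠ u) (h2 : e ≠ v) : res W u v e = W e := by
  simp [res, h1, h2]

theorem res_symm (W : E → ℕ) (u v : E) : res W u v = res W v u := by
  funext e
  unfold res
  congr 1
  exact propext or_comm

theorem wt_update (x : E → ℕ) (u : E) (a : ℕ) (hx : x u = 0) (D : Finset E) :
    wt (fun e => if e = u then a else x e) D = (if u ∈ D then a else 0) + wt x D := by
  have h1 : (fun e => if e = u then a else x e) = (fun e => (if e = u then a else 0) + x e) := by
    funext e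
    by_cases he : e = u
    · subst he
      simp [hx]
    · simp [he]
  rw [h1]
  unfold wt
  rw [Finset.sum_add_distrib]
  congr 1
  rw [Finset.sum_ite_eq']

theorem wt_eq (W : E → ℕ) {u v : E} (huv : u ≠ v) (D : Finset E) :
    wt W D = (if u ∈ D then W u else 0) + (if v ∈ D then W v else 0) + wt (res W u v) D := by
  have h2 : W = fun e => (if e = u then W u else 0) + (if e = v then W v else 0) +
      res W u v e := by
    funext e
    by_cases he : e = u
    · subst he
      rw [if_pos rfl, if_neg huv, res_u]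
      omega
    · by_cases he' : e = v
      · subst he'
        rw [if_neg he, if_pos rfl, res_v]
        omega
      · rw [if_neg he, if_neg he', res_of W he he']
        omega
  conv_lhs => rw [h2]
  unfold wt
  rw [Finset.sum_add_distrib, Finset.sum_add_distrib, Finset.sum_ite_eq', Finset.sum_ite_eq']

section

variable {C : Finset (Finset E)} {u v : E}

theorem Pair.left (h : Pair C u v) {A : Finset E} (hA : A ∈ part C u) :
    u ∉ A ∧ v ∉ A ∧ insert u A ∈ C := by
  rw [mem_part] at hA
  refine ⟨hA.1, ?_, hA.2⟩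
  intro hv
  have := h.h _ hA.2
  rcases this with h1 | h1
  · exact h1.2 (Finset.mem_insert_of_mem hv)
  · exact h1.1 (Finset.mem_insert_self u A)

theorem Pair.right (h : Pair C u v) {A : Finset E} (hA : A ∈ part C v) :
    u ∉ A ∧ v ∉ A ∧ insert v A ∈ C := by
  obtain ⟨h1, h2, h3⟩ := h.symm.left hA
  exact ⟨h2, h1, h3⟩

theorem Pair.erase_left (_h : Pair C u v) {A : Finset E} (hA : A ∈ C) (hu : u ∈ A) :
    A.erase u ∈ part C u := by
  rw [mem_part]
  exact ⟨Finset.notMem_erase u A, by rw [Finset.insert_erase hu]; exact hA⟩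

theorem inter_insert_nonempty {A D : Finset E} {u : E} (h : (insert u A ∩ D).Nonempty)
    (hu : u ∉ D) : (A ∩ D).Nonempty := by
  obtain ⟨e, he⟩ := h
  rw [Finset.mem_inter, Finset.mem_insert] at he
  rcases he with ⟨rfl | h1, h2⟩
  · exact absurd h2 hu
  · exact ⟨e, Finset.mem_inter.mpr ⟨h1, h2⟩⟩

/-- Cover conditions. -/
theorem Pair.cov (h : Pair C u v) {W : E → ℕ} {k : ℕ} (hk : ∀ B, IsCover C B → k ≤ wt W B) :
    k ≤ W u + W v ∧ (∀ D, Cov (part C v) D → k ≤ W u + wt (res W u v) D) ∧
    (∀ D, Cov (part C u) D → k ≤ W v + wt (res W u v) D) ∧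
    (∀ D, Cov (part C u ∪ part C v) D → k ≤ wt (res W u v) D) := by
  have hwt : ∀ D : Finset E, u ∉ D → v ∉ D → wt W D = wt (res W u v) D := by
    intro D h1 h2
    rw [wt_eq W h.ne, if_neg h1, if_neg h2]
    omega
  have hD : ∀ D : Finset E, u ∉ D \ {u, v} ∧ v ∉ D \ {u, v} ∧
      wt (res W u v) (D \ {u, v}) ≤ wt (res W u v) D := by
    intro D
    refine ⟨by simp, by simp, ?_⟩
    exact Finset.sum_le_sum_of_subset Finset.sdiff_subset
  have key : ∀ (D A : Finset E), u ∉ A → v ∉ A → (A ∩ D).Nonempty →
      (A ∩ (D \ {u, v})).Nonempty := by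
    intro D A h1 h2 h3
    obtain ⟨e, he⟩ := h3
    rw [Finset.mem_inter] at he
    refine ⟨e, ?_⟩
    rw [Finset.mem_inter, Finset.mem_sdiff, Finset.mem_insert, Finset.mem_singleton]
    refine ⟨he.1, he.2, ?_⟩
    rintro (rfl | rfl)
    · exact h1 he.1
    · exact h2 he.1
  refine ⟨?_, ?_, ?_, ?_⟩
  · have h1 := hk {u, v} (by
      intro A hA
      rcases h.h A hA with h1 | h1
      · exact ⟨u, by simp [h1.1]⟩
      · exact ⟨v, by simp [h1.2]⟩)
    rw [wt_eq W h.ne] at h1
    have h2 : wt (res W u v) {u, v} = 0 := by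
      unfold wt
      rw [Finset.sum_pair h.ne, res_u, res_v]
    rw [h2] at h1
    simpa using h1
  · intro D hDc
    obtain ⟨g1, g2, g3⟩ := hD D
    have h1 := hk (insert u (D \ {u, v})) (by
      intro A hA
      rcases h.h A hA with h1 | h1
      · exact ⟨u, by simp [h1.1]⟩
      · have h2 := h.symm.erase_left hA h1.2
        obtain ⟨e, he⟩ := key D _ (by simp [h1.1]) (by simp) (hDc _ h2)
        rw [Finset.mem_inter] at he
        exact ⟨e, Finset.mem_inter.mpr ⟨Finset.mem_of_mem_erase he.1,
          Finset.mem_insert_of_mem he.2⟩⟩)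
    have h2 : wt W (insert u (D \ {u, v})) = W u + wt W (D \ {u, v}) := by
      unfold wt
      rw [Finset.sum_insert g1]
    rw [h2, hwt _ g1 g2] at h1
    omega
  · intro D hDc
    obtain ⟨g1, g2, g3⟩ := hD D
    have h1 := hk (insert v (D \ {u, v})) (by
      intro A hA
      rcases h.h A hA with h1 | h1
      · have h2 := h.erase_left hA h1.1
        obtain ⟨e, he⟩ := key D _ (by simp) (by simp [h1.2]) (hDc _ h2)
        rw [Finset.mem_inter] at he
        exact ⟨e, Finset.mem_inter.mpr ⟨Finset.mem_of_mem_erase he.1,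
          Finset.mem_insert_of_mem he.2⟩⟩
      · exact ⟨v, by simp [h1.2]⟩)
    have h2 : wt W (insert v (D \ {u, v})) = W v + wt W (D \ {u, v}) := by
      unfold wt
      rw [Finset.sum_insert g2]
    rw [h2, hwt _ g1 g2] at h1
    omega
  · intro D hDc
    obtain ⟨g1, g2, g3⟩ := hD D
    have h1 := hk (D \ {u, v}) (by
      intro A hA
      rcases h.h A hA with h1 | h1
      · have h2 := h.erase_left hA h1.1
        obtain ⟨e, he⟩ := key D _ (by simp) (by simp [h1.2])
          (hDc _ (Finset.mem_union_left _ h2))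
        rw [Finset.mem_inter] at he
        exact ⟨e, Finset.mem_inter.mpr ⟨Finset.mem_of_mem_erase he.1, he.2⟩⟩
      · have h2 := h.symm.erase_left hA h1.2
        obtain ⟨e, he⟩ := key D _ (by simp [h1.1]) (by simp)
          (hDc _ (Finset.mem_union_right _ h2))
        rw [Finset.mem_inter] at he
        exact ⟨e, Finset.mem_inter.mpr ⟨Finset.mem_of_mem_erase he.1, he.2⟩⟩)
    rw [hwt _ g1 g2] at h1
    omega

/-- Converse of `Pair.cov`. -/
theorem Pair.cov_of (h : Pair C u v) {W : E → ℕ} {k : ℕ} (h1 : k ≤ W u + W v)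
    (h2 : ∀ D, Cov (part C v) D → k ≤ W u + wt (res W u v) D)
    (h3 : ∀ D, Cov (part C u) D → k ≤ W v + wt (res W u v) D)
    (h4 : ∀ D, Cov (part C u ∪ part C v) D → k ≤ wt (res W u v) D) :
    ∀ B, IsCover C B → k ≤ wt W B := by
  intro B hB
  rw [wt_eq W h.ne]
  have cu : u ∉ B → Cov (part C u) B := by
    intro hu A hA
    obtain ⟨g1, g2, g3⟩ := h.left hA
    exact inter_insert_nonempty (hB _ g3) hu
  have cv : v ∉ B → Cov (part C v) B := by
    intro hv A hA
    obtain ⟨g1, g2, g3⟩ := h.right hA
    exact inter_insert_nonempty (hB _ g3) hv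
  by_cases hu : u ∈ B <;> by_cases hv : v ∈ B
  · rw [if_pos hu, if_pos hv]
    omega
  · rw [if_pos hu, if_neg hv]
    have := h2 B (cv hv)
    omega
  · rw [if_neg hu, if_pos hv]
    have := h3 B (cu hu)
    omega
  · rw [if_neg hu, if_neg hv]
    have := h4 B (by
      intro A hA
      rcases Finset.mem_union.mp hA with h5 | h5
      · exact cu hu A h5
      · exact cv hv A h5)
    omega

theorem tot_map_erase (P : Multiset (Finset E)) (u e : E) :
    tot (P.map (fun A => A.erase u)) e = if e = u then 0 else tot P e := by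
  induction P using Multiset.induction_on with
  | empty => simp [tot_zero]
  | cons A P ih =>
    rw [Multiset.map_cons, tot_cons, tot_cons, ih]
    by_cases he : e = u
    · subst he
      simp [ind]
    · simp [ind, he]

theorem tot_map_insert (P : Multiset (Finset E)) (u e : E) :
    tot (P.map (fun A => insert u A)) e = if e = u then Multiset.card P else tot P e := by
  induction P using Multiset.induction_on with
  | empty => simp [tot_zero]
  | cons A P ih =>
    rw [Multiset.map_cons, tot_cons, tot_cons, ih, Multiset.card_cons]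
    by_cases he : e = u
    · subst he
      simp [ind]
    · simp [ind, he]

theorem tot_filter (P : Multiset (Finset E)) (p : Finset E → Prop) [DecidablePred p] (e : E) :
    tot P e = tot (P.filter p) e + tot (P.filter (fun A => ¬ p A)) e := by
  rw [← tot_add, Multiset.filter_add_not]

theorem Pair.S_of_packing (h : Pair C u v) {W : E → ℕ} {P : Multiset (Finset E)}
    (hP : IsPacking C W P) : ∃ i j, i ≤ W u ∧ j ≤ W v ∧ i + j = Multiset.card P ∧
      S (part C u) (part C v) i j (res W u v) := by
  have hcard : Multiset.card P = Multiset.card (P.filter (fun A => u ∈ A)) +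
      Multiset.card (P.filter (fun A => ¬ u ∈ A)) := by
    rw [← Multiset.card_add, Multiset.filter_add_not]
  refine ⟨Multiset.card (P.filter (fun A => u ∈ A)), Multiset.card (P.filter (fun A => ¬ u ∈ A)),
    ?_, ?_, hcard.symm, (P.filter (fun A => u ∈ A)).map (fun A => A.erase u),
    (P.filter (fun A => ¬ u ∈ A)).map (fun A => A.erase v), ⟨?_, ?_, ?_⟩, by simp, by simp⟩
  · rw [← Multiset.countP_eq_card_filter]
    exact hP.2 u
  · have h1 : P.filter (fun A => ¬ u ∈ A) = P.filter (fun A => v ∈ A) := by
      refine Multiset.filter_congr (fun A hA => ?_)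
      have := h.h A (hP.1 A hA)
      tauto
    rw [h1, ← Multiset.countP_eq_card_filter]
    exact hP.2 v
  · intro A hA
    rw [Multiset.mem_map] at hA
    obtain ⟨B, hB, rfl⟩ := hA
    rw [Multiset.mem_filter] at hB
    exact h.erase_left (hP.1 B hB.1) hB.2
  · intro A hA
    rw [Multiset.mem_map] at hA
    obtain ⟨B, hB, rfl⟩ := hA
    rw [Multiset.mem_filter] at hB
    have := h.h B (hP.1 B hB.1)
    exact h.symm.erase_left (hP.1 B hB.1) (by tauto)
  · intro e
    rw [tot_map_erase, tot_map_erase]
    have h1 := hP.2 e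
    change tot P e ≤ W e at h1
    rw [tot_filter P (fun A => u ∈ A) e] at h1
    by_cases hu : e = u
    · subst hu
      have h2 : tot (P.filter (fun A => ¬ e ∈ A)) e = 0 := by
        unfold tot
        rw [Multiset.countP_eq_zero]
        intro A hA
        exact (Multiset.mem_filter.mp hA).2
      rw [if_pos rfl, h2]
      split_ifs <;> simp
    · by_cases hv : e = v
      · subst hv
        have h2 : tot (P.filter (fun A => u ∈ A)) e = 0 := by
          unfold tot
          rw [Multiset.countP_eq_zero]
          intro A hA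
          rw [Multiset.mem_filter] at hA
          have := h.h A (hP.1 A hA.1)
          tauto
        rw [h2, if_neg hu, if_pos rfl]
        exact Nat.zero_le _
      · rw [if_neg hu, if_neg hv, res_of W hu hv]
        exact h1

theorem Pair.packing_of_S (h : Pair C u v) {W : E → ℕ} {i j : ℕ} (hi : i ≤ W u) (hj : j ≤ W v)
    (hS : S (part C u) (part C v) i j (res W u v)) :
    ∃ P, IsPacking C W P ∧ Multiset.card P = i + j := by
  obtain ⟨P, Q, hpk, rfl, rfl⟩ := hS
  refine ⟨P.map (fun A => insert u A) + Q.map (fun A => insert v A), ⟨?_, ?_⟩, by simp⟩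
  · intro A hA
    rw [Multiset.mem_add, Multiset.mem_map, Multiset.mem_map] at hA
    rcases hA with ⟨B, hB, rfl⟩ | ⟨B, hB, rfl⟩
    · exact (h.left (hpk.hP B hB)).2.2
    · exact (h.right (hpk.hQ B hB)).2.2
  · intro e
    show tot _ e ≤ W e
    rw [tot_add, tot_map_insert, tot_map_insert]
    have h1 := hpk.hx e
    by_cases hu : e = u
    · subst hu
      rw [res_u] at h1
      rw [if_pos rfl, if_neg h.ne]
      omega
    · by_cases hv : e = v
      · subst hv
        rw [res_v] at h1
        rw [if_neg hu, if_pos rfl]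
        omega
      · rw [if_neg hu, if_neg hv]
        rw [res_of W hu hv] at h1
        exact h1

/-- Packings from the contraction minor `C / v`. -/
theorem Pair.contract (h : Pair C u v) (hM : MFMC (minor C ∅ {v})) {x : E → ℕ} (hu : x u = 0)
    {a k : ℕ} (h1 : ∀ D, Cov (part C v) D → k ≤ a + wt x D)
    (h2 : ∀ D, Cov (part C u ∪ part C v) D → k ≤ wt x D) :
    ∃ i j, i ≤ a ∧ i + j = k ∧ S (part C u) (part C v) i j x := by
  have mem1 : ∀ A ∈ part C u, insert u A ∈ minorSets C ∅ {v} := by
    intro A hA
    obtain ⟨g1, g2, g3⟩ := h.left hA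
    unfold minorSets
    rw [Finset.mem_image]
    refine ⟨insert u A, Finset.mem_filter.mpr ⟨g3, by simp⟩, ?_⟩
    rw [Finset.sdiff_singleton_eq_erase]
    refine Finset.erase_eq_of_notMem ?_
    rw [Finset.mem_insert]
    rintro (h5 | h5)
    · exact h.ne h5.symm
    · exact g2 h5
  have mem2 : ∀ A ∈ part C v, A ∈ minorSets C ∅ {v} := by
    intro A hA
    obtain ⟨g1, g2, g3⟩ := h.right hA
    unfold minorSets
    rw [Finset.mem_image]
    refine ⟨insert v A, Finset.mem_filter.mpr ⟨g3, by simp⟩, ?_⟩
    rw [Finset.sdiff_singleton_eq_erase]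
    exact Finset.erase_insert g2
  obtain ⟨P, hP, hPc⟩ := mfmc_packing hM (w := fun e => if e = u then a else x e) (k := k) (by
    intro D hD
    rw [wt_update x u a hu]
    by_cases huD : u ∈ D
    · rw [if_pos huD]
      exact h1 D (fun A hA => cover_minorSets hD (mem2 A hA))
    · rw [if_neg huD, Nat.zero_add]
      refine h2 D (fun A hA => ?_)
      rcases Finset.mem_union.mp hA with h5 | h5
      · exact inter_insert_nonempty (cover_minorSets hD (mem1 A h5)) huD
      · exact cover_minorSets hD (mem2 A h5))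
  have hmem : ∀ M ∈ P, (u ∈ M → M.erase u ∈ part C u) ∧ (u ∉ M → M ∈ part C v) := by
    intro M hMP
    have g1 := hP.1 M hMP
    unfold minor at g1
    rw [Finset.mem_filter] at g1
    have g2 := g1.1
    unfold minorSets at g2
    rw [Finset.mem_image] at g2
    obtain ⟨A, hA, rfl⟩ := g2
    rw [Finset.mem_filter] at hA
    rw [Finset.sdiff_singleton_eq_erase]
    constructor
    · intro g3
      have g4 : u ∈ A := Finset.mem_of_mem_erase g3
      have g5 : v ∉ A := by
        have := h.h A hA.1
        tauto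
      rw [Finset.erase_eq_of_notMem g5]
      exact h.erase_left hA.1 g4
    · intro g3
      have g4 : u ∉ A := fun g5 => g3 (Finset.mem_erase.mpr ⟨h.ne, g5⟩)
      have g5 : v ∈ A := by
        have := h.h A hA.1
        tauto
      exact h.symm.erase_left hA.1 g5
  have hcard : Multiset.card P = Multiset.card (P.filter (fun A => u ∈ A)) +
      Multiset.card (P.filter (fun A => ¬ u ∈ A)) := by
    rw [← Multiset.card_add, Multiset.filter_add_not]
  refine ⟨Multiset.card (P.filter (fun A => u ∈ A)), Multiset.card (P.filter (fun A => ¬ u ∈ A)),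
    ?_, by rw [← hcard, hPc], (P.filter (fun A => u ∈ A)).map (fun A => A.erase u),
    P.filter (fun A => ¬ u ∈ A), ⟨?_, ?_, ?_⟩, by simp, rfl⟩
  · rw [← Multiset.countP_eq_card_filter]
    have g1 := hP.2 u
    simpa using g1
  · intro A hA
    rw [Multiset.mem_map] at hA
    obtain ⟨B, hB, rfl⟩ := hA
    rw [Multiset.mem_filter] at hB
    exact (hmem B hB.1).1 hB.2
  · intro A hA
    rw [Multiset.mem_filter] at hA
    exact (hmem A hA.1).2 hA.2
  · intro e
    rw [tot_map_erase]
    have g1 := hP.2 e
    change tot P e ≤ (if e = u then a else x e) at g1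
    rw [tot_filter P (fun A => u ∈ A) e] at g1
    by_cases hue : e = u
    · subst hue
      have g2 : tot (P.filter (fun A => ¬ e ∈ A)) e = 0 := by
        unfold tot
        rw [Multiset.countP_eq_zero]
        intro A hA
        exact (Multiset.mem_filter.mp hA).2
      rw [if_pos rfl, g2]
      exact Nat.zero_le _
    · rw [if_neg hue] at g1 ⊢
      exact g1

end

end Pool.Agent.MFM
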