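import Pool.Agent.MFM.Basic

namespace Pool.Agent.MFM

open Finset

set_option linter.unusedSectionVars false

variable {E : Type*} [DecidableEq E] [Fintype E]

/-- A minimal violation `(p,q,w)` of the description of `S` by cover numbers. -/
structure MinViol (𝒜 ℬ : Finset (Finset E)) (w : E → ℕ) (p q : ℕ) : Prop where
  hA : ∅ ∉ 𝒜
  hB : ∅ ∉ ℬ
  pent : ∀ x, x ≤ w → x ≠ w → ∀ a b, a ≤ p → b ≤ q → a ≤ cn 𝒜 x → b ≤ cn ℬ x →
    a + b ≤ cn (𝒜 ∪ ℬ) x → S 𝒜 ℬ a b x
  nS : ¬ S 𝒜 ℬ p q w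
  sum : p + q = cn (𝒜 ∪ ℬ) w
  pA : p < cn 𝒜 w
  qB : q < cn ℬ w
  high : ∃ i j, p < i ∧ i + j = p + q ∧ S 𝒜 ℬ i j w
  low : ∃ i j, i < p ∧ i + j = p + q ∧ S 𝒜 ℬ i j w

variable {𝒜 ℬ : Finset (Finset E)} {w : E → ℕ} {p q : ℕ}

theorem MinViol.symm (h : MinViol 𝒜 ℬ w p q) : MinViol ℬ 𝒜 w q p := by
  refine ⟨h.hB, h.hA, ?_, fun h1 => h.nS h1.symm, ?_, h.qB, h.pA, ?_, ?_⟩
  · intro x hx hne a b ha hb h1 h2 h3
    rw [Finset.union_comm] at h3
    exact (h.pent x hx hne b a hb ha h2 h1 (by omega)).symm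
  · rw [Finset.union_comm, ← h.sum]
    omega
  · obtain ⟨i, j, h1, h2, h3⟩ := h.low
    exact ⟨j, i, by omega, by omega, h3.symm⟩
  · obtain ⟨i, j, h1, h2, h3⟩ := h.high
    exact ⟨j, i, by omega, by omega, h3.symm⟩

/-- For `x < w` there is `e` with `x + ind {e} ≤ w`. -/
theorem exists_lt {x w : E → ℕ} (h : x ≤ w) (hne : x ≠ w) :
    ∃ e y, x ≤ y ∧ y + ind {e} = w := by
  have h1 : ∃ e, x e ≠ w e := by
    by_contra h2
    push Not at h2
    exact hne (funext h2)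
  obtain ⟨e, he⟩ := h1
  have h2 : x e < w e := lt_of_le_of_ne (h e) he
  refine ⟨e, fun f => w f - ind {e} f, ?_, ?_⟩
  · intro f
    show x f ≤ w f - ind {e} f
    by_cases hf : f = e
    · subst hf
      simp only [ind, Finset.mem_singleton, if_true]
      omega
    · simp only [ind, Finset.mem_singleton, hf, if_false]
      have := h f
      omega
  · funext f
    show w f - ind {e} f + ind {e} f = w f
    by_cases hf : f = e
    · subst hf
      simp only [ind, Finset.mem_singleton, if_true]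
      omega
    · simp only [ind, Finset.mem_singleton, hf, if_false]
      omega

/-- Exactness: every `x < w` has a smaller cover number. -/
theorem MinViol.exact (h : MinViol 𝒜 ℬ w p q) {x : E → ℕ} (hx : x ≤ w) (hne : x ≠ w) :
    cn (𝒜 ∪ ℬ) x < p + q := by
  by_contra hcon
  push Not at hcon
  obtain ⟨e, y, hxy, hy⟩ := exists_lt hx hne
  have hyw : y ≤ w := by
    rw [← hy]
    intro f
    simp
  have hyne : y ≠ w := by
    intro h1
    have h2 := congrFun hy e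
    rw [h1] at h2
    simp [ind] at h2
  have h1 := cn_single h.hA y e
  have h2 := cn_single h.hB y e
  rw [hy] at h1 h2
  have h3 := cn_mono (not_mem_union h.hA h.hB) hxy
  have h4 := h.pA
  have h5 := h.qB
  exact h.nS ((h.pent y hyw hyne p q le_rfl le_rfl (by omega) (by omega) (by omega)).mono hyw)

theorem le_of_add {x y w : E → ℕ} (h : x + y = w) : x ≤ w := by
  rw [← h]
  intro f
  simp

theorem ne_of_add_ind {y w : E → ℕ} {A : Finset E} (hA : A.Nonempty) (h : y + ind A = w) :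
    y ≠ w := by
  intro h1
  obtain ⟨e, he⟩ := hA
  have h2 := congrFun h e
  rw [h1] at h2
  simp [ind, he] at h2

/-- Dichotomy for tight splits. -/
theorem MinViol.dich (h : MinViol 𝒜 ℬ w p q) {x y : E → ℕ} (hxy : x + y = w)
    (hx : x ≠ w) (hy : y ≠ w) (ht : cn (𝒜 ∪ ℬ) x + cn (𝒜 ∪ ℬ) y = p + q) :
    (p + 1 ≤ cn 𝒜 x + cn 𝒜 y ∧ cn ℬ x + cn ℬ y + 1 ≤ q) ∨
    (cn 𝒜 x + cn 𝒜 y + 1 ≤ p ∧ q + 1 ≤ cn ℬ x + cn ℬ y) := by
  have hyx : y + x = w := by rw [← hxy, add_comm]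
  have h1 := cn_union h.hA h.hB x
  have h2 := cn_union h.hA h.hB y
  have h3 := cn_left h.hA h.hB x
  have h4 := cn_left h.hA h.hB y
  have h5 := cn_right h.hA h.hB x
  have h6 := cn_right h.hA h.hB y
  by_cases hf : p ≤ cn 𝒜 x + cn 𝒜 y
  · by_cases hg : q ≤ cn ℬ x + cn ℬ y
    · exfalso
      set a1 := max (cn (𝒜 ∪ ℬ) x - cn ℬ x) (p - cn 𝒜 y) with ha1
      have hS1 := h.pent x (le_of_add hxy) hx a1 (cn (𝒜 ∪ ℬ) x - a1) (by omega) (by omega)
        (by omega) (by omega) (by omega)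
      have hS2 := h.pent y (le_of_add hyx) hy (p - a1) (q - (cn (𝒜 ∪ ℬ) x - a1)) (by omega)
        (by omega) (by omega) (by omega) (by omega)
      have hS3 := hS1.add hS2
      rw [hxy] at hS3
      have e1 : a1 + (p - a1) = p := by omega
      have e2 : (cn (𝒜 ∪ ℬ) x - a1) + (q - (cn (𝒜 ∪ ℬ) x - a1)) = q := by omega
      rw [e1, e2] at hS3
      exact h.nS hS3
    · left
      omega
  · right
    omega

end Pool.Agent.MFM
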