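import Pool.Agent.MFM.Defs
import Pool.Agent.MFM.Viol

namespace Pool.Agent.MFM

open Finset

set_option linter.unusedSectionVars false

variable {E : Type*} [DecidableEq E] [Fintype E]

theorem isPacking_iff {C : Finset (Finset E)} {w : E → ℕ} {P : Multiset (Finset E)} :
    IsPacking C w P ↔ (∀ A ∈ P, A ∈ C) ∧ ∀ e, tot P e ≤ w e := Iff.rfl

theorem tau_le {C : Finset (Finset E)} {w : E → ℕ} {B : Finset E} (h : IsCover C B) :
    tau C w ≤ (wt w B : ℕ) := iInf₂_le B h

theorem le_tau {C : Finset (Finset E)} {w : E → ℕ} {k : ℕ}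
    (h : ∀ B, IsCover C B → k ≤ wt w B) : (k : ℕ∞) ≤ tau C w :=
  le_iInf₂ (fun B hB => by exact_mod_cast h B hB)

theorem le_wt_of_le_tau {C : Finset (Finset E)} {w : E → ℕ} {k : ℕ} (h : (k : ℕ∞) ≤ tau C w)
    {B : Finset E} (hB : IsCover C B) : k ≤ wt w B := by
  exact_mod_cast h.trans (tau_le hB)

theorem le_nu {C : Finset (Finset E)} {w : E → ℕ} {P : Multiset (Finset E)}
    (h : IsPacking C w P) : (Multiset.card P : ℕ∞) ≤ nu C w :=
  le_iSup₂ (f := fun (P : Multiset (Finset E)) (_ : IsPacking C w P) =>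
    (Multiset.card P : ℕ∞)) P h

theorem exists_le_card {α : Type*} (P : Multiset α) {k : ℕ} (hk : k ≤ Multiset.card P) :
    ∃ Q ≤ P, Multiset.card Q = k := by
  induction P using Multiset.induction_on generalizing k with
  | empty =>
    refine ⟨0, le_rfl, ?_⟩
    rw [Multiset.card_zero] at hk ⊢
    omega
  | cons A P ih =>
    by_cases h : k ≤ Multiset.card P
    · obtain ⟨Q, hQ, hc⟩ := ih h
      exact ⟨Q, hQ.trans (Multiset.le_cons_self P A), hc⟩
    · refine ⟨A ::ₘ P, le_rfl, ?_⟩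
      rw [Multiset.card_cons] at hk ⊢
      omega

theorem IsPacking.sub {C : Finset (Finset E)} {w : E → ℕ} {P : Multiset (Finset E)}
    (h : IsPacking C w P) {k : ℕ} (hk : k ≤ Multiset.card P) :
    ∃ Q, IsPacking C w Q ∧ Multiset.card Q = k := by
  obtain ⟨Q, hQ, hc⟩ := exists_le_card P hk
  refine ⟨Q, ⟨fun A hA => h.1 A (Multiset.mem_of_le hQ hA), fun e => ?_⟩, hc⟩
  exact (Multiset.countP_le_of_le _ hQ).trans (h.2 e)

/-- If there is no packing with `k` members, then `nu < k`. -/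
theorem nu_lt {C : Finset (Finset E)} {w : E → ℕ} {k : ℕ}
    (h : ¬ ∃ P, IsPacking C w P ∧ Multiset.card P = k) : nu C w < (k : ℕ∞) := by
  have hk : k ≠ 0 := by
    rintro rfl
    exact h ⟨0, ⟨fun A hA => absurd hA (Multiset.notMem_zero A), fun e => by simp⟩, rfl⟩
  have h1 : nu C w ≤ ((k - 1 : ℕ) : ℕ∞) := by
    refine iSup₂_le (fun P hP => ?_)
    have h2 : Multiset.card P < k := by
      by_contra h3
      exact h (hP.sub (not_lt.mp h3))
    have h3 : Multiset.card P ≤ k - 1 := by omega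
    exact_mod_cast h3
  refine lt_of_le_of_lt h1 ?_
  have h2 : k - 1 < k := by omega
  exact_mod_cast h2

theorem exists_packing {C : Finset (Finset E)} {w : E → ℕ} {k : ℕ} (h : (k : ℕ∞) ≤ nu C w) :
    ∃ P, IsPacking C w P ∧ Multiset.card P = k := by
  by_contra h1
  exact absurd (nu_lt h1) (not_lt.mpr h)

theorem packing_le_cover {C : Finset (Finset E)} {w : E → ℕ} {P : Multiset (Finset E)}
    (hP : IsPacking C w P) {B : Finset E} (hB : IsCover C B) : Multiset.card P ≤ wt w B :=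
  (wt_tot (F := C) hB P hP.1).trans (wt_mono (fun e => hP.2 e) B)

theorem nu_le_tau (C : Finset (Finset E)) (w : E → ℕ) : nu C w ≤ tau C w := by
  refine iSup₂_le (fun P hP => le_iInf₂ (fun B hB => ?_))
  exact_mod_cast packing_le_cover hP hB

theorem mfmc_packing {C : Finset (Finset E)} (h : MFMC C) {w : E → ℕ} {k : ℕ}
    (hk : ∀ B, IsCover C B → k ≤ wt w B) : ∃ P, IsPacking C w P ∧ Multiset.card P = k :=
  exists_packing ((h w) ▸ le_tau hk)

/-- A violation in terms of a number `k`. -/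
theorem exists_viol {C : Finset (Finset E)} {w : E → ℕ} (h : nu C w < tau C w) :
    ∃ k : ℕ, (∀ B, IsCover C B → k ≤ wt w B) ∧
      ¬ ∃ P, IsPacking C w P ∧ Multiset.card P = k := by
  obtain ⟨n, hn⟩ := ENat.ne_top_iff_exists.mp (ne_top_of_lt h)
  refine ⟨n + 1, fun B hB => ?_, ?_⟩
  · have h1 : nu C w < (wt w B : ℕ) := lt_of_lt_of_le h (tau_le hB)
    rw [← hn] at h1
    have h2 : n < wt w B := by exact_mod_cast h1
    omega
  · rintro ⟨P, hP, hc⟩
    have h1 := le_nu hP
    rw [hc, ← hn] at h1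
    have h2 : n + 1 ≤ n := by exact_mod_cast h1
    omega

/-- Every set of `minorSets` contains a member of the minor. -/
theorem exists_minor {C : Finset (Finset E)} {I J : Finset E} {A : Finset E}
    (hA : A ∈ minorSets C I J) : ∃ M ∈ minor C I J, M ⊆ A := by
  obtain ⟨M, hM, hmin⟩ := Finset.exists_minimal (s := (minorSets C I J).filter (fun B => B ⊆ A))
    ⟨A, Finset.mem_filter.mpr ⟨hA, subset_rfl⟩⟩
  rw [Finset.mem_filter] at hM
  refine ⟨M, ?_, hM.2⟩
  unfold minor
  rw [Finset.mem_filter]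
  refine ⟨hM.1, fun B hB hBM => ?_⟩
  have h1 := hmin (Finset.mem_filter.mpr ⟨hB, hBM.trans hM.2⟩) hBM
  exact subset_antisymm hBM h1

theorem cover_minorSets {C : Finset (Finset E)} {I J : Finset E} {B : Finset E}
    (hB : IsCover (minor C I J) B) {A : Finset E} (hA : A ∈ minorSets C I J) :
    (A ∩ B).Nonempty := by
  obtain ⟨M, hM, hMA⟩ := exists_minor hA
  obtain ⟨e, he⟩ := hB M hM
  rw [Finset.mem_inter] at he
  exact ⟨e, Finset.mem_inter.mpr ⟨hMA he.1, he.2⟩⟩

/-- The `u`-part of a clutter. -/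
def part (C : Finset (Finset E)) (u : E) : Finset (Finset E) :=
  (C.filter (fun A => u ∈ A)).image (fun A => A.erase u)

theorem mem_part {C : Finset (Finset E)} {u : E} {A : Finset E} :
    A ∈ part C u ↔ u ∉ A ∧ insert u A ∈ C := by
  unfold part
  rw [Finset.mem_image]
  constructor
  · rintro ⟨B, hB, rfl⟩
    rw [Finset.mem_filter] at hB
    exact ⟨Finset.notMem_erase u B, by rw [Finset.insert_erase hB.2]; exact hB.1⟩
  · rintro ⟨h1, h2⟩
    refine ⟨insert u A, Finset.mem_filter.mpr ⟨h2, Finset.mem_insert_self u A⟩, ?_⟩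
    exact Finset.erase_insert h1

end Pool.Agent.MFM
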