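import Pool.Agent.MFM.Full

namespace Pool.Agent.MFM

open Finset

set_option linter.unusedSectionVars false

variable {E : Type*} [DecidableEq E] [Fintype E]
variable {𝒜 ℬ : Finset (Finset E)} {w : E → ℕ} {l h g : ℕ} {M N : Finset E}

theorem FullViol.card3H (H : FullViol 𝒜 ℬ w l h g) (hs : ∀ M ∈ 𝒜 ∪ ℬ, M.card ≤ 3) (h3 : 3 ≤ g)
    (hM : HM 𝒜 ℬ w h g M) : M.card = 3 := by
  have h1 := H.lh
  have h2 := H.hle
  have := H.min.card_high (by omega) (hM.toHigh H)
  have := hs M (H.hSplit hM).1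
  omega

theorem FullViol.card3L (H : FullViol 𝒜 ℬ w l h g) (hs : ∀ M ∈ 𝒜 ∪ ℬ, M.card ≤ 3) (h3 : 3 ≤ g)
    (hM : LM 𝒜 ℬ w l g M) : M.card = 3 := by
  have h1 := H.lh
  have h2 := H.hle
  have := H.min.card_low (by omega) (hM.toLow H)
  have := hs M (H.lSplit hM).1
  omega

theorem FullViol.inter_le (H : FullViol 𝒜 ℬ w l h g) (hs : ∀ M ∈ 𝒜 ∪ ℬ, M.card ≤ 3)
    (h3 : 3 ≤ g) (hM : HM 𝒜 ℬ w h g M) (hN : LM 𝒜 ℬ w l g N) : (M ∩ N).card ≤ 1 := by
  have h1 := H.lh
  have h2 := H.hle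
  by_contra hcon
  have hne : (M ∩ N).Nonempty := by
    rw [← Finset.card_pos]
    omega
  have h4 := H.min.cor1 (by omega) (hM.toHigh H) (hN.toLow H) hne
  have h5 := H.card3H hs h3 hM
  have h6 := Finset.card_sdiff_add_card_inter M N
  omega

theorem FullViol.inter_eq (H : FullViol 𝒜 ℬ w l h g) (hs : ∀ M ∈ 𝒜 ∪ ℬ, M.card ≤ 3)
    (h3 : 3 ≤ g) (hM : HM 𝒜 ℬ w h g M) (hN : LM 𝒜 ℬ w l g N) {e f : E} (he : e ∈ M)
    (he' : e ∈ N) (hf : f ∈ M) (hf' : f ∈ N) : e = f := by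
  by_contra hne
  have h4 := H.inter_le hs h3 hM hN
  have h5 : ({e, f} : Finset E) ⊆ M ∩ N := by
    intro x hx
    rw [Finset.mem_insert, Finset.mem_singleton] at hx
    rcases hx with rfl | rfl
    · exact Finset.mem_inter.mpr ⟨he, he'⟩
    · exact Finset.mem_inter.mpr ⟨hf, hf'⟩
  have h6 := Finset.card_le_card h5
  rw [Finset.card_pair hne] at h6
  omega

/-- Low `𝒜`-member through an element of a high `𝒜`-member: the other two elements are in
low `ℬ`-members. -/
theorem FullViol.y0 (H : FullViol 𝒜 ℬ w l h g) (hs : ∀ M ∈ 𝒜 ∪ ℬ, M.card ≤ 3) (h3 : 3 ≤ g)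
    (hM : HM 𝒜 ℬ w h g M) {P Q : Multiset (Finset E)} (hpk : IsPk 𝒜 ℬ P Q w)
    (hP : Multiset.card P = l) (hc : Multiset.card P + Multiset.card Q = g) (hN : N ∈ P)
    {e f : E} (he : e ∈ M) (he' : e ∈ N) (hf : f ∈ M) (hfe : f ≠ e) :
    0 < tot Q f ∧ h = l + 2 := by
  have h1 := H.lh
  have h2 := H.hle
  have hU := not_mem_union H.hA H.hB
  have hNL : LM 𝒜 ℬ w l g N := ⟨P, Q, hpk, hc, by omega, Or.inl hN⟩
  have hM3 := H.card3H hs h3 hM
  have hfN : f ∉ N := fun h4 => hfe (H.inter_eq hs h3 hM hNL hf h4 he he')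
  -- third element
  obtain ⟨f', hf'⟩ : ∃ f', (M.erase e).erase f = {f'} := by
    rw [← Finset.card_eq_one, Finset.card_erase_of_mem (Finset.mem_erase.mpr ⟨hfe, hf⟩),
      Finset.card_erase_of_mem he, hM3]
  have hf'm : f' ∈ (M.erase e).erase f := by
    rw [hf']
    exact Finset.mem_singleton_self f'
  rw [Finset.mem_erase, Finset.mem_erase] at hf'm
  obtain ⟨hf'f, hf'e, hf'M⟩ := hf'm
  have hf'N : f' ∉ N := fun h4 => hf'e (H.inter_eq hs h3 hM hNL hf'M h4 he he')
  have hMel : ∀ x ∈ M, x = e ∨ x = f ∨ x = f' := by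
    intro x hx
    by_cases h4 : x = e
    · exact Or.inl h4
    · by_cases h5 : x = f
      · exact Or.inr (Or.inl h5)
      · right
        right
        have : x ∈ (M.erase e).erase f :=
          Finset.mem_erase.mpr ⟨h5, Finset.mem_erase.mpr ⟨h4, hx⟩⟩
        rw [hf'] at this
        exact Finset.mem_singleton.mp this
  obtain ⟨-, rM, hrM, -, -, -, -, -, hMb⟩ := H.hSplit hM
  obtain ⟨hNU, rN, hrN, -, -, hgN, -, hNa, -⟩ := H.lSplit hNL
  obtain ⟨P', hP'⟩ := Multiset.exists_cons_of_mem hN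
  have hNA : N ∈ 𝒜 := hpk.hP N hN
  subst hP'
  obtain ⟨r, hr, hk⟩ := hpk.erase_left
  have hrr : r = rN := by
    funext x
    have h4 := congrFun hr x
    have h5 := congrFun hrN x
    simp only [Pi.add_apply] at h4 h5
    omega
  subst hrr
  obtain ⟨y0, hy0⟩ : ∃ y0, y0 + ind (M ∪ N) = w := by
    refine ⟨fun x => w x - ind (M ∪ N) x, ?_⟩
    funext x
    show w x - ind (M ∪ N) x + ind (M ∪ N) x = w x
    have : ind (M ∪ N) x ≤ w x := by
      have h4 := congrFun hrM x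
      have h5 := congrFun hrN x
      simp only [Pi.add_apply, ind, Finset.mem_union] at h4 h5 ⊢
      by_cases h6 : x ∈ M <;> by_cases h7 : x ∈ N <;> simp [h6, h7] at h4 h5 ⊢ <;> omega
    omega
  have i1 : y0 + ind {f'} + ind {f} = r := by
    funext x
    have h4 := congrFun hy0 x
    have h5 := congrFun hrN x
    simp only [Pi.add_apply, ind, Finset.mem_union, Finset.mem_singleton] at h4 h5 ⊢
    by_cases hxM : x ∈ M
    · rcases hMel x hxM with rfl | rfl | rfl
      · simp [he, he', hfe.symm, Ne.symm hf'e] at h4 h5 ⊢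
        omega
      · simp [hf, hfN, Ne.symm hf'f] at h4 h5 ⊢
        omega
      · simp [hf'M, hf'N, hf'f] at h4 h5 ⊢
        omega
    · have n1 : x ≠ f := by rintro rfl; exact hxM hf
      have n2 : x ≠ f' := by rintro rfl; exact hxM hf'M
      by_cases hxN : x ∈ N <;> simp [hxM, hxN, n1, n2] at h4 h5 ⊢ <;> omega
  have i2 : y0 ≤ rM := by
    intro x
    show y0 x ≤ rM x
    have h4 := congrFun hy0 x
    have h5 := congrFun hrM x
    simp only [Pi.add_apply, ind, Finset.mem_union] at h4 h5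
    by_cases h6 : x ∈ M <;> by_cases h7 : x ∈ N <;> simp [h6, h7] at h4 h5 <;> omega
  have b1 : cn ℬ y0 ≤ cn ℬ rM := cn_mono H.hB i2
  have b2 := cn_single H.hB y0 f'
  rw [Multiset.card_cons] at hP hc
  constructor
  · rw [← i1] at hk
    obtain ⟨B, Q', hQ', hfB, -⟩ := hk.split_right H.hB (by omega)
    exact tot_pos_of (by rw [hQ']; exact Multiset.mem_cons_self B Q') hfB
  · have g1 := cn_single hU y0 f'
    have g2 := cn_single hU (y0 + ind {f'}) f
    rw [i1] at g2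
    have g3 := cn_union H.hA H.hB y0
    have g4 : cn 𝒜 y0 ≤ cn 𝒜 r := cn_mono H.hA (by
      rw [← i1]
      intro x
      simp only [Pi.add_apply]
      omega)
    have g5 := cn_ind H.hA hNA
    omega

/-- Structure of a high `𝒜`-member with respect to a low packing with `l` members of `𝒜`. -/
theorem FullViol.yc (H : FullViol 𝒜 ℬ w l h g) (hs : ∀ M ∈ 𝒜 ∪ ℬ, M.card ≤ 3) (h4 : 4 ≤ g)
    (hM : HM 𝒜 ℬ w h g M) (hMA : M ∈ 𝒜) {P Q : Multiset (Finset E)} (hpk : IsPk 𝒜 ℬ P Q w)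
    (hP : Multiset.card P = l) (hc : Multiset.card P + Multiset.card Q = g) :
    h = l + 2 ∧ ∃ e ∈ M, 0 < tot P e ∧ tot Q e = 0 ∧
      ∀ f ∈ M, f ≠ e → tot P f = 0 ∧ 0 < tot Q f := by
  have h1 := H.lh
  have h2 := H.hle
  have h3 : 3 ≤ g := by omega
  have hM3 := H.card3H hs h3 hM
  obtain ⟨-, rM, hrM, -⟩ := H.hSplit hM
  have hwM : ∀ x ∈ M, 0 < w x := by
    intro x hx
    rw [← hrM]
    simp only [Pi.add_apply, ind_apply_mem hx]
    omega
  have hex : ∀ x, tot P x + tot Q x = w x := H.min.pk_exact hpk (by omega)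
  have step1 : ∃ e ∈ M, tot Q e = 0 := by
    by_contra hno
    push Not at hno
    obtain ⟨Q1, Q2, k1, k2, k3⟩ := demand M.card (ind M) Q (sum_ind M) (by
      intro x
      by_cases hx : x ∈ M
      · rw [ind_apply_mem hx]
        have := hno x hx
        omega
      · rw [ind_apply_not_mem hx]
        exact Nat.zero_le _)
    subst k1
    have k4 := H.sub_low (P1 := 0) (P2 := P) (Q1 := Q1) (Q2 := Q2) (x := ind M)
      (by rw [zero_add]; exact hpk) (by rw [zero_add]; exact hc) (by rw [zero_add]; exact hP) (by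
        rw [Multiset.card_add] at hc
        omega) (by
        intro x
        rw [tot_zero, Nat.zero_add]
        exact k3 x)
    rw [Multiset.card_zero] at k4
    have := cn_ind H.hA hMA
    omega
  obtain ⟨e, heM, heQ⟩ := step1
  have heP : 0 < tot P e := by
    have := hex e
    have := hwM e heM
    omega
  obtain ⟨N, hNP, heN⟩ := tot_pos heP
  have hfM : ∃ f ∈ M, f ≠ e := by
    by_contra hno
    push Not at hno
    have : M ⊆ {e} := fun x hx => Finset.mem_singleton.mpr (hno x hx)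
    have := Finset.card_le_card this
    rw [Finset.card_singleton] at this
    omega
  obtain ⟨f0, hf0, hf0e⟩ := hfM
  have key := H.y0 hs h3 hM hpk hP hc hNP heM heN hf0 hf0e
  refine ⟨key.2, e, heM, heP, heQ, ?_⟩
  intro f hf hfe
  refine ⟨?_, (H.y0 hs h3 hM hpk hP hc hNP heM heN hf hfe).1⟩
  by_contra h5
  obtain ⟨N', hN'P, hfN'⟩ := tot_pos (Nat.pos_of_ne_zero h5)
  have := (H.y0 hs h3 hM hpk hP hc hN'P hf hfN' heM hfe.symm).1
  omega

end Pool.Agent.MFM
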